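import Pool.Agent.HS37.SP.Mom

/-!
# Project SP: auxiliary lemmas for the assembly
-/

set_option autoImplicit false

open UpperHalfPlane

namespace Pool.Agent.HS37.SP

lemma card_reps {N : ℕ} (hN : 0 < N) : (reps N).card = ∑ a ∈ N.divisors, N / a := by
  rw [Finset.card_eq_sum_ones, sum_reps hN]
  simp only [Finset.sum_const, Finset.card_range, smul_eq_mul, mul_one]
  exact Nat.sum_divisorsAntidiagonal (fun _ j => j)

/-- The product of all `a^(12 N / a)`. -/
noncomputable def QQ (N : ℕ) : ℂ := ∏ a ∈ N.divisors, ((a : ℂ) ^ (12 * (N / a)))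

lemma QQ_mul {N p : ℕ} (hN : 0 < N) (hp : p.Prime) : ∃ E : ℤ, IsCoprime E (p : ℤ) ∧
    QQ (N * p) = E * (p : ℂ) ^ (12 * (reps N).card) * QQ N := by
  have hp0 := hp.pos
  have hNp : N * p ≠ 0 := (Nat.mul_pos hN hp0).ne'
  refine ⟨∏ a ∈ (N * p).divisors.filter (fun a => ¬ p ∣ a), ((a : ℤ) ^ (12 * (N * p / a))), ?_, ?_⟩
  · refine IsCoprime.prod_left fun a ha => IsCoprime.pow_left ?_
    rw [Finset.mem_filter] at ha
    rw [Nat.isCoprime_iff_coprime]
    exact (hp.coprime_iff_not_dvd.2 ha.2).symm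
  · have h1 : QQ (N * p) = (∏ a ∈ (N * p).divisors.filter (fun a => ¬ p ∣ a),
        ((a : ℂ) ^ (12 * (N * p / a)))) *
        ∏ a ∈ (N * p).divisors.filter (fun a => p ∣ a), ((a : ℂ) ^ (12 * (N * p / a))) := by
      have h := Finset.prod_filter_mul_prod_filter_not (N * p).divisors (fun a => p ∣ a)
        (fun a => ((a : ℂ) ^ (12 * (N * p / a))))
      rw [mul_comm] at h
      exact h.symm
    have h2 : ∏ a ∈ (N * p).divisors.filter (fun a => p ∣ a), ((a : ℂ) ^ (12 * (N * p / a))) =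
        ∏ a ∈ N.divisors, ((p : ℂ) ^ (12 * (N / a)) * (a : ℂ) ^ (12 * (N / a))) := by
      symm
      refine Finset.prod_nbij (fun a => p * a) ?_ ?_ ?_ ?_
      · intro a ha
        rw [Nat.mem_divisors] at ha
        rw [Finset.mem_filter, Nat.mem_divisors]
        refine ⟨⟨?_, hNp⟩, dvd_mul_right _ _⟩
        rw [mul_comm N p]
        exact Nat.mul_dvd_mul_left p ha.1
      · intro a _ b _ h
        exact Nat.eq_of_mul_eq_mul_left hp0 h
      · intro a ha
        rw [Finset.mem_coe, Finset.mem_filter, Nat.mem_divisors] at ha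
        obtain ⟨⟨h3, -⟩, b, rfl⟩ := ha
        refine ⟨b, ?_, rfl⟩
        rw [Finset.mem_coe, Nat.mem_divisors]
        refine ⟨?_, hN.ne'⟩
        rw [mul_comm N p] at h3
        exact Nat.dvd_of_mul_dvd_mul_left hp0 h3
      · intro a _
        have h3 : N * p / (p * a) = N / a := by
          rw [mul_comm N p, Nat.mul_div_mul_left _ _ hp0]
        rw [h3, ← mul_pow]
        push_cast
        rfl
    rw [h1, h2, Finset.prod_mul_distrib, Finset.prod_pow_eq_pow_sum, ← Finset.mul_sum,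
      ← card_reps hN]
    unfold QQ
    push_cast
    ring

lemma QQ_ne {N : ℕ} : QQ N ≠ 0 := by
  unfold QQ
  refine Finset.prod_ne_zero_iff.2 fun a ha => pow_ne_zero _ ?_
  have := Nat.pos_of_mem_divisors ha
  exact_mod_cast this.ne'

lemma eis_const (k : ℕ) : PowerSeries.constantCoeff (eis k) = 1 := by
  rw [← PowerSeries.coeff_zero_eq_constantCoeff_apply, eis, PowerSeries.coeff_mk, if_pos rfl]

lemma inv_mem {c : PowerSeries ℂ} (hc : c ∈ intR) (h0 : PowerSeries.constantCoeff c = 1) :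
    c⁻¹ ∈ intR := by
  obtain ⟨D, rfl⟩ := hc
  have h1 : PowerSeries.constantCoeff D = 1 := by
    rw [← PowerSeries.coeff_zero_eq_constantCoeff_apply, PowerSeries.coeff_map] at h0
    rw [← PowerSeries.coeff_zero_eq_constantCoeff_apply]
    exact_mod_cast (show ((PowerSeries.coeff 0 D : ℤ) : ℂ) = 1 from h0)
  have h2 : D * PowerSeries.invOfUnit D 1 = 1 := PowerSeries.mul_invOfUnit D 1 (by simp [h1])
  refine ⟨PowerSeries.invOfUnit D 1, ?_⟩
  have h3 : PowerSeries.map (Int.castRingHom ℂ) D *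
      PowerSeries.map (Int.castRingHom ℂ) (PowerSeries.invOfUnit D 1) = 1 := by
    rw [← map_mul, h2, map_one]
  have h4 : PowerSeries.constantCoeff (PowerSeries.map (Int.castRingHom ℂ) D) ≠ 0 := by
    rw [h0]
    exact one_ne_zero
  rw [PowerSeries.eq_inv_iff_mul_eq_one h4, mul_comm]
  exact h3

lemma quot_int {k r s : ℕ} (hA : Adm k r s) (J : ℤ) : IsInt (quot k J) := by
  obtain ⟨⟨-, -, i4⟩, ⟨-, -, i6⟩, ⟨-, -, i12, d0, -⟩, ⟨e8, e10, e14⟩, -⟩ := t_EIS
  rw [isInt_iff] at i4 i6 i12 ⊢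
  have hk : eis k ∈ intR := by
    rcases hA with ⟨rfl, -, -⟩ | ⟨rfl, -, -⟩ | ⟨rfl, -, -⟩ | ⟨rfl, -, -⟩ | ⟨rfl, -, -⟩
    · exact i4
    · exact i6
    · rw [e8]
      exact pow_mem i4 2
    · rw [e10]
      exact mul_mem i4 i6
    · rw [e14]
      exact mul_mem (pow_mem i4 2) i6
  unfold quot
  refine mul_mem (mul_mem hk i12) (inv_mem (sub_mem (pow_mem i4 3) (mul_mem (isInt_C J) i12)) ?_)
  rw [PowerSeries.coeff_zero_eq_constantCoeff_apply] at d0
  rw [map_sub, map_mul, map_pow, eis_const, d0]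
  simp

/-! ### The order -/

section order

variable {a b c : ℤ} {α : ℍ}

lemma InOrder.add {z w : ℂ} (hz : InOrder a α z) (hw : InOrder a α w) : InOrder a α (z + w) := by
  obtain ⟨x, y, rfl⟩ := hz
  obtain ⟨x', y', rfl⟩ := hw
  exact ⟨x + x', y + y', by push_cast; ring⟩

lemma InOrder.neg {z : ℂ} (hz : InOrder a α z) : InOrder a α (-z) := by
  obtain ⟨x, y, rfl⟩ := hz
  exact ⟨-x, -y, by push_cast; ring⟩

lemma inOrder_int (z : ℤ) : InOrder a α (z : ℂ) := ⟨z, 0, by simp⟩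

lemma InOrder.mul (hα : (a : ℂ) * (α : ℂ) ^ 2 + b * α + c = 0) {z w : ℂ} (hz : InOrder a α z)
    (hw : InOrder a α w) : InOrder a α (z * w) := by
  obtain ⟨x, y, rfl⟩ := hz
  obtain ⟨x', y', rfl⟩ := hw
  refine ⟨x * x' - a * c * y * y', x * y' + x' * y - b * y * y', ?_⟩
  push_cast
  linear_combination ((a : ℂ) * y * y') * hα

lemma InOrder.pow (hα : (a : ℂ) * (α : ℂ) ^ 2 + b * α + c = 0) {z : ℂ} (hz : InOrder a α z)
    (n : ℕ) : InOrder a α (z ^ n) := by
  induction n with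
  | zero =>
    rw [pow_zero]
    exact ⟨1, 0, by simp⟩
  | succ n ih =>
    rw [pow_succ]
    exact ih.mul hα hz

lemma conj_sum (hα : (a : ℂ) * (α : ℂ) ^ 2 + b * α + c = 0) :
    (a : ℂ) * ((starRingEnd ℂ) (α : ℂ)) = -b - a * α := by
  have h1 := congrArg (starRingEnd ℂ) hα
  simp only [map_add, map_mul, map_pow, map_zero, map_intCast] at h1
  have h2 : ((α : ℂ) - (starRingEnd ℂ) (α : ℂ)) ≠ 0 := by
    intro h
    have := congrArg Complex.im h
    simp at this
    have h3 := α.im_pos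
    have h4 : (α : ℂ).im = α.im := rfl
    rw [← h4] at h3
    linarith
  have h3 : ((α : ℂ) - (starRingEnd ℂ) (α : ℂ)) *
      ((a : ℂ) * ((starRingEnd ℂ) (α : ℂ)) + b + a * α) = 0 := by
    linear_combination hα - h1
  have h4 := (mul_eq_zero.1 h3).resolve_left h2
  linear_combination h4

lemma InOrder.conj (hα : (a : ℂ) * (α : ℂ) ^ 2 + b * α + c = 0) {z : ℂ} (hz : InOrder a α z) :
    InOrder a α ((starRingEnd ℂ) z) := by
  obtain ⟨x, y, rfl⟩ := hz
  refine ⟨x - b * y, -y, ?_⟩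
  simp only [map_add, map_mul, map_intCast]
  push_cast
  linear_combination (y : ℂ) * conj_sum hα

lemma InOrder.isIntegral (hα : (a : ℂ) * (α : ℂ) ^ 2 + b * α + c = 0) {z : ℂ}
    (hz : InOrder a α z) : IsIntegral ℤ z := by
  have h1 : IsIntegral ℤ ((a : ℂ) * α) := by
    refine ⟨Polynomial.X ^ 2 + Polynomial.C b * Polynomial.X + Polynomial.C (a * c), ?_, ?_⟩
    · rw [show (Polynomial.X ^ 2 + Polynomial.C b * Polynomial.X + Polynomial.C (a * c) :
        Polynomial ℤ) = Polynomial.C 1 * Polynomial.X ^ 2 + Polynomial.C b * Polynomial.X +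
          Polynomial.C (a * c) by simp]
      exact Polynomial.leadingCoeff_quadratic one_ne_zero
    · rw [← Polynomial.aeval_def, map_add, map_add, map_mul, map_pow, Polynomial.aeval_X,
        Polynomial.aeval_C, Polynomial.aeval_C]
      simp only [algebraMap_int_eq, eq_intCast, Int.cast_mul]
      linear_combination (a : ℂ) * hα
  obtain ⟨x, y, rfl⟩ := hz
  exact (isIntegral_algebraMap (R := ℤ) (A := ℂ) (x := x)).add
    ((isIntegral_algebraMap (R := ℤ) (A := ℂ) (x := y)).mul h1)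

end order

end Pool.Agent.HS37.SP
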