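import Pool.Agent.HS37.SP.Stm

/-!
# Project SP, piece BACK: running the recurrence backwards
-/

set_option autoImplicit false

open Polynomial

namespace Pool.Agent.HS37.SP

theorem t_BACK : S_BACK := by
  intro ι _ T x u ϖ M₀ hx hR
  obtain ⟨O, hO⟩ : ∃ O : Subalgebra ℤ ℂ, O = integralClosure ℤ ℂ := ⟨_, rfl⟩
  have hmem : ∀ z : ℂ, z ∈ O ↔ IsIntegral ℤ z := fun z => by rw [hO]; rfl
  classical
  obtain ⟨y, hy⟩ : ∃ y : ι → O, ∀ i ∈ T, (y i : ℂ) = x i :=
    ⟨fun i => if h : x i ∈ O then ⟨x i, h⟩ else 0, fun i hi => by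
      show ((if h : x i ∈ O then (⟨x i, h⟩ : O) else 0 : O) : ℂ) = x i
      rw [dif_pos ((hmem _).2 (hx i hi))]⟩
  obtain ⟨P, hP⟩ : ∃ P : O[X], P = ∏ i ∈ T, (X - C (y i)) := ⟨_, rfl⟩
  have hPi : ∀ i ∈ T, P.eval (y i) = 0 := by
    intro i hi
    rw [hP, eval_prod]
    exact Finset.prod_eq_zero hi (by simp)
  have hP0 : P.coeff 0 = (-1) ^ T.card * ∏ i ∈ T, y i := by
    rw [hP, coeff_zero_eq_eval_zero, eval_prod]
    simp only [eval_sub, eval_X, eval_C, zero_sub]
    rw [Finset.prod_neg]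
  obtain ⟨R, hRd⟩ : ∃ R : ℕ → ℂ, ∀ M, R M = ∑ i ∈ T, u i * x i ^ M := ⟨_, fun _ => rfl⟩
  obtain ⟨e, he⟩ : ∃ e : ℂ, e = ∏ i ∈ T, x i := ⟨_, rfl⟩
  have he' : ((∏ i ∈ T, y i : O) : ℂ) = e := by
    rw [he]
    push_cast
    exact Finset.prod_congr rfl hy
  have hrec : ∀ m, ∑ j ∈ Finset.range (P.natDegree + 1), (P.coeff j : ℂ) * R (m + j) = 0 := by
    intro m
    calc ∑ j ∈ Finset.range (P.natDegree + 1), (P.coeff j : ℂ) * R (m + j)
        = ∑ j ∈ Finset.range (P.natDegree + 1), ∑ i ∈ T, u i * x i ^ m *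
            ((P.coeff j : ℂ) * x i ^ j) := by
          refine Finset.sum_congr rfl fun j _ => ?_
          rw [hRd, Finset.mul_sum]
          refine Finset.sum_congr rfl fun i _ => ?_
          rw [pow_add]
          ring
      _ = ∑ i ∈ T, u i * x i ^ m * ((P.eval (y i) : O) : ℂ) := by
          rw [Finset.sum_comm]
          refine Finset.sum_congr rfl fun i hi => ?_
          rw [← Finset.mul_sum, eval_eq_sum_range]
          push_cast
          rw [hy i hi]
      _ = 0 := Finset.sum_eq_zero fun i hi => by rw [hPi i hi]; simp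
  -- divisibility by `ϖ`
  have key : ∀ n : ℕ, ∀ m : ℕ, M₀ ≤ m + n → ∃ w : O, e ^ n * R m = ϖ * w := by
    intro n
    induction n with
    | zero =>
      intro m hm
      obtain ⟨w, hw, h⟩ := hR m (by simpa using hm)
      exact ⟨⟨w, (hmem w).2 hw⟩, by rw [pow_zero, one_mul, hRd, h]⟩
    | succ n ih =>
      intro m hm
      choose! w hw using fun j (hj : M₀ ≤ (m + (j + 1)) + n) => ih (m + (j + 1)) hj
      have h1 := hrec m
      rw [Finset.sum_range_succ', hP0, add_zero] at h1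
      push_cast at h1
      have h2 : (∏ i ∈ T, (y i : ℂ)) = e := by
        rw [he]
        exact Finset.prod_congr rfl hy
      rw [h2] at h1
      have h3 : ((-1 : ℂ) ^ T.card) * ((-1 : ℂ) ^ T.card) = 1 := by
        rw [← mul_pow]
        simp
      refine ⟨-((-1) ^ T.card) * ∑ j ∈ Finset.range P.natDegree, P.coeff (j + 1) * w j, ?_⟩
      have h4 : ∑ j ∈ Finset.range P.natDegree, (P.coeff (j + 1) : ℂ) * (e ^ n * R (m + (j + 1))) =
          ϖ * ∑ j ∈ Finset.range P.natDegree, (P.coeff (j + 1) : ℂ) * (w j : ℂ) := by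
        rw [Finset.mul_sum]
        refine Finset.sum_congr rfl fun j _ => ?_
        rw [hw j (by omega)]
        ring
      have h5 : ∑ j ∈ Finset.range P.natDegree, (P.coeff (j + 1) : ℂ) * (e ^ n * R (m + (j + 1))) =
          e ^ n * ∑ j ∈ Finset.range P.natDegree, (P.coeff (j + 1) : ℂ) * R (m + (j + 1)) := by
        rw [Finset.mul_sum]
        refine Finset.sum_congr rfl fun j _ => ?_
        ring
      push_cast
      have h6 : e * R m = -((-1) ^ T.card) *
          ∑ j ∈ Finset.range P.natDegree, (P.coeff (j + 1) : ℂ) * R (m + (j + 1)) := by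
        have h7 : ∑ j ∈ Finset.range P.natDegree, (P.coeff (j + 1) : ℂ) * R (m + (j + 1)) =
            -((-1) ^ T.card * e * R m) := eq_neg_of_add_eq_zero_left h1
        rw [h7]
        linear_combination (-(e * R m)) * h3
      calc e ^ (n + 1) * R m = e ^ n * (e * R m) := by ring
        _ = -((-1) ^ T.card) * (e ^ n *
            ∑ j ∈ Finset.range P.natDegree, (P.coeff (j + 1) : ℂ) * R (m + (j + 1))) := by
          rw [h6]
          ring
        _ = ϖ * (-((-1) ^ T.card) *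
            ∑ j ∈ Finset.range P.natDegree, (P.coeff (j + 1) : ℂ) * (w j : ℂ)) := by
          rw [← h5, h4]
          ring
  obtain ⟨w, hw⟩ := key M₀ 0 (by omega)
  refine ⟨w, (hmem _).1 w.2, ?_⟩
  rw [← he, ← hw, hRd]
  simp

end Pool.Agent.HS37.SP
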