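import Pool.Agent.HS37.SP.Stm

set_option autoImplicit false

open UpperHalfPlane ModularForm ModularFormClass MatrixGroups EisensteinSeries Complex
open scoped Manifold

namespace Pool.Agent.HS37.SP

noncomputable section

namespace EISP

theorem qParam_one (τ : ℂ) : Function.Periodic.qParam 1 τ = qq τ := by
  simp [Function.Periodic.qParam, qq]

theorem isWeak_form {F : Type*} [FunLike F ℍ ℂ] {k : ℤ} [ModularFormClass F 𝒮ℒ k] (f : F) :
    IsWeak k (fun τ => f τ) := by
  constructor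
  · intro γ τ
    have h := SlashInvariantForm.slash_action_eqn' (Γ := 𝒮ℒ) (k := k) f
      (γ := (γ : GL (Fin 2) ℝ)) ⟨γ, rfl⟩ τ
    simpa using h
  · exact (UpperHalfPlane.mdifferentiable_iff.mp (ModularFormClass.holo f))

theorem qexp_form {F : Type*} [FunLike F ℍ ℂ] {k : ℤ} [ModularFormClass F 𝒮ℒ k] (f : F) :
    QExp (fun τ => f τ) 0 (qExpansion 1 f) := by
  intro τ
  have h := ModularForm.hasSum_qExpansion (Γ := 𝒮ℒ) (k := k) (f := f) (h := 1) one_pos
    one_mem_strictPeriods_SL τ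
  simpa [qParam_one] using h

theorem eis_eq {k : ℕ} (hk : 3 ≤ k) (hk2 : Even k) : eis k = qExpansion 1 (E hk) := by
  ext n
  rw [E_qExpansion_coeff hk hk2, eis, PowerSeries.coeff_mk]

theorem eis4_eq : eis 4 = qExpansion 1 E₄ := eis_eq _ ⟨2, rfl⟩
theorem eis6_eq : eis 6 = qExpansion 1 E₆ := eis_eq _ ⟨3, rfl⟩

theorem one_dim {k : ℕ} (hk : 3 ≤ k) (hk2 : Even k) (hd : k / 12 = 0 ∨ (k ≡ 2 [MOD 12] ∧ k / 12 = 1))
    (f : ModularForm 𝒮ℒ k) (hf : (qExpansion 1 f).coeff 0 = 1) : qExpansion 1 f = eis k := by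
  have hr : Module.rank ℂ (ModularForm 𝒮ℒ k) = 1 := by
    rw [dimension_level_one k hk2]
    rcases hd with h | ⟨h1, h2⟩
    · rw [if_neg, h]
      · simp
      · intro h3
        have h4 : k < 12 := by omega
        have h5 : k % 12 = 2 % 12 := h3
        omega
    · rw [if_pos h1, h2]; simp
  obtain ⟨c, hc⟩ := (finrank_eq_one_iff_of_nonzero' (E hk) (E_ne_zero hk hk2)).mp
    (Module.rank_eq_one_iff_finrank_eq_one.mp hr) f
  have h1 : qExpansion 1 f = c • qExpansion 1 (E hk) := by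
    rw [← hc]
    exact ModularForm.qExpansion_smul one_pos one_mem_strictPeriods_SL c (E hk)
  have h2 : c = 1 := by
    rw [h1, PowerSeries.coeff_smul, E_qExpansion_coeff_zero hk hk2] at hf
    simpa using hf
  rw [h1, h2, one_smul, eis_eq hk hk2]

theorem coeff_zero_mul {a b : PowerSeries ℂ} (ha : a.coeff 0 = 1) (hb : b.coeff 0 = 1) :
    (a * b).coeff 0 = 1 := by
  simp only [PowerSeries.coeff_zero_eq_constantCoeff] at *
  rw [map_mul, ha, hb, one_mul]

theorem eis8 : eis 8 = eis 4 ^ 2 := by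
  have h0 : (qExpansion 1 (E₄.mul E₄)) = eis 4 * eis 4 := by
    rw [ModularForm.qExpansion_mul one_pos one_mem_strictPeriods_SL, eis4_eq]
  have h := one_dim (k := 8) (by norm_num) ⟨4, rfl⟩ (Or.inl rfl)
    (ModularForm.mcast (by norm_num) (E₄.mul E₄)) (by
      rw [ModularForm.qExpansion_mcast, h0, eis4_eq]
      exact coeff_zero_mul (E_qExpansion_coeff_zero _ ⟨2, rfl⟩) (E_qExpansion_coeff_zero _ ⟨2, rfl⟩))
  rw [ModularForm.qExpansion_mcast, h0] at h
  rw [← h, pow_two]

theorem eis10 : eis 10 = eis 4 * eis 6 := by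
  have h0 : (qExpansion 1 (E₄.mul E₆)) = eis 4 * eis 6 := by
    rw [ModularForm.qExpansion_mul one_pos one_mem_strictPeriods_SL, eis4_eq, eis6_eq]
  have h := one_dim (k := 10) (by norm_num) ⟨5, rfl⟩ (Or.inl rfl)
    (ModularForm.mcast (by norm_num) (E₄.mul E₆)) (by
      rw [ModularForm.qExpansion_mcast, h0, eis4_eq, eis6_eq]
      exact coeff_zero_mul (E_qExpansion_coeff_zero _ ⟨2, rfl⟩) (E_qExpansion_coeff_zero _ ⟨3, rfl⟩))
  rw [ModularForm.qExpansion_mcast, h0] at h
  rw [← h]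

theorem eis14 : eis 14 = eis 4 ^ 2 * eis 6 := by
  have h0 : (qExpansion 1 ((E₄.mul E₄).mul E₆)) = eis 4 * eis 4 * eis 6 := by
    rw [ModularForm.qExpansion_mul one_pos one_mem_strictPeriods_SL,
      ModularForm.qExpansion_mul one_pos one_mem_strictPeriods_SL, eis4_eq, eis6_eq]
  have h := one_dim (k := 14) (by norm_num) ⟨7, rfl⟩ (Or.inr ⟨rfl, rfl⟩)
    (ModularForm.mcast (by norm_num) ((E₄.mul E₄).mul E₆)) (by
      rw [ModularForm.qExpansion_mcast, h0, eis4_eq, eis6_eq]
      exact coeff_zero_mul (coeff_zero_mul (E_qExpansion_coeff_zero _ ⟨2, rfl⟩)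
        (E_qExpansion_coeff_zero _ ⟨2, rfl⟩)) (E_qExpansion_coeff_zero _ ⟨3, rfl⟩))
  rw [ModularForm.qExpansion_mcast, h0] at h
  rw [← h, pow_two]

/-- `∑ σ_k(n) q^n` -/
def sg (k : ℕ) : PowerSeries ℤ := PowerSeries.mk fun n => (ArithmeticFunction.sigma k n : ℤ)

/-- coefficients to `ℂ` -/
abbrev mc : PowerSeries ℤ →+* PowerSeries ℂ := PowerSeries.map (Int.castRingHom ℂ)

theorem isInt_map (c : PowerSeries ℤ) : IsInt (mc c) := fun n => ⟨PowerSeries.coeff n c, by simp [mc]⟩

theorem ofNat_eq_C (R : Type) [CommRing R] (n : ℕ) :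
    ((n : ℕ) : PowerSeries R) = PowerSeries.C (n : R) := by
  rw [map_natCast]

theorem eis4_map : eis 4 = mc (1 + ((240 : ℕ) : PowerSeries ℤ) * sg 3) := by
  ext n
  rw [PowerSeries.coeff_map, map_add, ofNat_eq_C, PowerSeries.coeff_C_mul, eis, PowerSeries.coeff_mk,
    PowerSeries.coeff_one, sg, PowerSeries.coeff_mk]
  by_cases hn : n = 0
  · subst hn
    simp
  · rw [if_neg hn, if_neg hn, show bernoulli 4 = -1 / 30 by decide +kernel]
    push_cast
    simp
    norm_num

theorem eis6_map : eis 6 = mc (1 - ((504 : ℕ) : PowerSeries ℤ) * sg 5) := by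
  ext n
  rw [PowerSeries.coeff_map, map_sub, ofNat_eq_C, PowerSeries.coeff_C_mul, eis, PowerSeries.coeff_mk,
    PowerSeries.coeff_one, sg, PowerSeries.coeff_mk]
  by_cases hn : n = 0
  · subst hn
    simp
  · rw [if_neg hn, if_neg hn, show bernoulli 6 = 1 / 42 by decide +kernel]
    push_cast
    simp
    norm_num

theorem dvd12 (d : ℤ) : (12 : ℤ) ∣ 5 * d ^ 3 + 7 * d ^ 5 := by
  have h : ∀ x : ZMod 12, 5 * x ^ 3 + 7 * x ^ 5 = 0 := by decide
  have h1 := h (d : ZMod 12)
  have h2 : ((5 * d ^ 3 + 7 * d ^ 5 : ℤ) : ZMod 12) = 0 := by push_cast; exact h1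
  exact (ZMod.intCast_zmod_eq_zero_iff_dvd _ 12).mp h2

theorem dvd12s (n : ℕ) : (12 : ℤ) ∣ 5 * (ArithmeticFunction.sigma 3 n : ℤ) +
    7 * (ArithmeticFunction.sigma 5 n : ℤ) := by
  rw [ArithmeticFunction.sigma_apply, ArithmeticFunction.sigma_apply]
  push_cast
  rw [Finset.mul_sum, Finset.mul_sum, ← Finset.sum_add_distrib]
  exact Finset.dvd_sum fun d _ => dvd12 d

theorem exists_H : ∃ H : PowerSeries ℤ,
    ((12 : ℕ) : PowerSeries ℤ) * H = ((5 : ℕ) : PowerSeries ℤ) * sg 3 +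
      ((7 : ℕ) : PowerSeries ℤ) * sg 5 := by
  choose h hh using dvd12s
  refine ⟨PowerSeries.mk h, ?_⟩
  ext n
  rw [map_add, ofNat_eq_C, ofNat_eq_C, ofNat_eq_C, PowerSeries.coeff_C_mul, PowerSeries.coeff_C_mul,
    PowerSeries.coeff_C_mul, sg, sg, PowerSeries.coeff_mk, PowerSeries.coeff_mk, PowerSeries.coeff_mk]
  exact_mod_cast (hh n).symm

theorem del_map : ∃ D : PowerSeries ℤ, del = mc D := by
  obtain ⟨H, hH⟩ := exists_H
  refine ⟨H + ((100 : ℕ) : PowerSeries ℤ) * sg 3 ^ 2 + ((8000 : ℕ) : PowerSeries ℤ) * sg 3 ^ 3 -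
    ((147 : ℕ) : PowerSeries ℤ) * sg 5 ^ 2, ?_⟩
  have h1 : (PowerSeries.C (1 / 1728 : ℂ)) * ((1728 : ℕ) : PowerSeries ℂ) = 1 := by
    rw [ofNat_eq_C, ← map_mul]
    norm_num
  have h2 := congrArg mc hH
  rw [del, eis4_map, eis6_map]
  simp only [map_mul, map_add, map_sub, map_one, map_natCast, map_pow] at h2 ⊢
  generalize mc (sg 3) = a at *
  generalize mc (sg 5) = b at *
  generalize mc H = h at *
  generalize PowerSeries.C (1 / 1728 : ℂ) = t at *
  have h3 : (1 + ((240 : ℕ) : PowerSeries ℂ) * a) ^ 3 - (1 - ((504 : ℕ) : PowerSeries ℂ) * b) ^ 2 =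
      ((1728 : ℕ) : PowerSeries ℂ) * (h + ((100 : ℕ) : PowerSeries ℂ) * a ^ 2 +
        ((8000 : ℕ) : PowerSeries ℂ) * a ^ 3 - ((147 : ℕ) : PowerSeries ℂ) * b ^ 2) := by
    push_cast at h2 ⊢
    linear_combination (-144) * h2
  rw [h3, ← mul_assoc, h1, one_mul]

theorem del_eq : qExpansion 1 discriminant = del := by
  have h1 : (discriminant : ℍ → ℂ) = ((1 / 1728 : ℂ) •
      ((ModularForm.mcast (by norm_num) (E₄.pow 3) : ModularForm 𝒮ℒ 12) -
        (ModularForm.mcast (by norm_num) (E₆.pow 2) : ModularForm 𝒮ℒ 12)) : ModularForm 𝒮ℒ 12) := by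
    funext z
    rw [discriminant_eq_E₄_cube_sub_E₆_sq]
    change _ = (1 / 1728 : ℂ) * (E₄ z ^ 3 - E₆ z ^ 2)
    ring
  rw [h1, FunLike.coe_smul, ModularForm.qExpansion_smul one_pos one_mem_strictPeriods_SL,
    FunLike.coe_sub, ModularForm.qExpansion_sub one_pos one_mem_strictPeriods_SL,
    ModularForm.qExpansion_mcast, ModularForm.qExpansion_mcast,
    ModularForm.qExpansion_pow one_pos one_mem_strictPeriods_SL,
    ModularForm.qExpansion_pow one_pos one_mem_strictPeriods_SL, ← eis4_eq, ← eis6_eq, del,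
    PowerSeries.smul_eq_C_mul]

theorem del0 : PowerSeries.coeff 0 del = 0 := by
  rw [← del_eq]
  exact CuspFormClass.qExpansion_coeff_zero CuspForm.discriminant one_pos one_mem_strictPeriods_SL

theorem del1 : PowerSeries.coeff 1 del = 1 := by
  rw [← del_eq]
  exact discriminant_qExpansion_coeff_one

/-- `q / Δ` -/
def fq (τ : ℍ) : ℂ := qq τ ^ 1 * (discriminant τ)⁻¹

theorem fq_per : Function.Periodic (fq ∘ ofComplex) 1 := by
  have hper := SlashInvariantFormClass.periodic_comp_ofComplex (Γ := 𝒮ℒ) (k := 12)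
    CuspForm.discriminant one_mem_strictPeriods_SL
  intro w
  have h1 := hper w
  simp only [Function.comp_apply, CuspForm.coe_discriminant, fq] at h1 ⊢
  rw [Complex.ofReal_one] at h1
  rw [h1]
  congr 2
  by_cases hw : 0 < w.im
  · have hw' : 0 < (w + 1).im := by simpa using hw
    rw [ofComplex_apply_of_im_pos hw, ofComplex_apply_of_im_pos hw']
    simp only [qq]
    rw [mul_add, Complex.exp_add]
    simp
  · have hw' : (w + 1).im ≤ 0 := by simpa using hw
    rw [ofComplex_apply_of_im_nonpos hw', ofComplex_apply_of_im_nonpos (not_lt.mp hw)]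

theorem fq_diff : DifferentiableOn ℂ (fq ∘ ofComplex) {z | 0 < z.im} := by
  have h1 := UpperHalfPlane.mdifferentiable_iff.mp CuspForm.discriminant.holo'
  have h2 : DifferentiableOn ℂ (fun z : ℂ => qq z ^ 1 * ((discriminant ∘ ofComplex) z)⁻¹)
      {z | 0 < z.im} := by
    refine DifferentiableOn.mul ?_ ?_
    · unfold qq
      fun_prop
    · exact DifferentiableOn.inv h1 fun z _ => discriminant_ne_zero _
  refine h2.congr fun z hz => ?_
  have hz' : 0 < z.im := hz
  simp only [Function.comp_apply, fq, ofComplex_apply_of_im_pos hz']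

theorem fq_bdd : IsBoundedAtImInfty fq := by
  have h1 := tendsto_atImInfty_tprod_one_sub_eta_q_pow
  have h2 : Filter.Tendsto fq atImInfty (nhds 1) := by
    have h3 := h1.inv₀ one_ne_zero
    rw [inv_one] at h3
    refine h3.congr fun τ => ?_
    have hq : Function.Periodic.qParam 1 (τ : ℂ) ≠ 0 := Complex.exp_ne_zero _
    rw [fq, discriminant_eq_q_prod, qParam_one, mul_inv, pow_one, ← mul_assoc,
      mul_inv_cancel₀ (by rw [← qParam_one]; exact hq), one_mul]
  exact h2.isBigO_one ℝ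

theorem mfq : MDiff fq := UpperHalfPlane.mdifferentiable_iff.mpr fq_diff

theorem qexp_fq : QExp (fun τ => (discriminant τ)⁻¹) 1 (qExpansion 1 fq) := by
  intro τ
  have h := UpperHalfPlane.hasSum_qExpansion (h := 1) one_pos (by simpa using fq_per) mfq fq_bdd τ
  simpa [qParam_one, fq] using h

theorem hasSum_X (x : ℂ) :
    HasSum (fun m : ℕ => PowerSeries.coeff m (PowerSeries.X : PowerSeries ℂ) • x ^ m) x := by
  have h2 := hasSum_ite_eq (1 : ℕ) x
  convert h2 using 2 with m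
  rw [PowerSeries.coeff_X]
  by_cases hm : m = 1
  · simp [hm]
  · simp [hm]

theorem uniq {f : ℍ → ℂ} (ha : AnalyticAt ℂ (cuspFunction 1 f) 0) {c c' : ℕ → ℂ}
    (h1 : ∀ τ : ℍ, HasSum (fun m ↦ c m • Function.Periodic.qParam 1 (τ : ℂ) ^ m) (f τ))
    (h2 : ∀ τ : ℍ, HasSum (fun m ↦ c' m • Function.Periodic.qParam 1 (τ : ℂ) ^ m) (f τ)) (m : ℕ) :
    c m = c' m := by
  have e1 := (UpperHalfPlane.hasFPowerSeriesOnBall_cuspFunction one_pos ha h1).hasFPowerSeriesAt
  have e2 := (UpperHalfPlane.hasFPowerSeriesOnBall_cuspFunction one_pos ha h2).hasFPowerSeriesAt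
  have e3 := congrArg (fun p => FormalMultilinearSeries.coeff p m) (e1.eq_formalMultilinearSeries e2)
  simpa using e3

theorem X_eq : PowerSeries.X = del * qExpansion 1 fq := by
  have ha1 : AnalyticAt ℂ (cuspFunction 1 discriminant) 0 :=
    ModularFormClass.analyticAt_cuspFunction_zero (Γ := 𝒮ℒ) (k := 12) CuspForm.discriminant one_pos
      one_mem_strictPeriods_SL
  have ha2 : AnalyticAt ℂ (cuspFunction 1 fq) 0 :=
    UpperHalfPlane.analyticAt_cuspFunction_zero one_pos (by simpa using fq_per) mfq fq_bdd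
  have ha3 : AnalyticAt ℂ (cuspFunction 1 (discriminant * fq)) 0 := by
    rw [UpperHalfPlane.cuspFunction_mul ha1.continuousAt ha2.continuousAt]
    exact ha1.mul ha2
  have hperΔ : Function.Periodic (discriminant ∘ ofComplex) ((1 : ℝ) : ℂ) :=
    SlashInvariantFormClass.periodic_comp_ofComplex (Γ := 𝒮ℒ) (k := 12)
      CuspForm.discriminant one_mem_strictPeriods_SL
  have hper : Function.Periodic ((discriminant * fq) ∘ ofComplex) ((1 : ℝ) : ℂ) := by
    intro w
    have e1 := hperΔ w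
    have e2 := fq_per w
    rw [Complex.ofReal_one] at e1 ⊢
    simp only [Function.comp_apply, Pi.mul_apply] at e1 e2 ⊢
    rw [e1, e2]
  have hbd : IsBoundedAtImInfty (discriminant * fq) :=
    Filter.BoundedAtFilter.mul (ModularFormClass.bdd_at_infty CuspForm.discriminant) fq_bdd
  have hmd : MDiff (discriminant * fq) := by
    refine UpperHalfPlane.mdifferentiable_iff.mpr ?_
    exact DifferentiableOn.mul (UpperHalfPlane.mdifferentiable_iff.mp CuspForm.discriminant.holo')
      fq_diff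
  rw [← del_eq, ← UpperHalfPlane.qExpansion_mul ha1 ha2]
  have hx : ∀ τ : ℍ, (discriminant * fq) τ = Function.Periodic.qParam 1 (τ : ℂ) := by
    intro τ
    rw [Pi.mul_apply, fq, qParam_one, pow_one, mul_left_comm, mul_inv_cancel₀ (discriminant_ne_zero τ),
      mul_one]
  ext n
  refine uniq ha3 (c := fun m => PowerSeries.coeff m (PowerSeries.X : PowerSeries ℂ))
    (c' := fun m => PowerSeries.coeff m (qExpansion 1 (discriminant * fq))) (fun τ => ?_)
    (fun τ => ?_) n
  · rw [hx τ]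
    exact hasSum_X _
  · exact UpperHalfPlane.hasSum_qExpansion one_pos hper hmd hbd τ

theorem inv_int {D : PowerSeries ℤ} {c : PowerSeries ℂ} (hD : del = mc D)
    (hX : PowerSeries.X = del * c) : IsInt c := by
  have h0 : PowerSeries.coeff 0 D = 0 := by
    have h := del0
    rw [hD, PowerSeries.coeff_map] at h
    simpa using h
  have h1 : PowerSeries.coeff 1 D = 1 := by
    have h := del1
    rw [hD, PowerSeries.coeff_map] at h
    simpa using h
  obtain ⟨D1, hD1⟩ : ∃ D1 : PowerSeries ℤ, D = PowerSeries.X * D1 := by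
    rw [PowerSeries.coeff_zero_eq_constantCoeff] at h0
    exact PowerSeries.X_dvd_iff.mpr h0
  have h2 : PowerSeries.constantCoeff D1 = ((1 : ℤˣ) : ℤ) := by
    rw [hD1] at h1
    rw [Units.val_one, ← PowerSeries.coeff_zero_eq_constantCoeff_apply]
    have h3 := PowerSeries.coeff_succ_X_mul 0 D1
    rw [zero_add] at h3
    rw [← h3, h1]
  have h3 := PowerSeries.mul_invOfUnit D1 1 h2
  have h4 : mc D1 * c = 1 := by
    have h5 : (PowerSeries.X : PowerSeries ℂ) * (mc D1 * c) = PowerSeries.X * 1 := by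
      rw [mul_one, ← mul_assoc]
      conv_rhs => rw [hX, hD, hD1, map_mul, PowerSeries.map_X]
    exact mul_left_cancel₀ PowerSeries.X_ne_zero h5
  have h5 : c = mc (D1.invOfUnit 1) := by
    have h6 := congrArg mc h3
    rw [map_mul, map_one] at h6
    calc c = (mc D1 * mc (D1.invOfUnit 1)) * c := by rw [h6, one_mul]
      _ = (mc D1 * c) * mc (D1.invOfUnit 1) := by ring
      _ = _ := by rw [h4, one_mul]
  rw [h5]
  exact isInt_map _

end EISP

open EISP in
theorem t_EIS : S_EIS := by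
  obtain ⟨D, hD⟩ := del_map
  refine ⟨⟨isWeak_form E₄, ?_, ?_⟩, ⟨isWeak_form E₆, ?_, ?_⟩, ⟨isWeak_form CuspForm.discriminant, ?_, ?_,
    del0, del1⟩, ⟨eis8, eis10, eis14⟩, ⟨qExpansion 1 fq, ⟨?_, ?_⟩, qexp_fq, inv_int hD X_eq, X_eq⟩⟩
  · rw [eis4_eq]; exact qexp_form E₄
  · rw [eis4_map]; exact isInt_map _
  · rw [eis6_eq]; exact qexp_form E₆
  · rw [eis6_map]; exact isInt_map _
  · rw [← del_eq]; exact qexp_form CuspForm.discriminant
  · rw [hD]; exact isInt_map _
  · intro γ τ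
    have h := (isWeak_form CuspForm.discriminant).slash γ τ
    simp only [CuspForm.coe_discriminant] at h ⊢
    rw [h, mul_inv, zpow_neg]
  · have h := (isWeak_form CuspForm.discriminant).holo
    exact DifferentiableOn.inv h fun z _ => discriminant_ne_zero _

end

end Pool.Agent.HS37.SP
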