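import Pool.Agent.HS37.SP.Val

/-!
# Project SP, piece NEG: weak forms of negative weight
-/

set_option autoImplicit false

open Matrix MatrixGroups UpperHalfPlane ModularForm ModularFormClass OnePoint

namespace Pool.Agent.HS37.SP

lemma isWeak_slash {κ : ℤ} {g : ℍ → ℂ} (hg : IsWeak κ g) (γ : SL(2, ℤ)) : g ∣[κ] γ = g := by
  ext z
  rw [ModularForm.SL_slash_apply, hg.slash]
  have h1 : UpperHalfPlane.denom (γ : GL (Fin 2) ℝ) z = ((γ 1 0 : ℂ) * z + (γ 1 1 : ℂ)) := by
    simp [UpperHalfPlane.denom]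
  have h2 := sl_den_ne γ z
  rw [h1, mul_right_comm, ← zpow_add₀ h2, add_neg_cancel, zpow_zero, one_mul]

lemma exists_form {κ : ℤ} {g : ℍ → ℂ} (hg : IsWeak κ g) (hb : IsBoundedAtImInfty g) :
    ∃ F : ModularForm 𝒮ℒ κ, (F : ℍ → ℂ) = g := by
  refine ⟨{ toFun := g, slash_action_eq' := ?_, holo' := ?_, bdd_at_cusps' := ?_ }, rfl⟩
  · rintro _ ⟨γ, rfl⟩
    exact isWeak_slash hg γ
  · exact UpperHalfPlane.mdifferentiable_iff.2 hg.holo
  · intro c hc
    rw [Subgroup.IsArithmetic.isCusp_iff_isCusp_SL2Z] at hc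
    rw [isBoundedAt_iff_forall_SL2Z hc]
    intro γ _
    rw [isWeak_slash hg γ]
    exact hb

lemma bounded_of_qexp {g : ℍ → ℂ} {c : PowerSeries ℂ} (hq : QExp g 0 c) :
    IsBoundedAtImInfty g := by
  refine isBoundedAtImInfty_of_hasSum_qExpansion (h := 1) (c := fun m => PowerSeries.coeff m c)
    one_pos fun τ => ?_
  have h := hq τ
  rw [pow_zero, one_mul] at h
  have h1 : Function.Periodic.qParam 1 (τ : ℂ) = qq τ := by
    rw [Function.Periodic.qParam, qq]
    congr 1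
    simp
  simpa only [smul_eq_mul, h1] using h

theorem t_NEG : S_NEG := by
  refine ⟨fun κ g c hκ hg hq τ => ?_, fun g M hg hM => ?_⟩
  · obtain ⟨F, hF⟩ := exists_form hg (bounded_of_qexp hq)
    have h := levelOne_neg_weight_eq_zero hκ F
    rw [← hF, h]
    rfl
  · have hb : IsBoundedAtImInfty g := by
      rw [UpperHalfPlane.isBoundedAtImInfty_iff]
      exact ⟨M, M, fun τ hτ => hM τ hτ⟩
    obtain ⟨F, hF⟩ := exists_form hg hb
    obtain ⟨c, hc⟩ := levelOne_weight_zero_const F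
    exact ⟨c, fun τ => by rw [← hF, hc]; rfl⟩

end Pool.Agent.HS37.SP
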