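import Pool.Agent.HS37.SP.Hq
import Pool.Agent.HS37.SP.Neg
import Pool.Agent.HS37.SP.Eis

/-!
# Project SP, piece PROD: the product formula
-/

set_option autoImplicit false

open UpperHalfPlane ModularForm ModularFormClass MatrixGroups EisensteinSeries Complex Filter
open scoped Topology

namespace Pool.Agent.HS37.SP

noncomputable section

namespace PRODP

/-- the product part of `Δ` -/
def pp (τ : ℍ) : ℂ := ∏' n : ℕ, (1 - eta_q n τ) ^ 24

theorem disc_eq (τ : ℍ) : discriminant τ = qq τ * pp τ := by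
  rw [discriminant_eq_q_prod, EISP.qParam_one]
  rfl

theorem pp_ne (τ : ℍ) : pp τ ≠ 0 := by
  intro h
  have h1 := discriminant_ne_zero τ
  rw [disc_eq, h, mul_zero] at h1
  exact h1 rfl

theorem pp_tendsto : Tendsto pp atImInfty (𝓝 1) := tendsto_atImInfty_tprod_one_sub_eta_q_pow

/-- `(a τ + b) / d` -/
def sg (t : ℕ × ℕ × ℕ) (τ : ℍ) : ℍ := ofComplex (((t.1 : ℂ) * τ + t.2.1) / t.2.2)

theorem sg_coe {N : ℕ} (hN : 0 < N) {t : ℕ × ℕ × ℕ} (ht : t ∈ reps N) (τ : ℍ) :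
    ((sg t τ : ℍ) : ℂ) = ((t.1 : ℂ) * τ + t.2.1) / t.2.2 := by
  rw [sg, ofComplex_apply_of_im_pos (mat_im_pos hN ht τ.im_pos)]

theorem sg_tendsto {N : ℕ} (hN : 0 < N) {t : ℕ × ℕ × ℕ} (ht : t ∈ reps N) :
    Tendsto (sg t) atImInfty atImInfty := by
  obtain ⟨ha, hd⟩ := reps_pos hN ht
  have h0 : (0 : ℝ) < (t.1 : ℝ) / t.2.2 := by positivity
  have h1 : ∀ τ : ℍ, (sg t τ).im = (t.1 : ℝ) / t.2.2 * τ.im := by
    intro τ
    rw [← UpperHalfPlane.coe_im, sg_coe hN ht]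
    have h2 : (((t.1 : ℂ) * τ + t.2.1) / t.2.2) = (((t.1 : ℝ) / t.2.2 : ℝ) : ℂ) * τ +
        (((t.2.1 : ℝ) / t.2.2 : ℝ) : ℂ) := by
      push_cast
      ring
    rw [h2, Complex.add_im, Complex.ofReal_im, add_zero, Complex.im_ofReal_mul]
    rfl
  rw [atImInfty, tendsto_comap_iff]
  have h3 : (UpperHalfPlane.im ∘ sg t) = fun τ : ℍ => (t.1 : ℝ) / t.2.2 * τ.im := funext h1
  rw [h3]
  exact Tendsto.const_mul_atTop h0 tendsto_comap

/-- the ratio -/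
def ff (N : ℕ) (τ : ℍ) : ℂ := ∏ t ∈ reps N, (val 12 discriminant (mat t) τ / discriminant τ)

theorem weakΔ : IsWeak 12 discriminant := EISP.isWeak_form CuspForm.discriminant

theorem ff_weak {N : ℕ} (hN : 0 < N) : IsWeak 0 (ff N) := by
  refine ⟨fun γ τ => ?_, ?_⟩
  · obtain ⟨ι, h1, h2, h3⟩ := exists_perm hN γ
    rw [zpow_zero, one_mul]
    unfold ff
    have hinj : Set.InjOn ι (reps N : Set (ℕ × ℕ × ℕ)) := fun t ht t' ht' he =>
      h2 t (by exact_mod_cast ht) t' (by exact_mod_cast ht') he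
    refine Finset.prod_nbij ι h1 hinj ?_ fun t ht => ?_
    · exact Finset.surjOn_of_injOn_of_card_le ι (fun t ht => by exact_mod_cast h1 t ht) hinj le_rfl
    · rw [val_perm weakΔ hN γ τ h1 h3 ht, weakΔ.slash]
      have hne : ((γ 1 0 : ℂ) * τ + (γ 1 1 : ℂ)) ≠ 0 := by
        have h := UpperHalfPlane.denom_ne_zero (γ : GL (Fin 2) ℝ) τ
        simpa [UpperHalfPlane.denom] using h
      exact mul_div_mul_left _ _ (zpow_ne_zero _ hne)
  · have h1 : DifferentiableOn ℂ (fun z : ℂ => ∏ t ∈ reps N,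
        (((fun τ => val 12 discriminant (mat t) τ) ∘ ofComplex) z /
          (discriminant ∘ ofComplex) z)) {z | 0 < z.im} := by
      refine DifferentiableOn.fun_finsetProd fun t ht => ?_
      exact (val_holo weakΔ hN ht).div weakΔ.holo fun z _ => discriminant_ne_zero _
    exact h1

theorem sum_swap (N : ℕ) : ∑ p ∈ N.divisorsAntidiagonal, (p.1 : ℂ) =
    ∑ p ∈ N.divisorsAntidiagonal, (p.2 : ℂ) := by
  rw [Nat.sum_divisorsAntidiagonal (f := fun x _ => (x : ℂ)),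
    Nat.sum_divisorsAntidiagonal' (f := fun _ y => (y : ℂ))]

theorem sum_exp {N : ℕ} (hN : 0 < N) (τ : ℂ) :
    ∑ t ∈ reps N, (((t.1 : ℂ) * τ + t.2.1) / t.2.2 - τ) =
      ∑ t ∈ reps N, ((t.2.1 : ℂ) / t.2.2) := by
  have h1 : ∑ t ∈ reps N, (((t.1 : ℂ) * τ + t.2.1) / t.2.2 - τ) =
      (∑ t ∈ reps N, ((t.2.1 : ℂ) / t.2.2)) + τ * ∑ t ∈ reps N, ((t.1 : ℂ) / t.2.2 - 1) := by
    rw [Finset.mul_sum, ← Finset.sum_add_distrib]
    refine Finset.sum_congr rfl fun t _ => ?_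
    ring
  have h2 : ∑ t ∈ reps N, ((t.1 : ℂ) / t.2.2 - 1) = 0 := by
    rw [sum_reps hN]
    simp only [Finset.sum_const, Finset.card_range, nsmul_eq_mul]
    have h3 : ∀ p ∈ N.divisorsAntidiagonal, (p.2 : ℂ) * ((p.1 : ℂ) / p.2 - 1) = p.1 - p.2 := by
      intro p hp
      have h4 : (p.2 : ℂ) ≠ 0 := by
        have h5 := Nat.mem_divisorsAntidiagonal.mp hp
        have h6 : p.2 ≠ 0 := by
          intro h7
          rw [h7, mul_zero] at h5
          omega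
        exact_mod_cast h6
      field_simp
    rw [Finset.sum_congr rfl h3, Finset.sum_sub_distrib, sum_swap, sub_self]
  rw [h1, h2, mul_zero, add_zero]

theorem two_sum {N : ℕ} (hN : 0 < N) :
    ∃ m : ℕ, 2 * ∑ t ∈ reps N, ((t.2.1 : ℂ) / t.2.2) = m := by
  refine ⟨∑ p ∈ N.divisorsAntidiagonal, (p.2 - 1), ?_⟩
  rw [sum_reps hN, Finset.mul_sum, Nat.cast_sum]
  refine Finset.sum_congr rfl fun p hp => ?_
  have h5 := Nat.mem_divisorsAntidiagonal.mp hp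
  have h6 : 0 < p.2 := Nat.pos_of_ne_zero (by
    intro h7
    rw [h7, mul_zero] at h5
    omega)
  have h7 : (p.2 : ℂ) ≠ 0 := by exact_mod_cast h6.ne'
  have h8 := Finset.sum_range_id_mul_two p.2
  have h9 : (∑ i ∈ Finset.range p.2, (i : ℂ)) * 2 = p.2 * ((p.2 - 1 : ℕ) : ℂ) := by
    have h10 := congrArg (Nat.cast : ℕ → ℂ) h8
    rw [Nat.cast_mul, Nat.cast_mul, Nat.cast_sum] at h10
    exact h10
  change 2 * ∑ b ∈ Finset.range p.2, (b : ℂ) / (p.2 : ℂ) = ((p.2 - 1 : ℕ) : ℂ)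
  rw [← Finset.sum_div, mul_div_assoc', div_eq_iff h7]
  linear_combination h9

/-- the sign -/
def eps (N : ℕ) : ℂ := cexp (2 * Real.pi * Complex.I * ∑ t ∈ reps N, ((t.2.1 : ℂ) / t.2.2))

theorem eps_sq {N : ℕ} (hN : 0 < N) : eps N = 1 ∨ eps N = -1 := by
  obtain ⟨m, hm⟩ := two_sum hN
  have h1 : eps N * eps N = 1 := by
    rw [eps, ← Complex.exp_add]
    have h2 : 2 * Real.pi * Complex.I * ∑ t ∈ reps N, ((t.2.1 : ℂ) / t.2.2) +
        2 * Real.pi * Complex.I * ∑ t ∈ reps N, ((t.2.1 : ℂ) / t.2.2) =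
        (m : ℂ) * (2 * Real.pi * Complex.I) := by
      rw [← hm]; ring
    rw [h2]
    exact Complex.exp_nat_mul_two_pi_mul_I m
  exact mul_self_eq_one_iff.mp h1

theorem ff_eq {N : ℕ} (hN : 0 < N) (τ : ℍ) :
    ff N τ = (eps N * ∏ t ∈ reps N, (t.2.2 : ℂ) ^ (-12 : ℤ)) *
      ∏ t ∈ reps N, (pp (sg t τ) / pp τ) := by
  have h1 : ∀ t ∈ reps N, val 12 discriminant (mat t) τ / discriminant τ =
      cexp (2 * Real.pi * Complex.I * (((t.1 : ℂ) * τ + t.2.1) / t.2.2 - τ)) *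
        (t.2.2 : ℂ) ^ (-12 : ℤ) * (pp (sg t τ) / pp τ) := by
    intro t ht
    have e0 := sg_coe hN ht τ
    have e1 : val 12 discriminant (mat t) τ = (t.2.2 : ℂ) ^ (-12 : ℤ) * discriminant (sg t τ) := by
      rw [val_mat]
      rfl
    rw [e1, disc_eq, disc_eq, e0]
    have e2 : qq (((t.1 : ℂ) * τ + t.2.1) / t.2.2) =
        cexp (2 * Real.pi * Complex.I * (((t.1 : ℂ) * τ + t.2.1) / t.2.2 - τ)) * qq τ := by
      rw [qq, qq, ← Complex.exp_add]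
      congr 1
      ring
    rw [e2]
    have e3 : qq τ ≠ 0 := Complex.exp_ne_zero _
    have e4 := pp_ne τ
    field_simp
  rw [ff, Finset.prod_congr rfl h1, Finset.prod_mul_distrib, Finset.prod_mul_distrib,
    ← Complex.exp_sum, ← Finset.mul_sum, sum_exp hN, eps]

theorem ff_tendsto {N : ℕ} (hN : 0 < N) :
    Tendsto (ff N) atImInfty (𝓝 (eps N * ∏ t ∈ reps N, (t.2.2 : ℂ) ^ (-12 : ℤ))) := by
  have h1 : Tendsto (fun τ => ∏ t ∈ reps N, (pp (sg t τ) / pp τ)) atImInfty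
      (𝓝 (∏ t ∈ reps N, (1 : ℂ))) := by
    refine tendsto_finsetProd _ fun t ht => ?_
    have h2 := (pp_tendsto.comp (sg_tendsto hN ht)).div pp_tendsto one_ne_zero
    rw [div_one] at h2
    exact h2
  rw [Finset.prod_const_one] at h1
  have h2 := h1.const_mul (eps N * ∏ t ∈ reps N, (t.2.2 : ℂ) ^ (-12 : ℤ))
  rw [mul_one] at h2
  exact h2.congr fun τ => (ff_eq hN τ).symm

theorem ff_const {N : ℕ} (hN : 0 < N) (τ : ℍ) :
    ff N τ = eps N * ∏ t ∈ reps N, (t.2.2 : ℂ) ^ (-12 : ℤ) := by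
  have ht := ff_tendsto hN
  obtain ⟨L, hL⟩ : ∃ L, L = eps N * ∏ t ∈ reps N, (t.2.2 : ℂ) ^ (-12 : ℤ) := ⟨_, rfl⟩
  rw [← hL] at ht ⊢
  have h1 : ∀ᶠ τ in atImInfty, ‖ff N τ‖ < ‖L‖ + 1 :=
    ht.norm.eventually_lt_const (lt_add_one _)
  obtain ⟨A, hA⟩ := (atImInfty_mem _).mp h1
  obtain ⟨z, hz⟩ := t_NEG.2 (ff N) (max A (‖L‖ + 1)) (ff_weak hN) fun τ hτ =>
    (le_of_lt (hA τ ((le_max_left _ _).trans hτ))).trans (le_max_right _ _)
  have h2 : Tendsto (ff N) atImInfty (𝓝 z) := by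
    rw [show ff N = fun _ => z from funext hz]
    exact tendsto_const_nhds
  rw [hz τ]
  exact tendsto_nhds_unique h2 ht

end PRODP

open PRODP in
theorem t_PROD : S_PROD := by
  intro N hN
  refine ⟨eps N, eps_sq hN, fun τ => ?_⟩
  have h1 : ∏ t ∈ reps N, ((N : ℂ) ^ 12 * val 12 discriminant (mat t) τ / discriminant τ) =
      (∏ t ∈ reps N, (N : ℂ) ^ 12) * ff N τ := by
    rw [ff, ← Finset.prod_mul_distrib]
    exact Finset.prod_congr rfl fun t _ => mul_div_assoc _ _ _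
  rw [h1, ff_const hN, mul_left_comm, ← Finset.prod_mul_distrib]
  congr 1
  have h2 : ∀ t ∈ reps N, (N : ℂ) ^ 12 * (t.2.2 : ℂ) ^ (-12 : ℤ) = (t.1 : ℂ) ^ 12 := by
    intro t ht
    obtain ⟨ha, hd⟩ := reps_pos hN ht
    have h3 := ((mem_reps hN).1 ht).1
    have h4 : (t.2.2 : ℂ) ≠ 0 := by exact_mod_cast hd.ne'
    rw [← h3, Nat.cast_mul, zpow_neg]
    have h5 : (t.2.2 : ℂ) ^ (12 : ℤ) = (t.2.2 : ℂ) ^ 12 := by norm_cast
    rw [h5, mul_pow, mul_assoc, mul_inv_cancel₀ (pow_ne_zero _ h4), mul_one]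
  rw [Finset.prod_congr rfl h2, prod_reps hN]
  simp only [Finset.prod_const, Finset.card_range]
  rw [Nat.prod_divisorsAntidiagonal (f := fun x y => ((x : ℂ) ^ 12) ^ y)]
  refine Finset.prod_congr rfl fun a _ => ?_
  rw [← pow_mul]

end

end Pool.Agent.HS37.SP
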