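import Pool.Agent.HS37.SP.Stm

/-!
# Project SP, piece VAL: the rules for the lattice functions
-/

set_option autoImplicit false

open Matrix MatrixGroups UpperHalfPlane

namespace Pool.Agent.HS37.SP

lemma vden_ne {A : Matrix (Fin 2) (Fin 2) ℤ} (hA : 0 < A.det) (τ : ℍ) :
    ((A 1 0 : ℂ) * τ + (A 1 1 : ℂ)) ≠ 0 := by
  intro h
  have him := congrArg Complex.im h
  have hre := congrArg Complex.re h
  simp at him hre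
  rcases him with h1 | h1
  · rw [h1] at hre
    simp at hre
    rw [Matrix.det_fin_two, h1, hre] at hA
    simp at hA
  · exact absurd h1 τ.im_pos.ne'

lemma vim_pos {A : Matrix (Fin 2) (Fin 2) ℤ} (hA : 0 < A.det) (τ : ℍ) :
    0 < (((A 0 0 : ℂ) * τ + (A 0 1 : ℂ)) / ((A 1 0 : ℂ) * τ + (A 1 1 : ℂ))).im := by
  have hv := vden_ne hA τ
  have h1 : (((A 0 0 : ℂ) * τ + (A 0 1 : ℂ)) / ((A 1 0 : ℂ) * τ + (A 1 1 : ℂ))).im =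
      (A.det : ℝ) * τ.im / Complex.normSq ((A 1 0 : ℂ) * τ + (A 1 1 : ℂ)) := by
    rw [Complex.div_im, Matrix.det_fin_two]
    simp
    ring
  rw [h1]
  have h2 : 0 < Complex.normSq ((A 1 0 : ℂ) * τ + (A 1 1 : ℂ)) := Complex.normSq_pos.2 hv
  have h3 : (0 : ℝ) < (A.det : ℝ) := by exact_mod_cast hA
  have := τ.im_pos
  positivity

lemma sl_coe (γ : SL(2, ℤ)) (z : ℍ) : ((γ • z : ℍ) : ℂ) =
    ((γ 0 0 : ℂ) * z + (γ 0 1 : ℂ)) / ((γ 1 0 : ℂ) * z + (γ 1 1 : ℂ)) := by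
  rw [coe_specialLinearGroup_apply]
  simp

lemma sl_den_ne (γ : SL(2, ℤ)) (z : ℍ) : ((γ 1 0 : ℂ) * z + (γ 1 1 : ℂ)) ≠ 0 :=
  vden_ne (A := (γ : Matrix (Fin 2) (Fin 2) ℤ)) (by rw [γ.det_coe]; exact one_pos) z

lemma slash_pair {κ : ℤ} {g : ℍ → ℂ} (hg : IsWeak κ g) (γ : SL(2, ℤ)) (z : ℍ) {u v : ℂ}
    (hv : v ≠ 0) (hz : (z : ℂ) = u / v) :
    ((γ 1 0 : ℂ) * u + (γ 1 1 : ℂ) * v) ^ (-κ) *
      g (ofComplex (((γ 0 0 : ℂ) * u + (γ 0 1 : ℂ) * v) / ((γ 1 0 : ℂ) * u + (γ 1 1 : ℂ) * v))) =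
    v ^ (-κ) * g z := by
  have hu : u = z * v := by rw [hz, div_mul_cancel₀ _ hv]
  have h1 : (γ 1 0 : ℂ) * u + (γ 1 1 : ℂ) * v = v * ((γ 1 0 : ℂ) * z + (γ 1 1 : ℂ)) := by
    rw [hu]
    ring
  have h2 : (γ 0 0 : ℂ) * u + (γ 0 1 : ℂ) * v = v * ((γ 0 0 : ℂ) * z + (γ 0 1 : ℂ)) := by
    rw [hu]
    ring
  have h3 : ((γ 0 0 : ℂ) * u + (γ 0 1 : ℂ) * v) / ((γ 1 0 : ℂ) * u + (γ 1 1 : ℂ) * v) =
      ((γ • z : ℍ) : ℂ) := by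
    rw [h1, h2, mul_div_mul_left _ _ hv, sl_coe]
  have h4 := sl_den_ne γ z
  have h5 : ((γ 1 0 : ℂ) * z + (γ 1 1 : ℂ)) ^ (-κ) * ((γ 1 0 : ℂ) * z + (γ 1 1 : ℂ)) ^ κ = 1 := by
    rw [← zpow_add₀ h4, neg_add_cancel, zpow_zero]
  rw [h3, ofComplex_apply, hg.slash, h1, mul_zpow]
  linear_combination (v ^ (-κ) * g z) * h5

theorem t_VAL : S_VAL := by
  intro κ g hg
  refine ⟨?_, ?_, ?_⟩
  · intro A γ τ hA
    obtain ⟨z, hz⟩ : ∃ z : ℍ, (z : ℂ) =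
        ((A 0 0 : ℂ) * τ + (A 0 1 : ℂ)) / ((A 1 0 : ℂ) * τ + (A 1 1 : ℂ)) :=
      ⟨⟨_, vim_pos hA τ⟩, rfl⟩
    have h := slash_pair hg γ z (vden_ne hA τ) hz
    unfold val
    rw [← hz, ofComplex_apply, ← h]
    have e1 : ((((γ : Matrix (Fin 2) (Fin 2) ℤ) * A) 1 0 : ℤ) : ℂ) * τ +
        ((((γ : Matrix (Fin 2) (Fin 2) ℤ) * A) 1 1 : ℤ) : ℂ) =
        (γ 1 0 : ℂ) * ((A 0 0 : ℂ) * τ + (A 0 1 : ℂ)) +
          (γ 1 1 : ℂ) * ((A 1 0 : ℂ) * τ + (A 1 1 : ℂ)) := by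
      rw [Matrix.mul_apply, Matrix.mul_apply, Fin.sum_univ_two, Fin.sum_univ_two]
      push_cast
      ring
    have e2 : ((((γ : Matrix (Fin 2) (Fin 2) ℤ) * A) 0 0 : ℤ) : ℂ) * τ +
        ((((γ : Matrix (Fin 2) (Fin 2) ℤ) * A) 0 1 : ℤ) : ℂ) =
        (γ 0 0 : ℂ) * ((A 0 0 : ℂ) * τ + (A 0 1 : ℂ)) +
          (γ 0 1 : ℂ) * ((A 1 0 : ℂ) * τ + (A 1 1 : ℂ)) := by
      rw [Matrix.mul_apply, Matrix.mul_apply, Fin.sum_univ_two, Fin.sum_univ_two]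
      push_cast
      ring
    rw [e1, e2]
  · intro A γ τ hA
    have hγ := sl_den_ne γ τ
    have e1 : (((A * (γ : Matrix (Fin 2) (Fin 2) ℤ)) 1 0 : ℤ) : ℂ) * τ +
        (((A * (γ : Matrix (Fin 2) (Fin 2) ℤ)) 1 1 : ℤ) : ℂ) =
        ((γ 1 0 : ℂ) * τ + (γ 1 1 : ℂ)) * ((A 1 0 : ℂ) * ((γ • τ : ℍ) : ℂ) + (A 1 1 : ℂ)) := by
      rw [Matrix.mul_apply, Matrix.mul_apply, Fin.sum_univ_two, Fin.sum_univ_two, sl_coe]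
      push_cast
      field_simp
      ring
    have e2 : (((A * (γ : Matrix (Fin 2) (Fin 2) ℤ)) 0 0 : ℤ) : ℂ) * τ +
        (((A * (γ : Matrix (Fin 2) (Fin 2) ℤ)) 0 1 : ℤ) : ℂ) =
        ((γ 1 0 : ℂ) * τ + (γ 1 1 : ℂ)) * ((A 0 0 : ℂ) * ((γ • τ : ℍ) : ℂ) + (A 0 1 : ℂ)) := by
      rw [Matrix.mul_apply, Matrix.mul_apply, Fin.sum_univ_two, Fin.sum_univ_two, sl_coe]
      push_cast
      field_simp
      ring
    unfold val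
    rw [e1, e2, mul_div_mul_left _ _ hγ, mul_zpow, ← mul_assoc, ← mul_assoc, ← zpow_add₀ hγ,
      add_neg_cancel, zpow_zero, one_mul]
  · intro A M τ π hA hM hπ h0 h1
    have e1 : (((A * M) 1 0 : ℤ) : ℂ) * τ + (((A * M) 1 1 : ℤ) : ℂ) =
        π * ((A 1 0 : ℂ) * τ + (A 1 1 : ℂ)) := by
      rw [Matrix.mul_apply, Matrix.mul_apply, Fin.sum_univ_two, Fin.sum_univ_two]
      push_cast
      linear_combination (A 1 0 : ℂ) * h0 + (A 1 1 : ℂ) * h1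
    have e2 : (((A * M) 0 0 : ℤ) : ℂ) * τ + (((A * M) 0 1 : ℤ) : ℂ) =
        π * ((A 0 0 : ℂ) * τ + (A 0 1 : ℂ)) := by
      rw [Matrix.mul_apply, Matrix.mul_apply, Fin.sum_univ_two, Fin.sum_univ_two]
      push_cast
      linear_combination (A 0 0 : ℂ) * h0 + (A 0 1 : ℂ) * h1
    unfold val
    rw [e1, e2, mul_div_mul_left _ _ hπ, mul_zpow, mul_assoc]

end Pool.Agent.HS37.SP
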