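import Pool.Agent.HS37.SP.Stm

set_option autoImplicit false

open UpperHalfPlane ModularForm ModularFormClass MatrixGroups EisensteinSeries Complex

namespace Pool.Agent.HS37.SP

noncomputable section

namespace QMULP

theorem qq_ne (τ : ℂ) : qq τ ≠ 0 := Complex.exp_ne_zero _

theorem qq_eq (τ : ℂ) : qq τ = Function.Periodic.qParam 1 τ := by
  simp [Function.Periodic.qParam, qq]

theorem exists_tau {z : ℂ} (h0 : z ≠ 0) (h1 : ‖z‖ < 1) : ∃ τ : ℍ, qq τ = z := by
  have h2 := Function.Periodic.im_invQParam_pos_of_norm_lt_one one_pos h1 h0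
  refine ⟨⟨Function.Periodic.invQParam 1 z, h2⟩, ?_⟩
  rw [qq_eq]
  exact Function.Periodic.qParam_right_inv one_ne_zero h0

theorem hs_congr {f g : ℕ → ℂ} {a b : ℂ} (h : HasSum f a) (hf : ∀ n, g n = f n) (hab : b = a) :
    HasSum g b := by
  have h1 : g = f := funext hf
  rw [h1, hab]
  exact h

theorem mul_exp (g h : ℍ → ℂ) (e e' : ℕ) (c c' : PowerSeries ℂ) (hg : QExp g e c)
    (hh : QExp h e' c') : QExp (fun τ => g τ * h τ) (e + e') (c * c') := by
  intro τ
  have h1 := hg τ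
  have h2 := hh τ
  have n1 := summable_norm_iff.mpr h1.summable
  have n2 := summable_norm_iff.mpr h2.summable
  have h3 := summable_norm_sum_mul_antidiagonal_of_summable_norm n1 n2
  have h4 := tsum_mul_tsum_eq_tsum_sum_antidiagonal_of_summable_norm n1 n2
  have h5 := (summable_norm_iff.mp h3).hasSum
  rw [← h4, h1.tsum_eq, h2.tsum_eq] at h5
  have h6 : qq τ ^ (e + e') * (g τ * h τ) = qq τ ^ e * g τ * (qq τ ^ e' * h τ) := by
    rw [pow_add]; ring
  change HasSum _ (qq τ ^ (e + e') * (g τ * h τ))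
  refine hs_congr h5 (fun n => ?_) h6
  rw [PowerSeries.coeff_mul, Finset.sum_mul]
  refine Finset.sum_congr rfl fun p hp => ?_
  have h7 := Finset.HasAntidiagonal.mem_antidiagonal.mp hp
  rw [← h7, pow_add]
  ring

theorem zero_of_sum (d : ℕ → ℂ) (h : ∀ z : ℂ, z ≠ 0 → ‖z‖ < 1 → HasSum (fun i => d i * z ^ i) 0) :
    ∀ n, d n = 0 := by
  intro n
  induction n using Nat.strong_induction_on with
  | _ n ih =>
    -- for small positive `r`, `d n = - r * ∑ d (n + 1 + i) r^i`
    have hs : Summable fun i : ℕ => ‖d (n + 1 + i)‖ * (1 / 2 : ℝ) ^ i := by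
      have h1 := (h (1 / 2 : ℂ) (by norm_num) (by norm_num)).summable
      have h2 := (summable_nat_add_iff (n + 1)).mpr h1
      have h3 := (summable_norm_iff.mpr h2).mul_left ((2 : ℝ) ^ (n + 1))
      refine h3.congr fun i => ?_
      rw [norm_mul, norm_pow, show i + (n + 1) = n + 1 + i by ring]
      have h4 : ‖(1 / 2 : ℂ)‖ = 1 / 2 := by norm_num
      rw [h4, pow_add (1 / 2 : ℝ) (n + 1) i]
      have h5 : (2 : ℝ) ^ (n + 1) * (1 / 2) ^ (n + 1) = 1 := by
        rw [← mul_pow]; norm_num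
      calc (2 : ℝ) ^ (n + 1) * (‖d (n + 1 + i)‖ * ((1 / 2) ^ (n + 1) * (1 / 2) ^ i))
          = ((2 : ℝ) ^ (n + 1) * (1 / 2) ^ (n + 1)) * (‖d (n + 1 + i)‖ * (1 / 2) ^ i) := by ring
        _ = _ := by rw [h5, one_mul]
    obtain ⟨M, hM⟩ : ∃ M, M = ∑' i : ℕ, ‖d (n + 1 + i)‖ * (1 / 2 : ℝ) ^ i := ⟨_, rfl⟩
    have hb : ∀ r : ℝ, 0 < r → r ≤ 1 / 2 → ‖d n‖ ≤ r * M := by
      intro r hr hr2
      have hrz : (r : ℂ) ≠ 0 := by exact_mod_cast hr.ne'
      have hrn : ‖(r : ℂ)‖ = r := by rw [Complex.norm_real, Real.norm_of_nonneg hr.le]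
      have h1 := h (r : ℂ) hrz (by rw [hrn]; linarith)
      have h2 := (hasSum_nat_add_iff' (n + 1)).mpr h1
      have h3 : ∑ i ∈ Finset.range (n + 1), d i * (r : ℂ) ^ i = d n * (r : ℂ) ^ n := by
        rw [Finset.sum_range_succ, Finset.sum_eq_zero, zero_add]
        intro i hi
        rw [ih i (Finset.mem_range.mp hi), zero_mul]
      rw [h3, zero_sub] at h2
      have h4 : HasSum (fun i : ℕ => d (n + 1 + i) * (r : ℂ) ^ i) (- d n * (r : ℂ)⁻¹) := by
        have h5 := h2.mul_left (((r : ℂ) ^ (n + 1))⁻¹)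
        refine hs_congr h5 (fun i => ?_) ?_
        · rw [show i + (n + 1) = n + 1 + i by ring, pow_add (r : ℂ) (n + 1) i]
          have h9 := pow_ne_zero (n + 1) hrz
          calc d (n + 1 + i) * (r : ℂ) ^ i
              = (((r : ℂ) ^ (n + 1))⁻¹ * (r : ℂ) ^ (n + 1)) * (d (n + 1 + i) * (r : ℂ) ^ i) := by
                rw [inv_mul_cancel₀ h9, one_mul]
            _ = _ := by ring
        · rw [pow_succ]
          have h9 := pow_ne_zero n hrz
          calc - d n * (r : ℂ)⁻¹ = (((r : ℂ) ^ n)⁻¹ * (r : ℂ) ^ n) * (- d n * (r : ℂ)⁻¹) := by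
                rw [inv_mul_cancel₀ h9, one_mul]
            _ = _ := by rw [mul_inv]; ring
      have h6 : ‖- d n * (r : ℂ)⁻¹‖ ≤ M := by
        rw [← h4.tsum_eq, hM]
        refine tsum_of_norm_bounded hs.hasSum fun i => ?_
        rw [norm_mul, norm_pow, hrn]
        exact mul_le_mul_of_nonneg_left (pow_le_pow_left₀ hr.le hr2 i) (norm_nonneg _)
      rw [norm_mul, norm_neg, norm_inv, hrn] at h6
      have h7 := mul_le_mul_of_nonneg_left h6 hr.le
      have h8 : r * (‖d n‖ * r⁻¹) = ‖d n‖ := by field_simp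
      rw [h8] at h7
      exact h7
    have hM0 : 0 ≤ M := by
      rw [hM]
      exact tsum_nonneg fun i => by positivity
    have h9 : ‖d n‖ ≤ 0 := by
      by_contra hc
      push Not at hc
      have h10 := hb (min (1 / 2) (‖d n‖ / (2 * (M + 1)))) (by positivity) (min_le_left _ _)
      have h11 : min (1 / 2) (‖d n‖ / (2 * (M + 1))) * M ≤ ‖d n‖ / (2 * (M + 1)) * M :=
        mul_le_mul_of_nonneg_right (min_le_right _ _) hM0
      have h12 : ‖d n‖ / (2 * (M + 1)) * M < ‖d n‖ := by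
        rw [div_mul_eq_mul_div, div_lt_iff₀ (by positivity)]
        nlinarith
      linarith
    exact norm_le_zero_iff.mp h9

theorem uniq_exp (g : ℍ → ℂ) (e : ℕ) (c c' : PowerSeries ℂ) (h1 : QExp g e c) (h2 : QExp g e c') :
    c = c' := by
  have h3 := zero_of_sum (fun i => PowerSeries.coeff i c - PowerSeries.coeff i c') (by
    intro z hz0 hz1
    obtain ⟨τ, hτ⟩ := exists_tau hz0 hz1
    have h4 := (h1 τ).sub (h2 τ)
    rw [sub_self, hτ] at h4
    refine hs_congr h4 (fun i => ?_) rfl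
    rw [sub_mul])
  ext n
  exact sub_eq_zero.mp (h3 n)

theorem shift_iff (i : ℕ) (c : PowerSeries ℂ) (q v : ℂ) (hq : q ≠ 0) :
    HasSum (fun n : ℕ => PowerSeries.coeff n c * q ^ n) v ↔
      HasSum (fun n : ℕ => PowerSeries.coeff n (PowerSeries.X ^ i * c) * q ^ n) (q ^ i * v) := by
  rw [← hasSum_nat_add_iff' (f := fun n : ℕ => PowerSeries.coeff n (PowerSeries.X ^ i * c) * q ^ n) i]
  have h1 : ∑ n ∈ Finset.range i, PowerSeries.coeff n (PowerSeries.X ^ i * c) * q ^ n = 0 := by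
    refine Finset.sum_eq_zero fun n hn => ?_
    rw [PowerSeries.coeff_X_pow_mul', if_neg (by have := Finset.mem_range.mp hn; omega), zero_mul]
  rw [h1, sub_zero]
  have h2 : (fun n : ℕ => PowerSeries.coeff (n + i) (PowerSeries.X ^ i * c) * q ^ (n + i)) =
      fun n : ℕ => q ^ i * (PowerSeries.coeff n c * q ^ n) := by
    funext n
    rw [PowerSeries.coeff_X_pow_mul', if_pos (by omega), Nat.add_sub_cancel, pow_add]
    ring
  rw [h2]
  constructor
  · intro h
    exact h.mul_left _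
  · intro h
    have h3 := h.mul_left ((q ^ i)⁻¹)
    have h4 := pow_ne_zero i hq
    have h5 : ∀ x : ℂ, (q ^ i)⁻¹ * (q ^ i * x) = x := fun x => by
      rw [← mul_assoc, inv_mul_cancel₀ h4, one_mul]
    simpa only [h5] using h3

end QMULP

open QMULP in
theorem t_QMUL : S_QMUL := by
  refine ⟨mul_exp, ?_, uniq_exp, ?_, ?_, ?_⟩
  · intro g h e c c' h1 h2 τ
    have h3 := (h1 τ).add (h2 τ)
    change HasSum _ (qq τ ^ e * (g τ + h τ))
    refine hs_congr h3 (fun i => ?_) (mul_add _ _ _)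
    rw [map_add, add_mul]
  · intro g e c z h1 τ
    have h3 := (h1 τ).mul_left z
    change HasSum _ (qq τ ^ e * (z * g τ))
    refine hs_congr h3 (fun i => ?_) (mul_left_comm _ _ _)
    rw [PowerSeries.coeff_C_mul, mul_assoc]
  · intro g e i c h1 τ
    have h2 := (shift_iff i c (qq τ) _ (qq_ne τ)).mp (h1 τ)
    rwa [← mul_assoc, ← pow_add, add_comm i e] at h2
  · intro g e i c h1 τ
    refine (shift_iff i c (qq τ) _ (qq_ne τ)).mpr ?_
    have h2 := h1 τ
    rwa [← mul_assoc, ← pow_add, add_comm i e]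

end

end Pool.Agent.HS37.SP
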