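import Pool.Agent.HS37.SP.Stm

/-!
# Project SP, pieces RED and MAP: representatives of integral matrices
-/

set_option autoImplicit false

open Matrix MatrixGroups

namespace Pool.Agent.HS37.SP

lemma mem_reps {N : ℕ} {t : ℕ × ℕ × ℕ} (hN : 0 < N) :
    t ∈ reps N ↔ t.1 * t.2.2 = N ∧ t.2.1 < t.2.2 := by
  unfold reps
  rw [Finset.mem_filter, Finset.mem_product, Finset.mem_product, Finset.mem_range,
    Finset.mem_range, Finset.mem_range]
  constructor
  · exact fun h => h.2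
  · intro h
    have h1 : 0 < t.1 := Nat.pos_of_ne_zero fun h0 => by rw [h0, zero_mul] at h; omega
    have h2 : 0 < t.2.2 := by omega
    have h3 : t.1 ≤ N := by rw [← h.1]; exact Nat.le_mul_of_pos_right _ h2
    have h4 : t.2.2 ≤ N := by rw [← h.1]; exact Nat.le_mul_of_pos_left _ h1
    exact ⟨⟨by omega, by omega, by omega⟩, h⟩

lemma reps_pos {N : ℕ} {t : ℕ × ℕ × ℕ} (hN : 0 < N) (ht : t ∈ reps N) :
    0 < t.1 ∧ 0 < t.2.2 := by
  rw [mem_reps hN] at ht
  exact ⟨Nat.pos_of_ne_zero fun h0 => by rw [h0, zero_mul] at ht; omega, by omega⟩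

lemma det_mat (t : ℕ × ℕ × ℕ) : (mat t).det = t.1 * t.2.2 := by
  rw [mat, Matrix.det_fin_two_of]
  ring

lemma det_mat_of_mem {N : ℕ} {t : ℕ × ℕ × ℕ} (hN : 0 < N) (ht : t ∈ reps N) :
    (mat t).det = N := by
  rw [det_mat, ← ((mem_reps hN).1 ht).1]
  push_cast
  ring

/-- uniqueness -/
lemma mat_unique {N : ℕ} (hN : 0 < N) {t t' : ℕ × ℕ × ℕ} (ht : t ∈ reps N) (ht' : t' ∈ reps N)
    (g : SL(2, ℤ)) (h : (g : Matrix (Fin 2) (Fin 2) ℤ) * mat t = mat t') : t = t' := by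
  obtain ⟨ha, hd⟩ := reps_pos hN ht
  obtain ⟨ha', hd'⟩ := reps_pos hN ht'
  have hb := ((mem_reps hN).1 ht).2
  have hb' := ((mem_reps hN).1 ht').2
  obtain ⟨a, b, d⟩ := t
  obtain ⟨a', b', d'⟩ := t'
  simp only at ha hd ha' hd' hb hb'
  have h00 := congrFun (congrFun h 0) 0
  have h01 := congrFun (congrFun h 0) 1
  have h10 := congrFun (congrFun h 1) 0
  have h11 := congrFun (congrFun h 1) 1
  have hdet := g.det_coe
  rw [Matrix.det_fin_two] at hdet
  simp [mat, Matrix.mul_apply, Fin.sum_univ_two] at h00 h01 h10 h11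
  have h10' : (g : Matrix (Fin 2) (Fin 2) ℤ) 1 0 = 0 := by
    rcases h10 with h | h
    · exact h
    · omega
  rw [h10', mul_zero, sub_zero] at hdet
  rw [h10', zero_mul, zero_add] at h11
  have hpos : 0 < (g : Matrix (Fin 2) (Fin 2) ℤ) 0 0 := by
    by_contra hneg
    have : (g : Matrix (Fin 2) (Fin 2) ℤ) 0 0 * (a : ℤ) ≤ 0 :=
      mul_nonpos_of_nonpos_of_nonneg (not_lt.1 hneg) (by positivity)
    omega
  have h1 : (g : Matrix (Fin 2) (Fin 2) ℤ) 0 0 = 1 := by
    rcases Int.isUnit_iff.1 (IsUnit.of_mul_eq_one _ hdet) with h | h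
    · exact h
    · omega
  rw [h1, one_mul] at hdet
  rw [hdet, one_mul] at h11
  rw [h1, one_mul] at h00 h01
  have hdd : d = d' := by exact_mod_cast h11
  have haa : a = a' := by exact_mod_cast h00
  subst hdd haa
  have h2 : (g : Matrix (Fin 2) (Fin 2) ℤ) 0 1 = 0 := by
    by_contra hne
    rcases lt_or_gt_of_ne hne with h | h
    · have : (g : Matrix (Fin 2) (Fin 2) ℤ) 0 1 * (d : ℤ) ≤ -1 * d :=
        mul_le_mul_of_nonneg_right (by omega) (by positivity)
      omega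
    · have : 1 * (d : ℤ) ≤ (g : Matrix (Fin 2) (Fin 2) ℤ) 0 1 * (d : ℤ) :=
        mul_le_mul_of_nonneg_right (by omega) (by positivity)
      omega
  rw [h2, zero_mul, add_zero] at h01
  have : b = b' := by exact_mod_cast h01
  rw [this]

theorem t_RED : S_RED := by
  intro N hN B hB
  have hex : ∃ t ∈ reps N, ∃ γ : SL(2, ℤ), B = (γ : Matrix (Fin 2) (Fin 2) ℤ) * mat t := by
    have key : ∀ A : FixedDetMatrix (Fin 2) ℤ (N : ℤ), ∃ t ∈ reps N, ∃ γ : SL(2, ℤ),
        A.1 = (γ : Matrix (Fin 2) (Fin 2) ℤ) * mat t := by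
      intro A
      refine FixedDetMatrices.induction_on (C := fun A => ∃ t ∈ reps N, ∃ γ : SL(2, ℤ),
        A.1 = (γ : Matrix (Fin 2) (Fin 2) ℤ) * mat t) (by exact_mod_cast hN.ne') ?_ ?_ ?_
      · intro A h10 h00 h01 h11
        have hdet := A.2
        rw [Matrix.det_fin_two, h10, mul_zero, sub_zero] at hdet
        have hpos : 0 < A.1 1 1 := by
          by_contra hneg
          have : A.1 0 0 * A.1 1 1 ≤ 0 := mul_nonpos_of_nonneg_of_nonpos h00.le (not_lt.1 hneg)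
          omega
        rw [abs_of_nonneg h01, abs_of_pos hpos] at h11
        refine ⟨((A.1 0 0).toNat, (A.1 0 1).toNat, (A.1 1 1).toNat), ?_, 1, ?_⟩
        · rw [mem_reps hN]
          refine ⟨?_, ?_⟩
          · zify
            rw [Int.toNat_of_nonneg h00.le, Int.toNat_of_nonneg hpos.le, hdet]
          · show (A.1 0 1).toNat < (A.1 1 1).toNat
            omega
        · rw [Matrix.SpecialLinearGroup.coe_one, one_mul]
          ext i j
          fin_cases i <;> fin_cases j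
          · simp [mat, Int.toNat_of_nonneg h00.le]
          · simp [mat, Int.toNat_of_nonneg h01]
          · simp [mat, h10]
          · simp [mat, Int.toNat_of_nonneg hpos.le]
      · rintro A ⟨t, ht, γ, hγ⟩
        refine ⟨t, ht, ModularGroup.S * γ, ?_⟩
        rw [FixedDetMatrices.smul_coe, hγ, Matrix.SpecialLinearGroup.coe_mul, mul_assoc]
      · rintro A ⟨t, ht, γ, hγ⟩
        refine ⟨t, ht, ModularGroup.T * γ, ?_⟩
        rw [FixedDetMatrices.smul_coe, hγ, Matrix.SpecialLinearGroup.coe_mul, mul_assoc]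
    exact key ⟨B, hB⟩
  obtain ⟨t, ht, γ, hγ⟩ := hex
  refine ⟨t, ⟨ht, γ, hγ⟩, ?_⟩
  rintro t' ⟨ht', γ', hγ'⟩
  refine mat_unique hN ht' ht (γ⁻¹ * γ') ?_
  rw [Matrix.SpecialLinearGroup.coe_mul, mul_assoc, ← hγ', hγ, ← mul_assoc,
    ← Matrix.SpecialLinearGroup.coe_mul, inv_mul_cancel, Matrix.SpecialLinearGroup.coe_one, one_mul]

theorem t_MAP : S_MAP := by
  intro N m hN hm M hM
  have hNm : 0 < N * m := Nat.mul_pos hN hm
  have h1 : ∀ t ∈ reps N, ∃ s ∈ reps (N * m), ∃ γ : SL(2, ℤ),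
      mat t * M = (γ : Matrix (Fin 2) (Fin 2) ℤ) * mat s := by
    intro t ht
    obtain ⟨s, ⟨hs, hγ⟩, -⟩ := t_RED (N * m) hNm (mat t * M) (by
      rw [Matrix.det_mul, det_mat_of_mem hN ht, hM]
      push_cast
      ring)
    exact ⟨s, hs, hγ⟩
  choose! ι hι γ hγ using h1
  refine ⟨ι, hι, ?_, fun t ht => ⟨γ t, hγ t ht⟩⟩
  intro t ht t' ht' he
  refine mat_unique hN ht ht' (γ t' * (γ t)⁻¹) ?_
  have h2 := hγ t ht
  have h3 := hγ t' ht'
  rw [← he] at h3
  have h4 : ((γ t' * (γ t)⁻¹ : SL(2, ℤ)) : Matrix (Fin 2) (Fin 2) ℤ) * mat t * M = mat t' * M := by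
    rw [mul_assoc, h2, h3, ← mul_assoc, ← Matrix.SpecialLinearGroup.coe_mul, mul_assoc,
      inv_mul_cancel, mul_one]
  have h5 : IsRegular M.det := by
    rw [hM]
    exact (isRegular_iff_ne_zero).2 (by exact_mod_cast hm.ne')
  have h6 : ∀ A B : Matrix (Fin 2) (Fin 2) ℤ, A * M = B * M → A = B := by
    intro A B hAB
    have h7 : A * (M * M.adjugate) = B * (M * M.adjugate) := by
      rw [← mul_assoc, hAB, mul_assoc]
    rw [Matrix.mul_adjugate, hM, Matrix.mul_smul, Matrix.mul_smul, mul_one, mul_one] at h7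
    ext i j
    have h8 := congrFun (congrFun h7 i) j
    simp only [Matrix.smul_apply, smul_eq_mul] at h8
    exact mul_left_cancel₀ (by exact_mod_cast hm.ne') h8
  exact h6 _ _ h4

end Pool.Agent.HS37.SP
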