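import Pool.Agent.HS37.SP.Val
import Pool.Agent.HS37.SP.Red

/-!
# Project SP, piece WEAK: the Hecke sum of a weak form is a weak form
-/

set_option autoImplicit false

open Matrix MatrixGroups UpperHalfPlane

namespace Pool.Agent.HS37.SP

/-- Invariance: a permutation of the representatives, for a product or sum. -/
lemma exists_perm {N : ℕ} (hN : 0 < N) (γ : SL(2, ℤ)) :
    ∃ ι : ℕ × ℕ × ℕ → ℕ × ℕ × ℕ, (∀ t ∈ reps N, ι t ∈ reps N) ∧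
      (∀ t ∈ reps N, ∀ t' ∈ reps N, ι t = ι t' → t = t') ∧
      ∀ t ∈ reps N, ∃ γ' : SL(2, ℤ), mat t * (γ : Matrix (Fin 2) (Fin 2) ℤ) =
        (γ' : Matrix (Fin 2) (Fin 2) ℤ) * mat (ι t) := by
  obtain ⟨ι, h1, h2, h3⟩ := t_MAP N 1 hN one_pos (γ : Matrix (Fin 2) (Fin 2) ℤ) (by
    rw [γ.det_coe]; norm_num)
  exact ⟨ι, by simpa only [mul_one] using h1, h2, h3⟩

lemma val_perm {κ : ℤ} {g : ℍ → ℂ} (hg : IsWeak κ g) {N : ℕ} (hN : 0 < N) (γ : SL(2, ℤ)) (τ : ℍ)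
    {ι : ℕ × ℕ × ℕ → ℕ × ℕ × ℕ} (h1 : ∀ t ∈ reps N, ι t ∈ reps N)
    (h3 : ∀ t ∈ reps N, ∃ γ' : SL(2, ℤ), mat t * (γ : Matrix (Fin 2) (Fin 2) ℤ) =
        (γ' : Matrix (Fin 2) (Fin 2) ℤ) * mat (ι t)) {t : ℕ × ℕ × ℕ} (ht : t ∈ reps N) :
    val κ g (mat t) (γ • τ) = ((γ 1 0 : ℂ) * τ + (γ 1 1 : ℂ)) ^ κ * val κ g (mat (ι t)) τ := by
  obtain ⟨v1, v2, -⟩ := t_VAL κ g hg
  have hp : ∀ t ∈ reps N, 0 < (mat t).det := fun t ht => by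
    rw [det_mat_of_mem hN ht]
    exact_mod_cast hN
  obtain ⟨γ', h4⟩ := h3 t ht
  rw [v2 _ _ _ (hp t ht), h4, v1 _ _ _ (hp _ (h1 t ht))]

lemma val_mat {κ : ℤ} (g : ℍ → ℂ) (t : ℕ × ℕ × ℕ) (τ : ℍ) :
    val κ g (mat t) τ = (t.2.2 : ℂ) ^ (-κ) *
      g (ofComplex (((t.1 : ℂ) * τ + t.2.1) / t.2.2)) := by
  unfold val
  have h1 : ((mat t 1 0 : ℤ) : ℂ) * τ + ((mat t 1 1 : ℤ) : ℂ) = t.2.2 := by simp [mat]
  have h2 : ((mat t 0 0 : ℤ) : ℂ) * τ + ((mat t 0 1 : ℤ) : ℂ) = (t.1 : ℂ) * τ + t.2.1 := by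
    simp [mat]
  rw [h1, h2]

lemma mat_im_pos {N : ℕ} (hN : 0 < N) {t : ℕ × ℕ × ℕ} (ht : t ∈ reps N) {z : ℂ} (hz : 0 < z.im) :
    0 < (((t.1 : ℂ) * z + t.2.1) / t.2.2).im := by
  obtain ⟨ha, hd⟩ := reps_pos hN ht
  have h1 : (((t.1 : ℂ) * z + t.2.1) / t.2.2) = (((t.1 : ℝ) / t.2.2 : ℝ) : ℂ) * z +
      (((t.2.1 : ℝ) / t.2.2 : ℝ) : ℂ) := by
    push_cast
    ring
  rw [h1, Complex.add_im, Complex.ofReal_im, add_zero, Complex.im_ofReal_mul]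
  have : (0 : ℝ) < (t.1 : ℝ) / t.2.2 := by positivity
  positivity

lemma val_holo {κ : ℤ} {g : ℍ → ℂ} (hg : IsWeak κ g) {N : ℕ} (hN : 0 < N) {t : ℕ × ℕ × ℕ}
    (ht : t ∈ reps N) :
    DifferentiableOn ℂ ((fun τ => val κ g (mat t) τ) ∘ ofComplex) {z | 0 < z.im} := by
  have h1 : DifferentiableOn ℂ (fun z : ℂ => (t.2.2 : ℂ) ^ (-κ) *
      (g ∘ ofComplex) (((t.1 : ℂ) * z + t.2.1) / t.2.2)) {z | 0 < z.im} := by
    refine DifferentiableOn.const_mul ?_ _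
    have h2 : DifferentiableOn ℂ (fun z : ℂ => ((t.1 : ℂ) * z + t.2.1) / t.2.2) {z | 0 < z.im} :=
      (((differentiable_id.const_mul _).add_const _).div_const _).differentiableOn
    exact DifferentiableOn.comp (g := g ∘ ofComplex) (t := {z | 0 < z.im}) hg.holo h2
      fun z hz => mat_im_pos hN ht hz
  refine h1.congr fun z hz => ?_
  show val κ g (mat t) (ofComplex z) = _
  rw [val_mat, ofComplex_apply_of_im_pos hz]
  rfl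

theorem t_WEAK : S_WEAK := by
  intro κ g N hN hg
  refine ⟨fun γ τ => ?_, ?_⟩
  · obtain ⟨ι, h1, h2, h3⟩ := exists_perm hN γ
    unfold hsum
    rw [Finset.mul_sum]
    have hinj : Set.InjOn ι (reps N : Set (ℕ × ℕ × ℕ)) := fun t ht t' ht' he =>
      h2 t (by exact_mod_cast ht) t' (by exact_mod_cast ht') he
    refine Finset.sum_nbij ι h1 hinj ?_ fun t ht => val_perm hg hN γ τ h1 h3 ht
    exact Finset.surjOn_of_injOn_of_card_le ι (fun t ht => by exact_mod_cast h1 t ht) hinj le_rfl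
  · have h1 : DifferentiableOn ℂ (fun z : ℂ => ∑ t ∈ reps N,
        ((fun τ => val κ g (mat t) τ) ∘ ofComplex) z) {z | 0 < z.im} :=
      DifferentiableOn.fun_sum fun t ht => val_holo hg hN ht
    exact h1

end Pool.Agent.HS37.SP
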