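import Pool.Agent.HS37.SP.Weak

/-!
# Project SP, piece HQ: the expansion of the Hecke sum
-/

set_option autoImplicit false

open Matrix MatrixGroups UpperHalfPlane

namespace Pool.Agent.HS37.SP

lemma prod_reps {M : Type*} [CommMonoid M] {N : ℕ} (hN : 0 < N) (φ : ℕ × ℕ × ℕ → M) :
    ∏ t ∈ reps N, φ t = ∏ p ∈ N.divisorsAntidiagonal, ∏ b ∈ Finset.range p.2, φ (p.1, b, p.2) := by
  rw [Finset.prod_sigma']
  refine Finset.prod_nbij' (fun t => ⟨(t.1, t.2.2), t.2.1⟩) (fun x => (x.1.1, x.2, x.1.2)) ?_ ?_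
    ?_ ?_ ?_
  · intro t ht
    rw [mem_reps hN] at ht
    simp only [Finset.mem_sigma, Nat.mem_divisorsAntidiagonal, Finset.mem_range]
    exact ⟨⟨ht.1, hN.ne'⟩, ht.2⟩
  · rintro ⟨⟨a, d⟩, b⟩ hx
    simp only [Finset.mem_sigma, Nat.mem_divisorsAntidiagonal, Finset.mem_range] at hx
    rw [mem_reps hN]
    exact ⟨hx.1.1, hx.2⟩
  · intro t _
    rfl
  · rintro ⟨⟨a, d⟩, b⟩ _
    rfl
  · intro t _
    rfl

lemma sum_reps {M : Type*} [AddCommMonoid M] {N : ℕ} (hN : 0 < N) (φ : ℕ × ℕ × ℕ → M) :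
    ∑ t ∈ reps N, φ t = ∑ p ∈ N.divisorsAntidiagonal, ∑ b ∈ Finset.range p.2, φ (p.1, b, p.2) := by
  rw [Finset.sum_sigma']
  refine Finset.sum_nbij' (fun t => ⟨(t.1, t.2.2), t.2.1⟩) (fun x => (x.1.1, x.2, x.1.2)) ?_ ?_
    ?_ ?_ ?_
  · intro t ht
    rw [mem_reps hN] at ht
    simp only [Finset.mem_sigma, Nat.mem_divisorsAntidiagonal, Finset.mem_range]
    exact ⟨⟨ht.1, hN.ne'⟩, ht.2⟩
  · rintro ⟨⟨a, d⟩, b⟩ hx
    simp only [Finset.mem_sigma, Nat.mem_divisorsAntidiagonal, Finset.mem_range] at hx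
    rw [mem_reps hN]
    exact ⟨hx.1.1, hx.2⟩
  · intro t _
    rfl
  · rintro ⟨⟨a, d⟩, b⟩ _
    rfl
  · intro t _
    rfl

lemma hs_congr {f g : ℕ → ℂ} {a b : ℂ} (h : HasSum f a) (hf : ∀ n, g n = f n) (hb : b = a) :
    HasSum g b := by
  rw [hb, show g = f from funext hf]
  exact h

lemma qq_ne (z : ℂ) : qq z ≠ 0 := Complex.exp_ne_zero _

/-- The sum of the `d`-th roots of unity to the power `m`. -/
lemma sum_root {d : ℕ} (hd : 0 < d) (m : ℤ) :
    ∑ b ∈ Finset.range d, Complex.exp (2 * Real.pi * Complex.I * (m * b / d)) =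
      if (d : ℤ) ∣ m then (d : ℂ) else 0 := by
  have hd' : (d : ℂ) ≠ 0 := by exact_mod_cast hd.ne'
  obtain ⟨ζ, hζ⟩ : ∃ ζ : ℂ, ζ = Complex.exp (2 * Real.pi * Complex.I * (m / d)) := ⟨_, rfl⟩
  have h1 : ∀ b : ℕ, Complex.exp (2 * Real.pi * Complex.I * (m * b / d)) = ζ ^ b := by
    intro b
    rw [hζ, ← Complex.exp_nat_mul]
    congr 1
    ring
  simp_rw [h1]
  split_ifs with h
  · obtain ⟨l, rfl⟩ := h
    have h2 : ζ = 1 := by
      rw [hζ, Complex.exp_eq_one_iff]
      refine ⟨l, ?_⟩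
      push_cast
      field_simp
    rw [h2]
    simp
  · have h2 : ζ ≠ 1 := by
      intro h2
      rw [hζ, Complex.exp_eq_one_iff] at h2
      obtain ⟨n, hn⟩ := h2
      have h3 : (2 * Real.pi * Complex.I : ℂ) ≠ 0 := Complex.two_pi_I_ne_zero
      have h4 : (m : ℂ) / d = n := by
        have : (2 * Real.pi * Complex.I : ℂ) * ((m : ℂ) / d) = (2 * Real.pi * Complex.I) * n := by
          rw [hn]
          ring
        exact mul_left_cancel₀ h3 this
      rw [div_eq_iff hd'] at h4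
      exact h ⟨n, by
        have : (m : ℂ) = ((n * d : ℤ) : ℂ) := by rw [h4]; push_cast; ring
        have h5 : m = n * d := by exact_mod_cast this
        rw [h5]; ring⟩
    rw [geom_sum_eq h2]
    have h3 : ζ ^ d = 1 := by
      rw [hζ, ← Complex.exp_nat_mul, Complex.exp_eq_one_iff]
      refine ⟨m, ?_⟩
      field_simp
    rw [h3, sub_self, zero_div]

/-- One divisor. -/
lemma hq_one {g : ℍ → ℂ} {e : ℕ} {c : PowerSeries ℂ} (hg : QExp g e c) {N a d : ℕ} (hN : 0 < N)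
    (had : a * d = N) (τ : ℍ) :
    HasSum (fun n : ℕ => (if (a : ℤ) ∣ (n : ℤ) - N * e ∧ 0 ≤ (e : ℤ) + d * (((n : ℤ) - N * e) / a)
        then (d : ℂ) * PowerSeries.coeff ((e : ℤ) + d * (((n : ℤ) - N * e) / a)).toNat c else 0) *
        qq τ ^ n)
      (qq τ ^ (N * e) * ∑ b ∈ Finset.range d, g (ofComplex (((a : ℂ) * τ + b) / d))) := by
  have ha : 0 < a := Nat.pos_of_ne_zero fun h => by rw [h, zero_mul] at had; omega
  have hd : 0 < d := Nat.pos_of_ne_zero fun h => by rw [h, mul_zero] at had; omega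
  have hd' : (d : ℂ) ≠ 0 := by exact_mod_cast hd.ne'
  have haN : a * 1 ≤ a * d := Nat.mul_le_mul_left a hd
  -- the exponent
  have hexp : ∀ i : ℕ, (d : ℤ) ∣ (i : ℤ) - e → 0 ≤ (N : ℤ) * e + a * (((i : ℤ) - e) / d) := by
    intro i hi
    obtain ⟨j, hj⟩ := hi
    rw [hj, Int.mul_ediv_cancel_left _ (by exact_mod_cast hd.ne')]
    have h1 : -(e : ℤ) ≤ d * j := by omega
    have h2 : -(e : ℤ) ≤ j := by
      rcases le_or_gt 0 j with h | h
      · omega
      · have h3 : (d : ℤ) * j ≤ 1 * j :=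
          mul_le_mul_of_nonpos_right (by exact_mod_cast hd) h.le
        omega
    have h3 : (a : ℤ) * (-(e : ℤ)) ≤ a * j := mul_le_mul_of_nonneg_left h2 (by positivity)
    have h4 : (a : ℤ) * e ≤ N * e := by
      have : (a : ℤ) ≤ N := by rw [← had]; exact_mod_cast (by simpa using haN)
      exact mul_le_mul_of_nonneg_right this (by positivity)
    linarith
  -- the sum over `i`
  have hqz : ∀ m : ℤ, qq τ ^ m = Complex.exp (2 * Real.pi * Complex.I * (m * τ)) := by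
    intro m
    rw [qq, ← Complex.exp_int_mul]
    congr 1
    ring
  have h1 : HasSum (fun i : ℕ => if (d : ℤ) ∣ (i : ℤ) - e then (d : ℂ) * PowerSeries.coeff i c *
        qq τ ^ ((N : ℤ) * e + a * (((i : ℤ) - e) / d)).toNat else 0)
      (qq τ ^ (N * e) * ∑ b ∈ Finset.range d, g (ofComplex (((a : ℂ) * τ + b) / d))) := by
    have h2 : ∀ b ∈ Finset.range d, HasSum (fun i : ℕ => PowerSeries.coeff i c *
        Complex.exp (2 * Real.pi * Complex.I * (((i : ℤ) - e : ℤ) * (((a : ℂ) * τ + b) / d))))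
        (g (ofComplex (((a : ℂ) * τ + b) / d))) := by
      intro b hb
      have him := mat_im_pos hN (t := (a, b, d)) ((mem_reps hN).2 ⟨had, Finset.mem_range.1 hb⟩)
        τ.im_pos
      simp only at him
      obtain ⟨z, hz⟩ : ∃ z : ℍ, (z : ℂ) = ((a : ℂ) * τ + b) / d := ⟨⟨_, him⟩, rfl⟩
      have h3 := (hg z).mul_left ((qq z ^ e)⁻¹)
      rw [← mul_assoc, inv_mul_cancel₀ (pow_ne_zero _ (qq_ne _)), one_mul] at h3
      rw [← hz, ofComplex_apply]
      refine hs_congr h3 (fun i => ?_) rfl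
      have h4 : Complex.exp (2 * Real.pi * Complex.I * (((i : ℤ) - e : ℤ) * (z : ℂ))) =
          qq z ^ i * (qq z ^ e)⁻¹ := by
        rw [qq, ← Complex.exp_nat_mul, ← Complex.exp_nat_mul, ← Complex.exp_neg,
          ← Complex.exp_add]
        congr 1
        push_cast
        ring
      rw [h4]
      ring
    have h3 := (hasSum_sum h2).mul_left (qq τ ^ (N * e))
    refine hs_congr h3 (fun i => ?_) rfl
    have h4 : ∀ b ∈ Finset.range d, PowerSeries.coeff i c *
        Complex.exp (2 * Real.pi * Complex.I * (((i : ℤ) - e : ℤ) * (((a : ℂ) * τ + b) / d))) =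
        PowerSeries.coeff i c * Complex.exp (2 * Real.pi * Complex.I *
          (((i : ℤ) - e : ℤ) * ((a : ℂ) * τ) / d)) *
          Complex.exp (2 * Real.pi * Complex.I * (((i : ℤ) - e : ℤ) * b / d)) := by
      intro b _
      have h9 : Complex.exp (2 * Real.pi * Complex.I *
          (((i : ℤ) - e : ℤ) * (((a : ℂ) * τ + b) / d))) =
          Complex.exp (2 * Real.pi * Complex.I * (((i : ℤ) - e : ℤ) * ((a : ℂ) * τ) / d)) *
          Complex.exp (2 * Real.pi * Complex.I * (((i : ℤ) - e : ℤ) * b / d)) := by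
        rw [← Complex.exp_add]
        congr 1
        ring
      rw [h9]
      ring
    rw [Finset.sum_congr rfl h4, ← Finset.mul_sum, sum_root hd]
    split_ifs with h5
    · have h6 := hexp i h5
      obtain ⟨j, hj⟩ := h5
      have h7 : ((i : ℤ) - e) / d = j := by
        rw [hj, Int.mul_ediv_cancel_left _ (by exact_mod_cast hd.ne')]
      rw [h7] at h6 ⊢
      have h8 : qq τ ^ ((N : ℤ) * e + a * j).toNat = qq τ ^ (N * e) *
          Complex.exp (2 * Real.pi * Complex.I * (((i : ℤ) - e : ℤ) * ((a : ℂ) * τ) / d)) := by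
        rw [← zpow_natCast (qq τ) ((N : ℤ) * e + a * j).toNat, Int.toNat_of_nonneg h6,
          ← zpow_natCast (qq τ) (N * e), hqz, hqz, ← Complex.exp_add]
        congr 1
        have h9 : (((i : ℤ) - e : ℤ) : ℂ) = d * j := by rw [hj]; push_cast; ring
        rw [h9]
        push_cast
        field_simp
      rw [h8]
      ring
    · rw [mul_zero, mul_zero]
  -- reindexing
  refine (hasSum_iff_hasSum_of_ne_zero_bij (g := fun i : ℕ => if (d : ℤ) ∣ (i : ℤ) - e then
    (d : ℂ) * PowerSeries.coeff i c * qq τ ^ ((N : ℤ) * e + a * (((i : ℤ) - e) / d)).toNat else 0)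
    (fun x => ((N : ℤ) * e + a * (((x.1 : ℤ) - e) / d)).toNat) ?_ ?_ ?_).2 h1
  · rintro ⟨x, hx⟩ ⟨y, hy⟩ hxy
    simp only [Function.mem_support, ne_eq, ite_eq_right_iff, Classical.not_imp] at hx hy hxy
    refine Subtype.ext (show x = y from ?_)
    have h2 := hexp x hx.1
    have h3 := hexp y hy.1
    have h4 : (N : ℤ) * e + a * (((x : ℤ) - e) / d) = (N : ℤ) * e + a * (((y : ℤ) - e) / d) := by
      have := congrArg (Nat.cast : ℕ → ℤ) hxy
      rwa [Int.toNat_of_nonneg h2, Int.toNat_of_nonneg h3] at this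
    have h5 : ((x : ℤ) - e) / d = ((y : ℤ) - e) / d :=
      mul_left_cancel₀ (by exact_mod_cast ha.ne') (add_left_cancel h4)
    obtain ⟨i, hi⟩ := hx.1
    obtain ⟨j, hj⟩ := hy.1
    rw [hi, hj, Int.mul_ediv_cancel_left _ (by exact_mod_cast hd.ne'),
      Int.mul_ediv_cancel_left _ (by exact_mod_cast hd.ne')] at h5
    rw [h5] at hi
    omega
  · intro n hn
    rw [Function.mem_support, ne_eq] at hn
    have h2 : (a : ℤ) ∣ (n : ℤ) - N * e ∧ 0 ≤ (e : ℤ) + d * (((n : ℤ) - N * e) / a) := by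
      by_contra h
      exact hn (by rw [if_neg h, zero_mul])
    rw [if_pos h2] at hn
    obtain ⟨⟨j, hj⟩, h3⟩ := h2
    have h4 : ((n : ℤ) - N * e) / a = j := by
      rw [hj, Int.mul_ediv_cancel_left _ (by exact_mod_cast ha.ne')]
    rw [h4] at h3 hn
    have h5 : (((e : ℤ) + d * j).toNat : ℤ) - e = d * j := by
      rw [Int.toNat_of_nonneg h3]
      ring
    have h6 : (d : ℤ) ∣ (((e : ℤ) + d * j).toNat : ℤ) - e := by
      rw [h5]
      exact dvd_mul_right _ _
    have h7 : ((N : ℤ) * e + a * (((((e : ℤ) + d * j).toNat : ℤ) - e) / d)).toNat = n := by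
      rw [h5, Int.mul_ediv_cancel_left _ (by exact_mod_cast hd.ne'), ← hj]
      simp
    refine ⟨⟨((e : ℤ) + d * j).toNat, ?_⟩, h7⟩
    rw [Function.mem_support, if_pos h6, h7]
    exact hn
  · rintro ⟨x, hx⟩
    simp only [Function.mem_support, ne_eq, ite_eq_right_iff, Classical.not_imp] at hx
    have h2 := hexp x hx.1
    show (if (a : ℤ) ∣ ((((N : ℤ) * e + a * (((x : ℤ) - e) / d)).toNat : ℕ) : ℤ) - N * e ∧
      0 ≤ (e : ℤ) + d * ((((((N : ℤ) * e + a * (((x : ℤ) - e) / d)).toNat : ℕ) : ℤ) - N * e) / a)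
        then (d : ℂ) * PowerSeries.coeff ((e : ℤ) + d *
          ((((((N : ℤ) * e + a * (((x : ℤ) - e) / d)).toNat : ℕ) : ℤ) - N * e) / a)).toNat c
        else 0) * qq τ ^ ((N : ℤ) * e + a * (((x : ℤ) - e) / d)).toNat = _
    obtain ⟨j, hj⟩ := hx.1
    have h7 : ((x : ℤ) - e) / d = j := by
      rw [hj, Int.mul_ediv_cancel_left _ (by exact_mod_cast hd.ne')]
    rw [h7] at h2 ⊢
    have h8 : ((((N : ℤ) * e + a * j).toNat : ℕ) : ℤ) - N * e = a * j := by
      rw [Int.toNat_of_nonneg h2]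
      ring
    have h9 : (e : ℤ) + d * j = x := by rw [← hj]; ring
    rw [h8, Int.mul_ediv_cancel_left _ (by exact_mod_cast ha.ne'), h9, if_pos
      ⟨dvd_mul_right _ _, by positivity⟩, if_pos hx.1, Int.toNat_natCast]

theorem t_HQ : S_HQ := by
  intro κ g e N c hN hg τ
  have h1 : hsum κ N g τ = ∑ p ∈ N.divisorsAntidiagonal, (p.2 : ℂ) ^ (-κ) *
      ∑ b ∈ Finset.range p.2, g (ofComplex (((p.1 : ℂ) * τ + b) / p.2)) := by
    unfold hsum
    rw [sum_reps hN]
    refine Finset.sum_congr rfl fun p _ => ?_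
    rw [Finset.mul_sum]
    exact Finset.sum_congr rfl fun b _ => val_mat _ _ _
  have h2 : HasSum (fun n : ℕ => ∑ p ∈ N.divisorsAntidiagonal, (p.2 : ℂ) ^ (-κ) *
      ((if (p.1 : ℤ) ∣ (n : ℤ) - N * e ∧ 0 ≤ (e : ℤ) + p.2 * (((n : ℤ) - N * e) / p.1)
        then (p.2 : ℂ) * PowerSeries.coeff ((e : ℤ) + p.2 * (((n : ℤ) - N * e) / p.1)).toNat c
          else 0) * qq τ ^ n))
      (∑ p ∈ N.divisorsAntidiagonal, (p.2 : ℂ) ^ (-κ) * (qq τ ^ (N * e) *
        ∑ b ∈ Finset.range p.2, g (ofComplex (((p.1 : ℂ) * τ + b) / p.2)))) :=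
    hasSum_sum fun p hp => (hq_one hg hN (Nat.mem_divisorsAntidiagonal.1 hp).1 τ).mul_left _
  refine hs_congr h2 (fun n => ?_) ?_
  · rw [PowerSeries.coeff_mk, Finset.sum_mul]
    refine Finset.sum_congr rfl fun p hp => ?_
    have hp2 : (p.2 : ℂ) ≠ 0 := by
      have := (Nat.mem_divisorsAntidiagonal.1 hp)
      intro h0
      have h3 : p.2 = 0 := by exact_mod_cast h0
      rw [h3, mul_zero] at this
      omega
    split_ifs with h
    · rw [sub_eq_add_neg, zpow_add₀ hp2, zpow_one]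
      ring
    · simp
  · rw [h1, Finset.mul_sum]
    refine Finset.sum_congr rfl fun p _ => ?_
    ring

end Pool.Agent.HS37.SP
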