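import Pool.Agent.HS37.SP.Prin
import Pool.Agent.HS37.SP.Hq

/-!
# Project SP: the power moments of the Hecke sums
-/

set_option autoImplicit false

open Matrix MatrixGroups UpperHalfPlane ModularForm ModularFormClass EisensteinSeries

namespace Pool.Agent.HS37.SP

lemma val_mul {κ κ' : ℤ} (g h : ℍ → ℂ) {A : Matrix (Fin 2) (Fin 2) ℤ} (hA : 0 < A.det) (τ : ℍ) :
    val (κ + κ') (fun z => g z * h z) A τ = val κ g A τ * val κ' h A τ := by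
  unfold val
  rw [neg_add, zpow_add₀ (vden_ne hA τ)]
  ring

lemma val_pow {κ : ℤ} (g : ℍ → ℂ) {A : Matrix (Fin 2) (Fin 2) ℤ} (τ : ℍ) (n : ℕ) :
    val (n * κ) (fun z => g z ^ n) A τ = val κ g A τ ^ n := by
  unfold val
  rw [mul_pow, ← zpow_natCast (_ ^ (-κ)) n, ← _root_.zpow_mul]
  congr 2
  ring

/-- The Hecke operator preserves integrality. -/
lemma hecke_int {κ : ℕ} (hκ : 1 ≤ κ) {g : ℍ → ℂ} {c : PowerSeries ℂ} (hg : IsWeak κ g)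
    (hq : QExp g 0 c) (hc : IsInt c) {N : ℕ} (hN : 0 < N) :
    IsWeak κ (fun τ => (N : ℂ) ^ (κ - 1) * hsum κ N g τ) ∧
      ∃ c' : PowerSeries ℂ, IsInt c' ∧ QExp (fun τ => (N : ℂ) ^ (κ - 1) * hsum κ N g τ) 0 c' := by
  refine ⟨(t_WEAK κ g N hN hg).smul _, ?_⟩
  have h1 := t_HQ κ g 0 N c hN hq
  rw [mul_zero] at h1
  refine ⟨_, ?_, t_QMUL.2.2.2.1 _ _ _ ((N : ℂ) ^ (κ - 1)) h1⟩
  intro n
  rw [PowerSeries.coeff_C_mul, PowerSeries.coeff_mk, Finset.mul_sum]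
  have h2 : ∀ p ∈ N.divisorsAntidiagonal, ∃ z : ℤ, (N : ℂ) ^ (κ - 1) *
      (if (p.1 : ℤ) ∣ (n : ℤ) - N * (0 : ℕ) ∧
          0 ≤ ((0 : ℕ) : ℤ) + p.2 * (((n : ℤ) - N * (0 : ℕ)) / p.1) then
        (p.2 : ℂ) ^ (1 - (κ : ℤ)) *
          PowerSeries.coeff (((0 : ℕ) : ℤ) + p.2 * (((n : ℤ) - N * (0 : ℕ)) / p.1)).toNat c
        else 0) = z := by
    intro p hp
    obtain ⟨hp1, -⟩ := Nat.mem_divisorsAntidiagonal.1 hp
    have hd : (p.2 : ℂ) ≠ 0 := by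
      intro h0
      have h3 : p.2 = 0 := by exact_mod_cast h0
      rw [h3, mul_zero] at hp1
      omega
    split_ifs with h
    · obtain ⟨z, hz⟩ := hc (((0 : ℕ) : ℤ) + p.2 * (((n : ℤ) - N * (0 : ℕ)) / p.1)).toNat
      refine ⟨(p.1 : ℤ) ^ (κ - 1) * z, ?_⟩
      rw [hz]
      have h4 : (N : ℂ) ^ (κ - 1) * (p.2 : ℂ) ^ (1 - (κ : ℤ)) = (p.1 : ℂ) ^ (κ - 1) := by
        have h5 : (1 - (κ : ℤ)) = -((κ - 1 : ℕ) : ℤ) := by omega
        rw [h5, _root_.zpow_neg, zpow_natCast, ← hp1]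
        push_cast
        rw [mul_pow]
        field_simp
      push_cast
      rw [← h4]
      ring
    · exact ⟨0, by simp⟩
  choose! z hz using h2
  refine ⟨∑ p ∈ N.divisorsAntidiagonal, z p, ?_⟩
  rw [Int.cast_sum]
  exact Finset.sum_congr rfl fun p hp => hz p hp

lemma frm_weak (r s m : ℕ) : IsWeak (12 * m + 4 * r + 6 * s) (frm r s m) ∧
    QExp (frm r s m) 0 (eis 4 ^ r * eis 6 ^ s * del ^ m) ∧
    IsInt (eis 4 ^ r * eis 6 ^ s * del ^ m) := by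
  obtain ⟨⟨w4, q4, i4⟩, ⟨w6, q6, i6⟩, ⟨w12, q12, i12, -, -⟩, -⟩ := t_EIS
  refine ⟨?_, ?_, isInt_iff.2 (mul_mem (mul_mem (pow_mem (isInt_iff.1 i4) _)
    (pow_mem (isInt_iff.1 i6) _)) (pow_mem (isInt_iff.1 i12) _))⟩
  · have h := (((w4.pow r).mul (w6.pow s)).mul (w12.pow m)).cast
      (κ' := 12 * m + 4 * r + 6 * s) (by push_cast; ring)
    have e : frm r s (m : ℤ) = fun τ => E₄ τ ^ r * E₆ τ ^ s * discriminant τ ^ m := by
      funext τ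
      rw [frm, zpow_natCast]
    rw [e]
    exact h
  · have h := t_QMUL.1 _ _ _ _ _ _ (t_QMUL.1 _ _ _ _ _ _ (q4.pow r) (q6.pow s)) (q12.pow m)
    have e : frm r s (m : ℤ) = fun τ => E₄ τ ^ r * E₆ τ ^ s * discriminant τ ^ m := by
      funext τ
      rw [frm, zpow_natCast]
    rw [e]
    exact h

/-- The basic integrality statement. -/
lemma hsum_int {k r s m : ℕ} (hA : Adm k r s) (hm : 1 ≤ 12 * m + 4 * r + 6 * s) {N : ℕ}
    (hN : 0 < N) {α : ℍ} {J : ℤ} (hJ : jinv α = J) :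
    ∃ z : ℤ, (N : ℂ) ^ (12 * m + 4 * r + 6 * s - 1) *
      hsum (12 * m + 4 * r + 6 * s) N (frm r s m) α = frm r s m α * z := by
  obtain ⟨hw, hq, hi⟩ := frm_weak r s m
  have hw' : IsWeak ((12 * m + 4 * r + 6 * s : ℕ) : ℤ) (frm r s m) := hw.cast (by push_cast; ring)
  obtain ⟨h1, c', h2, h3⟩ := hecke_int hm hw' hq hi hN
  obtain ⟨P, hP⟩ := t_PRIN k r s m _ c' hA (h1.cast (by push_cast; ring)) h3 h2
  refine ⟨P.eval J, ?_⟩
  have h4 := hP α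
  have h5 : (Polynomial.aeval (jinv α)) P = ((P.eval J : ℤ) : ℂ) := by
    rw [hJ]
    have h6 := Polynomial.aeval_algebraMap_apply ℂ J P
    simpa using h6
  rw [h5] at h4
  rw [← h4]
  rfl

end Pool.Agent.HS37.SP
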