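import Pool.Agent.HS37.SP.Neg
import Pool.Agent.HS37.SP.Eis
import Pool.Agent.HS37.SP.Qmul

/-!
# Project SP, piece PRIN: the `q`-expansion principle
-/

set_option autoImplicit false

open Matrix MatrixGroups UpperHalfPlane ModularForm ModularFormClass OnePoint EisensteinSeries

namespace Pool.Agent.HS37.SP

lemma IsWeak.mul {κ κ' : ℤ} {g h : ℍ → ℂ} (hg : IsWeak κ g) (hh : IsWeak κ' h) :
    IsWeak (κ + κ') (fun τ => g τ * h τ) := by
  refine ⟨fun γ τ => ?_, hg.holo.mul hh.holo⟩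
  rw [hg.slash, hh.slash, zpow_add₀ (sl_den_ne γ τ)]
  ring

lemma IsWeak.add {κ : ℤ} {g h : ℍ → ℂ} (hg : IsWeak κ g) (hh : IsWeak κ h) :
    IsWeak κ (fun τ => g τ + h τ) := by
  refine ⟨fun γ τ => ?_, hg.holo.add hh.holo⟩
  rw [hg.slash, hh.slash]
  ring

lemma IsWeak.smul {κ : ℤ} {g : ℍ → ℂ} (z : ℂ) (hg : IsWeak κ g) :
    IsWeak κ (fun τ => z * g τ) := by
  refine ⟨fun γ τ => ?_, hg.holo.const_mul z⟩
  rw [hg.slash]
  ring

lemma isWeak_one : IsWeak 0 (fun _ => 1) :=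
  ⟨fun γ τ => by rw [zpow_zero, one_mul], differentiableOn_const _⟩

lemma IsWeak.cast {κ κ' : ℤ} {g : ℍ → ℂ} (h : IsWeak κ g) (e : κ = κ') : IsWeak κ' g := e ▸ h

lemma IsWeak.pow {κ : ℤ} {g : ℍ → ℂ} (hg : IsWeak κ g) (n : ℕ) :
    IsWeak (n * κ) (fun τ => g τ ^ n) := by
  induction n with
  | zero =>
    have h := isWeak_one.cast (κ' := ((0 : ℕ) : ℤ) * κ) (by simp)
    simpa only [pow_zero] using h
  | succ n ih =>
    have h := (ih.mul hg).cast (κ' := ((n + 1 : ℕ) : ℤ) * κ) (by push_cast; ring)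
    simpa only [pow_succ] using h

/-- The power series with integral coefficients. -/
noncomputable def intR : Subring (PowerSeries ℂ) := (PowerSeries.map (Int.castRingHom ℂ)).range

lemma isInt_iff {c : PowerSeries ℂ} : IsInt c ↔ c ∈ intR := by
  constructor
  · intro h
    choose z hz using h
    refine ⟨PowerSeries.mk z, ?_⟩
    ext n
    rw [PowerSeries.coeff_map, PowerSeries.coeff_mk, hz n]
    rfl
  · rintro ⟨D, rfl⟩ n
    exact ⟨PowerSeries.coeff n D, by rw [PowerSeries.coeff_map]; rfl⟩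

lemma isInt_C (z : ℤ) : PowerSeries.C (z : ℂ) ∈ intR :=
  ⟨PowerSeries.C z, by rw [PowerSeries.map_C]; rfl⟩

lemma qexp_one : QExp (fun _ => 1) 0 1 := by
  intro τ
  rw [pow_zero, one_mul]
  have h := hasSum_single (f := fun i : ℕ => PowerSeries.coeff i (1 : PowerSeries ℂ) * qq τ ^ i) 0
    (fun i hi => by rw [PowerSeries.coeff_one, if_neg hi, zero_mul])
  simpa using h

lemma QExp.pow {g : ℍ → ℂ} {c : PowerSeries ℂ} (hg : QExp g 0 c) (n : ℕ) :
    QExp (fun τ => g τ ^ n) 0 (c ^ n) := by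
  induction n with
  | zero => simpa only [pow_zero] using qexp_one
  | succ n ih =>
    have h := t_QMUL.1 _ _ _ _ _ _ ih hg
    simpa only [pow_succ, add_zero] using h

lemma div_step {κ : ℤ} {h : ℍ → ℂ} {c : PowerSeries ℂ} (hh : IsWeak κ h) (hq : QExp h 0 c)
    (hc : IsInt c) (h0 : PowerSeries.coeff 0 c = 0) : ∃ c' : PowerSeries ℂ, IsInt c' ∧
      IsWeak (κ - 12) (fun τ => h τ * (discriminant τ)⁻¹) ∧
      QExp (fun τ => h τ * (discriminant τ)⁻¹) 0 c' := by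
  obtain ⟨ci, hw, hci, hint, hX⟩ := t_EIS.2.2.2.2
  have h1 : (PowerSeries.X : PowerSeries ℂ) ∣ c := by
    rw [PowerSeries.X_dvd_iff]
    simpa using h0
  obtain ⟨d, rfl⟩ := h1
  have hd : IsInt d := by
    intro n
    obtain ⟨z, hz⟩ := hc (n + 1)
    refine ⟨z, ?_⟩
    rw [← hz, PowerSeries.coeff_succ_X_mul]
  refine ⟨d * ci, isInt_iff.2 (mul_mem (isInt_iff.1 hd) (isInt_iff.1 hint)),
    (hh.mul hw).cast (by ring), ?_⟩
  have h2 := t_QMUL.1 _ _ _ _ _ _ hq hci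
  refine t_QMUL.2.2.2.2.2 _ 0 1 _ ?_
  rw [pow_one, ← mul_assoc]
  exact h2

lemma prin_aux (r s : ℕ) (hrs : 4 * r + 6 * s < 12) : ∀ (m : ℕ) (g : ℍ → ℂ) (c : PowerSeries ℂ),
    IsWeak (12 * m + 4 * r + 6 * s) g → QExp g 0 c → IsInt c →
    ∃ P : Polynomial ℤ, ∀ τ : ℍ, g τ = frm r s m τ * Polynomial.aeval (jinv τ) P := by
  obtain ⟨⟨w4, q4, i4⟩, ⟨w6, q6, i6⟩, ⟨w12, -, -⟩, -⟩ := t_EIS
  -- subtract the constant term
  have step : ∀ (m : ℕ) (g : ℍ → ℂ) (c : PowerSeries ℂ),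
      IsWeak (12 * m + 4 * r + 6 * s) g → QExp g 0 c → IsInt c →
      ∃ (z : ℤ) (c' : PowerSeries ℂ), IsInt c' ∧
        IsWeak (12 * m + 4 * r + 6 * s - 12)
          (fun τ => (g τ + (-z : ℂ) * (E₄ τ ^ (r + 3 * m) * E₆ τ ^ s)) * (discriminant τ)⁻¹) ∧
        QExp (fun τ => (g τ + (-z : ℂ) * (E₄ τ ^ (r + 3 * m) * E₆ τ ^ s)) *
          (discriminant τ)⁻¹) 0 c' := by
    intro m g c hg hq hc
    obtain ⟨z, hz⟩ := hc 0
    have hE : IsWeak (12 * m + 4 * r + 6 * s) (fun τ => E₄ τ ^ (r + 3 * m) * E₆ τ ^ s) :=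
      ((w4.pow _).mul (w6.pow _)).cast (by push_cast; ring)
    have hEq : QExp (fun τ => E₄ τ ^ (r + 3 * m) * E₆ τ ^ s) 0 (eis 4 ^ (r + 3 * m) * eis 6 ^ s) :=
      t_QMUL.1 _ _ _ _ _ _ (q4.pow _) (q6.pow _)
    have h1 := t_QMUL.2.1 _ _ _ _ _ hq (t_QMUL.2.2.2.1 _ _ _ (-z : ℂ) hEq)
    have hz' : PowerSeries.C (-z : ℂ) ∈ intR := by
      have := isInt_C (-z)
      push_cast at this
      exact this
    obtain ⟨c', hc', h2, h3⟩ := div_step (hg.add (hE.smul (-z : ℂ))) h1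
      (isInt_iff.2 (add_mem (isInt_iff.1 hc) (mul_mem hz' (mul_mem
        (pow_mem (isInt_iff.1 i4) _) (pow_mem (isInt_iff.1 i6) _))))) (by
        have e4 : PowerSeries.constantCoeff (eis 4) = 1 := by
          rw [← PowerSeries.coeff_zero_eq_constantCoeff_apply, eis, PowerSeries.coeff_mk,
            if_pos rfl]
        have e6 : PowerSeries.constantCoeff (eis 6) = 1 := by
          rw [← PowerSeries.coeff_zero_eq_constantCoeff_apply, eis, PowerSeries.coeff_mk,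
            if_pos rfl]
        rw [map_add, hz, PowerSeries.coeff_zero_eq_constantCoeff_apply, map_mul, map_mul, map_pow,
          map_pow, e4, e6]
        simp)
    exact ⟨z, c', hc', h2, h3⟩
  intro m
  induction m with
  | zero =>
    intro g c hg hq hc
    obtain ⟨z, c', -, h2, h3⟩ := step 0 g c hg hq hc
    have h4 := t_NEG.1 _ _ _ (by push_cast; omega) h2 h3
    refine ⟨Polynomial.C z, fun τ => ?_⟩
    have h5 := h4 τ
    have h6 : (discriminant τ)⁻¹ ≠ 0 := inv_ne_zero (discriminant_ne_zero τ)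
    have h7 := (mul_eq_zero.1 h5).resolve_right h6
    simp only [frm, Nat.cast_zero, zpow_zero, mul_zero, add_zero, mul_one] at h7 ⊢
    rw [Polynomial.aeval_C]
    simp only [algebraMap_int_eq, eq_intCast]
    linear_combination h7
  | succ m ih =>
    intro g c hg hq hc
    obtain ⟨z, c', hc', h2, h3⟩ := step (m + 1) g c hg hq hc
    obtain ⟨P, hP⟩ := ih _ c' (h2.cast (by push_cast; ring)) h3 hc'
    refine ⟨Polynomial.C z * Polynomial.X ^ (m + 1) + P, fun τ => ?_⟩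
    have h6 := discriminant_ne_zero τ
    have h5 := hP τ
    rw [← div_eq_mul_inv, div_eq_iff h6] at h5
    rw [map_add, map_mul, map_pow, Polynomial.aeval_X, Polynomial.aeval_C]
    simp only [algebraMap_int_eq, eq_intCast]
    have h7 : frm r s ((m + 1 : ℕ) : ℤ) τ = frm r s (m : ℤ) τ * discriminant τ := by
      unfold frm
      push_cast
      rw [zpow_add₀ h6, zpow_one]
      ring
    have h8 : frm r s ((m + 1 : ℕ) : ℤ) τ * jinv τ ^ (m + 1) =
        E₄ τ ^ (r + 3 * (m + 1)) * E₆ τ ^ s := by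
      unfold frm jinv
      rw [zpow_natCast, div_pow, ← pow_mul]
      field_simp
      ring
    rw [mul_add, h7] at *
    linear_combination h5 + (-(z : ℂ)) * h8
  
theorem t_PRIN : S_PRIN := by
  intro k r s m g c hA hg hq hc
  refine prin_aux r s ?_ m g c hg hq hc
  rcases hA with ⟨-, rfl, rfl⟩ | ⟨-, rfl, rfl⟩ | ⟨-, rfl, rfl⟩ | ⟨-, rfl, rfl⟩ | ⟨-, rfl, rfl⟩ <;>
    norm_num

end Pool.Agent.HS37.SP
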