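import Pool.Agent.HS37.SP.Stm

set_option autoImplicit false

open UpperHalfPlane ModularForm ModularFormClass MatrixGroups EisensteinSeries Complex

namespace Pool.Agent.HS37.SP

noncomputable section

namespace DUALP

theorem den_ne (γ : SL(2, ℤ)) (τ : ℍ) : ((γ 1 0 : ℂ) * τ + (γ 1 1 : ℂ)) ≠ 0 := by
  have h := UpperHalfPlane.denom_ne_zero (γ : GL (Fin 2) ℝ) τ
  simpa [UpperHalfPlane.denom] using h

theorem weak_mul {κ κ' : ℤ} {g h : ℍ → ℂ} (hg : IsWeak κ g) (hh : IsWeak κ' h) :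
    IsWeak (κ + κ') (fun τ => g τ * h τ) := by
  refine ⟨fun γ τ => ?_, ?_⟩
  · rw [hg.slash, hh.slash, zpow_add₀ (den_ne γ τ)]
    ring
  · exact hg.holo.mul hh.holo

theorem weak_add {κ : ℤ} {g h : ℍ → ℂ} (hg : IsWeak κ g) (hh : IsWeak κ h) :
    IsWeak κ (fun τ => g τ + h τ) := by
  refine ⟨fun γ τ => ?_, ?_⟩
  · rw [hg.slash, hh.slash]
    ring
  · exact hg.holo.add hh.holo

theorem weak_smul {κ : ℤ} {g : ℍ → ℂ} (z : ℂ) (hg : IsWeak κ g) :
    IsWeak κ (fun τ => z * g τ) := by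
  refine ⟨fun γ τ => ?_, ?_⟩
  · rw [hg.slash]
    ring
  · exact hg.holo.const_mul z

theorem weak_one : IsWeak 0 (fun _ => 1) := by
  refine ⟨fun γ τ => ?_, ?_⟩
  · rw [zpow_zero, one_mul]
  · exact differentiableOn_const 1

theorem weak_zero (κ : ℤ) : IsWeak κ (fun _ => 0) := by
  refine ⟨fun γ τ => ?_, ?_⟩
  · rw [mul_zero]
  · exact differentiableOn_const 0

theorem weak_pow {κ : ℤ} {g : ℍ → ℂ} (hg : IsWeak κ g) (n : ℕ) :
    IsWeak (n * κ) (fun τ => g τ ^ n) := by
  induction n with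
  | zero => simpa using weak_one
  | succ n ih =>
    have h := weak_mul ih hg
    have e1 : ((n : ℤ) * κ + κ) = ((n + 1 : ℕ) : ℤ) * κ := by push_cast; ring
    rw [e1] at h
    simpa only [pow_succ] using h

theorem weak_sum {κ : ℤ} {s : Finset ℕ} {g : ℕ → ℍ → ℂ} (hg : ∀ i ∈ s, IsWeak κ (g i)) :
    IsWeak κ (fun τ => ∑ i ∈ s, g i τ) := by
  classical
  induction s using Finset.induction_on with
  | empty => simpa using weak_zero κ
  | insert a s ha ih =>
    have h := weak_add (hg a (Finset.mem_insert_self _ _))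
      (ih fun i hi => hg i (Finset.mem_insert_of_mem hi))
    simpa only [Finset.sum_insert ha] using h

theorem exp_one : QExp (fun _ => 1) 0 1 := by
  intro τ
  rw [pow_zero, one_mul]
  have h := hasSum_ite_eq (0 : ℕ) (1 : ℂ)
  have e : (fun i : ℕ => PowerSeries.coeff i (1 : PowerSeries ℂ) * qq τ ^ i) =
      fun i => if i = 0 then (1 : ℂ) else 0 := by
    funext i
    rw [PowerSeries.coeff_one]
    by_cases hi : i = 0
    · simp [hi]
    · simp [hi]
  rw [e]
  exact h

theorem exp_zero (e : ℕ) : QExp (fun _ => 0) e 0 := by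
  intro τ
  rw [mul_zero]
  have e : (fun i : ℕ => PowerSeries.coeff i (0 : PowerSeries ℂ) * qq τ ^ i) = fun _ => (0 : ℂ) := by
    funext i
    rw [map_zero, zero_mul]
  rw [e]
  exact hasSum_zero

theorem exp_pow (h3 : S_QMUL) {g : ℍ → ℂ} {c : PowerSeries ℂ} (hg : QExp g 0 c) (n : ℕ) :
    QExp (fun τ => g τ ^ n) 0 (c ^ n) := by
  induction n with
  | zero => simpa using exp_one
  | succ n ih =>
    have h := h3.1 _ _ _ _ _ _ ih hg
    simpa only [pow_succ] using h

theorem exp_sum (h3 : S_QMUL) {s : Finset ℕ} {e : ℕ} {g : ℕ → ℍ → ℂ} {c : ℕ → PowerSeries ℂ}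
    (hg : ∀ i ∈ s, QExp (g i) e (c i)) : QExp (fun τ => ∑ i ∈ s, g i τ) e (∑ i ∈ s, c i) := by
  classical
  induction s using Finset.induction_on with
  | empty => simpa using exp_zero e
  | insert a s ha ih =>
    have h := h3.2.1 _ _ _ _ _ (hg a (Finset.mem_insert_self _ _))
      (ih fun i hi => hg i (Finset.mem_insert_of_mem hi))
    simpa only [Finset.sum_insert ha] using h

/-! ### The expansion of the Hecke sum -/

/-- the power series of HQ, for `e = 1` -/
def psi (κ : ℤ) (N : ℕ) (c : PowerSeries ℂ) : PowerSeries ℂ :=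
  PowerSeries.mk fun n : ℕ =>
    ∑ p ∈ N.divisorsAntidiagonal,
      if (p.1 : ℤ) ∣ (n : ℤ) - N * ((1 : ℕ) : ℤ) ∧
          0 ≤ (((1 : ℕ) : ℤ)) + p.2 * (((n : ℤ) - N * ((1 : ℕ) : ℤ)) / p.1) then
        (p.2 : ℂ) ^ (1 - κ) *
          PowerSeries.coeff ((((1 : ℕ) : ℤ)) + p.2 * (((n : ℤ) - N * ((1 : ℕ) : ℤ)) / p.1)).toNat c
      else 0

theorem term_cases {a d N n : ℕ} (h1 : a * d = N) (hN : 0 < N) (hn : n ≤ N)
    (hd : (a : ℤ) ∣ (n : ℤ) - N * ((1 : ℕ) : ℤ))
    (h0 : 0 ≤ (((1 : ℕ) : ℤ)) + d * (((n : ℤ) - N * ((1 : ℕ) : ℤ)) / a)) :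
    n = N ∨ (n = 0 ∧ d = 1) := by
  have ha : 0 < a := Nat.pos_of_ne_zero (by rintro rfl; omega)
  have hd' : 0 < d := Nat.pos_of_ne_zero (by rintro rfl; omega)
  obtain ⟨t, ht⟩ := hd
  rw [ht, Int.mul_ediv_cancel_left _ (by omega)] at h0
  have ht0 : t ≤ 0 := by
    by_contra hc
    push Not at hc
    have h2 : 0 < (a : ℤ) * t := mul_pos (by omega) hc
    push_cast at ht
    omega
  rcases ht0.lt_or_eq with h | h
  · right
    have h3 : (d : ℤ) * t ≤ -(d : ℤ) := by nlinarith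
    push_cast at h0
    have h4 : d = 1 := by omega
    refine ⟨?_, h4⟩
    subst h4
    have h5 : t = -1 := by
      rw [Nat.cast_one, one_mul] at h0
      omega
    subst h5
    push_cast at ht
    omega
  · left
    rw [h, mul_zero] at ht
    push_cast at ht
    omega

theorem psi_zero (κ : ℤ) {N : ℕ} (hN : 0 < N) (c : PowerSeries ℂ) :
    PowerSeries.coeff 0 (psi κ N c) = PowerSeries.coeff 0 c := by
  rw [psi, PowerSeries.coeff_mk, Finset.sum_eq_single (N, 1)]
  · have e1 : ((0 : ℕ) : ℤ) - (N : ℤ) * ((1 : ℕ) : ℤ) = (N : ℤ) * (-1) := by push_cast; ring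
    simp only [e1]
    rw [Int.mul_ediv_cancel_left _ (by omega)]
    norm_num
  · rintro ⟨a, d⟩ hp hne
    have h1 := (Nat.mem_divisorsAntidiagonal.mp hp).1
    rw [if_neg]
    rintro ⟨h2, h3⟩
    rcases term_cases h1 hN (Nat.zero_le _) h2 h3 with h4 | h4
    · omega
    · apply hne
      have h5 : d = 1 := h4.2
      subst h5
      simp only [mul_one] at h1
      rw [h1]
  · intro h
    exact absurd (Nat.mem_divisorsAntidiagonal.mpr ⟨by simp, hN.ne'⟩) h

theorem psi_mid (κ : ℤ) {N n : ℕ} (hn : 0 < n) (hnN : n < N) (c : PowerSeries ℂ) :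
    PowerSeries.coeff n (psi κ N c) = 0 := by
  rw [psi, PowerSeries.coeff_mk]
  refine Finset.sum_eq_zero ?_
  rintro ⟨a, d⟩ hp
  have h1 := (Nat.mem_divisorsAntidiagonal.mp hp).1
  rw [if_neg]
  rintro ⟨h2, h3⟩
  rcases term_cases h1 (by omega) hnN.le h2 h3 with h4 | h4
  · omega
  · omega

theorem psi_top (κ : ℤ) (N : ℕ) (c : PowerSeries ℂ) :
    PowerSeries.coeff N (psi κ N c) =
      (∑ p ∈ N.divisorsAntidiagonal, (p.2 : ℂ) ^ (1 - κ)) * PowerSeries.coeff 1 c := by
  rw [psi, PowerSeries.coeff_mk, Finset.sum_mul]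
  refine Finset.sum_congr rfl fun p hp => ?_
  have e1 : (N : ℤ) - (N : ℤ) * ((1 : ℕ) : ℤ) = 0 := by push_cast; ring
  simp only [e1, Int.zero_ediv, mul_zero, add_zero]
  rw [if_pos ⟨dvd_zero _, by norm_num⟩]
  rfl

theorem psi_top_eis {k N : ℕ} (hk : 1 ≤ k) (hN : 0 < N) (c : PowerSeries ℂ)
    (hc : PowerSeries.coeff 1 c = - PowerSeries.coeff 1 (eis k)) :
    PowerSeries.coeff N (psi (2 - k) N c) = - PowerSeries.coeff N (eis k) := by
  have h1 : (∑ p ∈ N.divisorsAntidiagonal, (p.2 : ℂ) ^ (1 - (2 - (k : ℤ)))) =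
      (ArithmeticFunction.sigma (k - 1) N : ℂ) := by
    rw [ArithmeticFunction.sigma_apply, Nat.sum_divisorsAntidiagonal'
      (f := fun _ y => (y : ℂ) ^ (1 - (2 - (k : ℤ))))]
    push_cast
    refine Finset.sum_congr rfl fun d _ => ?_
    have e : (1 - (2 - (k : ℤ))) = ((k - 1 : ℕ) : ℤ) := by omega
    rw [e, zpow_natCast]
  rw [psi_top, hc, h1, eis, PowerSeries.coeff_mk, PowerSeries.coeff_mk, if_neg one_ne_zero,
    if_neg hN.ne']
  simp only [ArithmeticFunction.sigma_one, Nat.cast_one, mul_one]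
  ring

theorem psi_dvd {k N : ℕ} (hk : 1 ≤ k) (hN : 0 < N) (c : PowerSeries ℂ)
    (hc0 : PowerSeries.coeff 0 c = 1)
    (hc : PowerSeries.coeff 1 c = - PowerSeries.coeff 1 (eis k)) :
    PowerSeries.X ^ (N + 1) ∣ psi (2 - k) N c -
      (1 - PowerSeries.C (PowerSeries.coeff N (eis k)) * PowerSeries.X ^ N) := by
  rw [PowerSeries.X_pow_dvd_iff]
  intro m hm
  rw [map_sub, map_sub, PowerSeries.coeff_one, PowerSeries.coeff_C_mul, PowerSeries.coeff_X_pow]
  rcases Nat.eq_zero_or_pos m with h0 | h0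
  · subst h0
    rw [psi_zero _ hN, hc0, if_pos rfl, if_neg (by omega)]
    ring
  · rcases (Nat.lt_succ_iff.mp hm).lt_or_eq with h1 | h1
    · rw [psi_mid _ h0 h1, if_neg (by omega), if_neg (by omega)]
      ring
    · subst h1
      rw [psi_top_eis hk hN c hc, if_neg (by omega), if_pos rfl]
      ring

theorem psi_dvd' {k N : ℕ} (hk : 1 ≤ k) (hN : 0 < N) (c : PowerSeries ℂ)
    (hc0 : PowerSeries.coeff 0 c = 1)
    (hc : PowerSeries.coeff 1 c = - PowerSeries.coeff 1 (eis k)) :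
    PowerSeries.X ^ N ∣ psi (2 - k) N c - 1 := by
  have h1 := psi_dvd hk hN c hc0 hc
  have h2 : psi (2 - k) N c - 1 = (psi (2 - k) N c -
      (1 - PowerSeries.C (PowerSeries.coeff N (eis k)) * PowerSeries.X ^ N)) -
      PowerSeries.C (PowerSeries.coeff N (eis k)) * PowerSeries.X ^ N := by ring
  rw [h2]
  exact dvd_sub ((pow_dvd_pow _ (Nat.le_succ N)).trans h1) (Dvd.intro_left _ rfl)

/-! ### The first coefficients -/

theorem eis_zero (k : ℕ) : PowerSeries.coeff 0 (eis k) = 1 := by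
  rw [eis, PowerSeries.coeff_mk, if_pos rfl]

theorem eis4_one : PowerSeries.coeff 1 (eis 4) = 240 := by
  rw [eis, PowerSeries.coeff_mk, if_neg one_ne_zero, show bernoulli 4 = -1 / 30 by decide +kernel]
  simp
  norm_num

theorem eis6_one : PowerSeries.coeff 1 (eis 6) = -504 := by
  rw [eis, PowerSeries.coeff_mk, if_neg one_ne_zero, show bernoulli 6 = 1 / 42 by decide +kernel]
  simp
  norm_num

theorem eis4_two : PowerSeries.coeff 2 (eis 4) = 2160 := by
  rw [eis, PowerSeries.coeff_mk, if_neg two_ne_zero, show bernoulli 4 = -1 / 30 by decide +kernel,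
    show ArithmeticFunction.sigma (4 - 1) 2 = 9 by decide +kernel]
  push_cast
  norm_num

theorem eis6_two : PowerSeries.coeff 2 (eis 6) = -16632 := by
  rw [eis, PowerSeries.coeff_mk, if_neg two_ne_zero, show bernoulli 6 = 1 / 42 by decide +kernel,
    show ArithmeticFunction.sigma (6 - 1) 2 = 33 by decide +kernel]
  push_cast
  norm_num

theorem c0_mul (a b : PowerSeries ℂ) : PowerSeries.coeff 0 (a * b) =
    PowerSeries.coeff 0 a * PowerSeries.coeff 0 b := by
  simp [PowerSeries.coeff_mul, Finset.Nat.antidiagonal_succ]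

theorem c1_mul (a b : PowerSeries ℂ) : PowerSeries.coeff 1 (a * b) =
    PowerSeries.coeff 0 a * PowerSeries.coeff 1 b + PowerSeries.coeff 1 a * PowerSeries.coeff 0 b := by
  simp [PowerSeries.coeff_mul, Finset.Nat.antidiagonal_succ]

theorem c2_mul (a b : PowerSeries ℂ) : PowerSeries.coeff 2 (a * b) =
    PowerSeries.coeff 0 a * PowerSeries.coeff 2 b + PowerSeries.coeff 1 a * PowerSeries.coeff 1 b +
      PowerSeries.coeff 2 a * PowerSeries.coeff 0 b := by
  simp [PowerSeries.coeff_mul, Finset.Nat.antidiagonal_succ]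
  ring

theorem c0_one : PowerSeries.coeff 0 (1 : PowerSeries ℂ) = 1 := by simp
theorem c1_one : PowerSeries.coeff 1 (1 : PowerSeries ℂ) = 0 := by simp [PowerSeries.coeff_one]

theorem del_two : PowerSeries.coeff 2 del = -24 := by
  rw [del, PowerSeries.coeff_C_mul, map_sub, pow_succ (eis 4) 2, pow_two, pow_two]
  simp only [c2_mul, c1_mul, c0_mul, eis_zero, eis4_one, eis4_two, eis6_one, eis6_two]
  norm_num

theorem c_zero {c : PowerSeries ℂ} (hd0 : PowerSeries.coeff 0 del = 0)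
    (hd1 : PowerSeries.coeff 1 del = 1) (hc : PowerSeries.X = del * c) :
    PowerSeries.coeff 0 c = 1 := by
  have h := congrArg (PowerSeries.coeff 1) hc
  rw [PowerSeries.coeff_one_X, c1_mul, hd0, hd1] at h
  rw [zero_mul, zero_add, one_mul] at h
  exact h.symm

theorem c_one {c : PowerSeries ℂ} (hd0 : PowerSeries.coeff 0 del = 0)
    (hd1 : PowerSeries.coeff 1 del = 1) (hc : PowerSeries.X = del * c) :
    PowerSeries.coeff 1 c = 24 := by
  have h := congrArg (PowerSeries.coeff 2) hc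
  rw [c2_mul, hd0, hd1, del_two, c_zero hd0 hd1 hc, PowerSeries.coeff_X, if_neg (by norm_num)] at h
  linear_combination -h

theorem phi_zero {k r s : ℕ} (hA : Adm k r s) {c : PowerSeries ℂ}
    (hc : PowerSeries.coeff 0 c = 1) :
    PowerSeries.coeff 0 (eis 4 ^ r * eis 6 ^ s * c) = 1 := by
  rcases hA with ⟨rfl, rfl, rfl⟩ | ⟨rfl, rfl, rfl⟩ | ⟨rfl, rfl, rfl⟩ | ⟨rfl, rfl, rfl⟩ |
    ⟨rfl, rfl, rfl⟩ <;>
  simp only [pow_one, pow_zero, pow_two, c0_mul, eis_zero, hc, mul_one, c0_one]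

theorem phi_one (h5 : eis 8 = eis 4 ^ 2 ∧ eis 10 = eis 4 * eis 6 ∧ eis 14 = eis 4 ^ 2 * eis 6)
    {k r s : ℕ} (hA : Adm k r s) {c : PowerSeries ℂ}
    (hc : PowerSeries.coeff 0 c = 1) (hc1 : PowerSeries.coeff 1 c = 24) :
    PowerSeries.coeff 1 (eis 4 ^ r * eis 6 ^ s * c) = - PowerSeries.coeff 1 (eis k) := by
  obtain ⟨h8, h10, h14⟩ := h5
  rcases hA with ⟨rfl, rfl, rfl⟩ | ⟨rfl, rfl, rfl⟩ | ⟨rfl, rfl, rfl⟩ | ⟨rfl, rfl, rfl⟩ |
    ⟨rfl, rfl, rfl⟩
  · simp only [pow_one, pow_zero, pow_two, c0_mul, c1_mul, eis_zero, eis4_one, eis6_one, hc, hc1]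
    norm_num
  · simp only [pow_one, pow_zero, pow_two, c0_mul, c1_mul, eis_zero, eis4_one, eis6_one, hc, hc1,
      c0_one, c1_one]
    norm_num
  · rw [h8]
    simp only [pow_one, pow_zero, pow_two, c0_mul, c1_mul, eis_zero, eis4_one, eis6_one, hc, hc1,
      c0_one, c1_one]
    norm_num
  · rw [h10]
    simp only [pow_one, pow_zero, pow_two, c0_mul, c1_mul, eis_zero, eis4_one, eis6_one, hc, hc1,
      c0_one, c1_one]
    norm_num
  · rw [h14]
    simp only [pow_one, pow_zero, pow_two, c0_mul, c1_mul, eis_zero, eis4_one, eis6_one, hc, hc1,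
      c0_one, c1_one]
    norm_num

/-! ### The recursions -/

theorem jj_dvd (n : ℕ) (jj : PowerSeries ℂ) (h0 : PowerSeries.coeff 0 jj = 1) :
    PowerSeries.X ^ (n + 1) ∣ jj - (1 + ∑ i ∈ Finset.range n,
      PowerSeries.X ^ (i + 1) * PowerSeries.C (PowerSeries.coeff (i + 1) jj)) := by
  rw [PowerSeries.X_pow_dvd_iff]
  intro m hm
  rw [map_sub, map_add, map_sum, PowerSeries.coeff_one]
  have e1 : ∀ i, PowerSeries.coeff m (PowerSeries.X ^ (i + 1) *
      PowerSeries.C (PowerSeries.coeff (i + 1) jj)) = if m = i + 1 then PowerSeries.coeff m jj else 0 := by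
    intro i
    rw [mul_comm, PowerSeries.coeff_C_mul, PowerSeries.coeff_X_pow]
    by_cases h : m = i + 1
    · rw [if_pos h, if_pos h, mul_one, h]
    · rw [if_neg h, if_neg h, mul_zero]
  rw [Finset.sum_congr rfl fun i _ => e1 i]
  rcases Nat.eq_zero_or_pos m with hm0 | hm0
  · subst hm0
    rw [if_pos rfl, h0, Finset.sum_eq_zero, add_zero, sub_self]
    intro i _
    rw [if_neg (by omega)]
  · rw [if_neg (by omega), zero_add, Finset.sum_eq_single (m - 1), if_pos (by omega), sub_self]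
    · intro i _ hi
      rw [if_neg (by omega)]
    · intro h
      exact absurd (Finset.mem_range.mpr (by omega)) h

theorem A_zero {k : ℕ} {J : ℂ} {A jj : PowerSeries ℂ} (h0 : PowerSeries.coeff 0 jj = 1)
    (hA : A * (jj - PowerSeries.C J * PowerSeries.X) = eis k * PowerSeries.X) :
    PowerSeries.coeff 0 A = 0 := by
  have h := congrArg (PowerSeries.coeff 0) hA
  rw [c0_mul, c0_mul, map_sub, c0_mul, h0, PowerSeries.coeff_zero_X, mul_zero, mul_zero, sub_zero,
    mul_one] at h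
  exact h

theorem A_succ {k : ℕ} {J : ℂ} {A jj : PowerSeries ℂ} (h0 : PowerSeries.coeff 0 jj = 1)
    (hA : A * (jj - PowerSeries.C J * PowerSeries.X) = eis k * PowerSeries.X) (n : ℕ) :
    PowerSeries.coeff (n + 1) A = J * PowerSeries.coeff n A + PowerSeries.coeff n (eis k) -
      ∑ i ∈ Finset.range n, PowerSeries.coeff (i + 1) jj * PowerSeries.coeff (n - i) A := by
  have h := congrArg (PowerSeries.coeff (n + 1)) hA
  have e1 : A * (jj - PowerSeries.C J * PowerSeries.X) =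
      jj * A - PowerSeries.C J * (A * PowerSeries.X) := by ring
  rw [e1, map_sub, PowerSeries.coeff_C_mul, PowerSeries.coeff_succ_mul_X,
    PowerSeries.coeff_succ_mul_X, PowerSeries.coeff_mul,
    Finset.Nat.sum_antidiagonal_eq_sum_range_succ_mk, Finset.sum_range_succ',
    Finset.sum_range_succ] at h
  simp only [Nat.sub_zero, h0, one_mul, Nat.add_sub_add_right, Nat.sub_self, A_zero h0 hA,
    mul_zero, add_zero] at h
  linear_combination h

theorem reps_one : reps 1 = {(1, 0, 1)} := by decide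

theorem hsum_one (κ : ℤ) (g : ℍ → ℂ) (τ : ℍ) : hsum κ 1 g τ = g τ := by
  rw [hsum, reps_one, Finset.sum_singleton, val, mat]
  simp

end DUALP

open DUALP in
theorem t_DUAL (h1 : S_HQ) (h2 : S_WEAK) (h3 : S_QMUL) (h4 : S_NEG) (h5 : S_EIS) : S_DUAL := by
  intro k r s hA τ₀ n₀ hn₀
  obtain ⟨⟨w4, x4, -⟩, ⟨w6, x6, -⟩, ⟨w12, -, -, d0, d1⟩, h8, ⟨c, wi, xi, -, hX⟩⟩ := h5
  have hk1 : 1 ≤ k := by rcases hA with h | h | h | h | h <;> omega
  have hk2 : 2 - (k : ℤ) < 0 := by rcases hA with h | h | h | h | h <;> omega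
  have hwt : (r : ℤ) * 4 + s * 6 + (-12) = 2 - k := by
    rcases hA with h | h | h | h | h <;> (obtain ⟨rfl, rfl, rfl⟩ := h; norm_num)
  have hc0 := c_zero d0 d1 hX
  have hc1 := c_one d0 d1 hX
  obtain ⟨f, hf⟩ : ∃ f, f = frm r s (-1) := ⟨_, rfl⟩
  have hfa : f = fun τ => E₄ τ ^ r * E₆ τ ^ s * (discriminant τ)⁻¹ := by
    rw [hf]; funext τ
    rw [frm, zpow_neg_one]
  obtain ⟨φ, hφ⟩ : ∃ φ, φ = eis 4 ^ r * eis 6 ^ s * c := ⟨_, rfl⟩
  obtain ⟨jj, hjj⟩ : ∃ jj, jj = eis 4 ^ 3 * c := ⟨_, rfl⟩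
  have hφ0 : PowerSeries.coeff 0 φ = 1 := by rw [hφ]; exact phi_zero hA hc0
  have hφ1 : PowerSeries.coeff 1 φ = - PowerSeries.coeff 1 (eis k) := by
    rw [hφ]; exact phi_one h8 hA hc0 hc1
  have hj0 : PowerSeries.coeff 0 jj = 1 := by
    rw [hjj, c0_mul, hc0, mul_one, pow_succ, pow_two]
    simp only [c0_mul, eis_zero, mul_one]
  have wf : IsWeak (2 - k) f := by
    rw [← hwt, hfa]
    exact weak_mul (weak_mul (weak_pow w4 r) (weak_pow w6 s)) wi
  have xf : QExp f 1 φ := by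
    rw [hfa, hφ]
    have h := h3.1 _ _ _ _ _ _ (h3.1 _ _ _ _ _ _ (exp_pow h3 x4 r) (exp_pow h3 x6 s)) xi
    simpa using h
  have hja : (jinv : ℍ → ℂ) = fun τ => E₄ τ ^ 3 * (discriminant τ)⁻¹ := by
    funext τ
    rw [jinv, div_eq_mul_inv]
  have wj : IsWeak 0 jinv := by
    have h := weak_mul (weak_pow w4 3) wi
    rw [← hja] at h
    simpa using h
  have xj : QExp jinv 1 jj := by
    rw [hja, hjj]
    have h := h3.1 _ _ _ _ _ _ (exp_pow h3 x4 3) xi
    simpa using h
  -- the expansions of the Hecke sums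
  have wS : ∀ m, 0 < m → IsWeak (2 - k) (hsum (2 - k) m f) := fun m hm => h2 _ _ _ hm wf
  have xS : ∀ m, 0 < m → QExp (hsum (2 - k) m f) m (psi (2 - k) m φ) := fun m hm => by
    have h := h1 (2 - k) f 1 m φ hm xf
    rw [Nat.mul_one] at h
    exact h
  -- the recursion of the Hecke sums
  have hrec : ∀ n, 0 < n → ∀ τ : ℍ, hsum (2 - k) (n + 1) f τ = jinv τ * hsum (2 - k) n f τ +
      PowerSeries.coeff n (eis k) * f τ - ∑ i ∈ Finset.range n,
        PowerSeries.coeff (i + 1) jj * hsum (2 - k) (n - i) f τ := by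
    intro n hn
    have hw : IsWeak (2 - k) (fun τ => hsum (2 - k) (n + 1) f τ +
        (-1) * (jinv τ * hsum (2 - k) n f τ) + (-PowerSeries.coeff n (eis k)) * f τ +
        ∑ i ∈ Finset.range n, PowerSeries.coeff (i + 1) jj * hsum (2 - k) (n - i) f τ) := by
      refine weak_add (weak_add (weak_add (wS _ (Nat.succ_pos n)) (weak_smul _ ?_))
        (weak_smul _ wf)) (weak_sum fun i hi => weak_smul _ (wS _ ?_))
      · have h := weak_mul wj (wS n hn)
        rwa [zero_add] at h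
      · have := Finset.mem_range.mp hi
        omega
    have hx : QExp (fun τ => hsum (2 - k) (n + 1) f τ +
        (-1) * (jinv τ * hsum (2 - k) n f τ) + (-PowerSeries.coeff n (eis k)) * f τ +
        ∑ i ∈ Finset.range n, PowerSeries.coeff (i + 1) jj * hsum (2 - k) (n - i) f τ) (n + 1)
        (psi (2 - k) (n + 1) φ + PowerSeries.C (-1) * (jj * psi (2 - k) n φ) +
          PowerSeries.X ^ n * (PowerSeries.C (-PowerSeries.coeff n (eis k)) * φ) +
          ∑ i ∈ Finset.range n, PowerSeries.X ^ (i + 1) *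
            (PowerSeries.C (PowerSeries.coeff (i + 1) jj) * psi (2 - k) (n - i) φ)) := by
      have h3c := h3
      obtain ⟨qm, qa, -, qs, qx, -⟩ := h3
      refine qa _ _ _ _ _ (qa _ _ _ _ _ (qa _ _ _ _ _ (xS _ (Nat.succ_pos n))
        (qs _ _ _ _ ?_)) ?_) (exp_sum h3c fun i hi => ?_)
      · have h := qm _ _ _ _ _ _ xj (xS n hn)
        rwa [add_comm 1 n] at h
      · have h := qx _ 1 n _ (qs _ _ _ (-PowerSeries.coeff n (eis k)) xf)
        rwa [add_comm 1 n] at h
      · have hi' := Finset.mem_range.mp hi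
        have h := qx _ (n - i) (i + 1) _ (qs _ _ _ (PowerSeries.coeff (i + 1) jj)
          (xS (n - i) (by omega)))
        rwa [show n - i + (i + 1) = n + 1 by omega] at h
    have hd : PowerSeries.X ^ (n + 1) ∣ (psi (2 - k) (n + 1) φ +
        PowerSeries.C (-1) * (jj * psi (2 - k) n φ) +
          PowerSeries.X ^ n * (PowerSeries.C (-PowerSeries.coeff n (eis k)) * φ) +
          ∑ i ∈ Finset.range n, PowerSeries.X ^ (i + 1) *
            (PowerSeries.C (PowerSeries.coeff (i + 1) jj) * psi (2 - k) (n - i) φ)) := by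
      have a1 := psi_dvd' hk1 (Nat.succ_pos n) φ hφ0 hφ1
      have a2 := psi_dvd hk1 hn φ hφ0 hφ1
      have a3 : PowerSeries.X ^ (n + 1) ∣ PowerSeries.X ^ n * (φ - 1) := by
        rw [pow_succ]
        refine mul_dvd_mul_left _ (PowerSeries.X_dvd_iff.mpr ?_)
        rw [map_sub, map_one, ← PowerSeries.coeff_zero_eq_constantCoeff_apply, hφ0, sub_self]
      have a4 : PowerSeries.X ^ (n + 1) ∣ PowerSeries.X ^ n * (jj - 1) := by
        rw [pow_succ]
        refine mul_dvd_mul_left _ (PowerSeries.X_dvd_iff.mpr ?_)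
        rw [map_sub, map_one, ← PowerSeries.coeff_zero_eq_constantCoeff_apply, hj0, sub_self]
      have a5 := jj_dvd n jj hj0
      have a6 : PowerSeries.X ^ (n + 1) ∣ ∑ i ∈ Finset.range n, PowerSeries.X ^ (i + 1) *
          (PowerSeries.C (PowerSeries.coeff (i + 1) jj) * (psi (2 - k) (n - i) φ - 1)) := by
        refine Finset.dvd_sum fun i hi => ?_
        have hi' := Finset.mem_range.mp hi
        have h := psi_dvd' hk1 (show 0 < n - i by omega) φ hφ0 hφ1
        rw [show n + 1 = (i + 1) + (n - i) by omega, pow_add]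
        exact mul_dvd_mul_left _ (Dvd.dvd.mul_left h _)
      have e6 : ∑ i ∈ Finset.range n, PowerSeries.X ^ (i + 1) *
          (PowerSeries.C (PowerSeries.coeff (i + 1) jj) * (psi (2 - k) (n - i) φ - 1)) =
          (∑ i ∈ Finset.range n, PowerSeries.X ^ (i + 1) *
            (PowerSeries.C (PowerSeries.coeff (i + 1) jj) * psi (2 - k) (n - i) φ)) -
          ∑ i ∈ Finset.range n, PowerSeries.X ^ (i + 1) *
            PowerSeries.C (PowerSeries.coeff (i + 1) jj) := by
        rw [← Finset.sum_sub_distrib]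
        refine Finset.sum_congr rfl fun i _ => ?_
        ring
      have key : (psi (2 - k) (n + 1) φ +
        PowerSeries.C (-1) * (jj * psi (2 - k) n φ) +
          PowerSeries.X ^ n * (PowerSeries.C (-PowerSeries.coeff n (eis k)) * φ) +
          ∑ i ∈ Finset.range n, PowerSeries.X ^ (i + 1) *
            (PowerSeries.C (PowerSeries.coeff (i + 1) jj) * psi (2 - k) (n - i) φ)) =
          (psi (2 - k) (n + 1) φ - 1) - jj * (psi (2 - k) n φ -
            (1 - PowerSeries.C (PowerSeries.coeff n (eis k)) * PowerSeries.X ^ n)) -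
          PowerSeries.C (PowerSeries.coeff n (eis k)) * (PowerSeries.X ^ n * (φ - 1)) +
          (∑ i ∈ Finset.range n, PowerSeries.X ^ (i + 1) *
          (PowerSeries.C (PowerSeries.coeff (i + 1) jj) * (psi (2 - k) (n - i) φ - 1))) -
          (jj - (1 + ∑ i ∈ Finset.range n,
            PowerSeries.X ^ (i + 1) * PowerSeries.C (PowerSeries.coeff (i + 1) jj))) +
          PowerSeries.C (PowerSeries.coeff n (eis k)) * (PowerSeries.X ^ n * (jj - 1)) := by
        rw [e6, map_neg, map_neg, map_one]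
        ring
      rw [key]
      exact dvd_add (dvd_sub (dvd_add (dvd_sub (dvd_sub a1 (Dvd.dvd.mul_left a2 _))
        (Dvd.dvd.mul_left a3 _)) a6) a5) (Dvd.dvd.mul_left a4 _)
    obtain ⟨h', hh'⟩ := hd
    rw [hh', ← Nat.zero_add (n + 1)] at hx
    have hx0 := h3.2.2.2.2.2 _ 0 (n + 1) h' (by simpa only [Nat.zero_add] using hx)
    intro τ
    have hz := h4.1 _ _ _ hk2 hw hx0 τ
    linear_combination hz
  -- the coefficients of the quotient
  have hAq : quot k (jinv τ₀) * (jj - PowerSeries.C (jinv τ₀) * PowerSeries.X) =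
      eis k * PowerSeries.X := by
    have hne : PowerSeries.constantCoeff (eis 4 ^ 3 - PowerSeries.C (jinv τ₀) * del) ≠ 0 := by
      rw [← PowerSeries.coeff_zero_eq_constantCoeff_apply, map_sub, PowerSeries.coeff_C_mul, d0,
        mul_zero, sub_zero, pow_succ, pow_two]
      simp only [c0_mul, eis_zero, mul_one]
      exact one_ne_zero
    have h := PowerSeries.inv_mul_cancel _ hne
    have e1 : jj - PowerSeries.C (jinv τ₀) * PowerSeries.X =
        (eis 4 ^ 3 - PowerSeries.C (jinv τ₀) * del) * c := by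
      rw [hjj]
      conv_lhs => rw [hX]
      ring
    rw [quot, e1]
    calc eis k * del * (eis 4 ^ 3 - PowerSeries.C (jinv τ₀) * del)⁻¹ *
          ((eis 4 ^ 3 - PowerSeries.C (jinv τ₀) * del) * c)
        = eis k * (del * c) * ((eis 4 ^ 3 - PowerSeries.C (jinv τ₀) * del)⁻¹ *
          (eis 4 ^ 3 - PowerSeries.C (jinv τ₀) * del)) := by ring
      _ = _ := by rw [h, mul_one, ← hX]
  have main : ∀ n, 0 < n → PowerSeries.coeff n (quot k (jinv τ₀)) * f τ₀ =
      hsum (2 - k) n f τ₀ := by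
    intro n
    induction n using Nat.strong_induction_on with
    | _ n ih =>
      intro hn
      obtain ⟨m, rfl⟩ := Nat.exists_eq_succ_of_ne_zero hn.ne'
      rw [Nat.succ_eq_add_one, A_succ hj0 hAq]
      rcases Nat.eq_zero_or_pos m with hm | hm
      · subst hm
        rw [A_zero hj0 hAq, eis_zero, Finset.range_zero, Finset.sum_empty, mul_zero, zero_add,
          sub_zero, one_mul, zero_add, hsum_one]
      · rw [hrec m hm τ₀, ← ih m (by omega) hm, sub_mul, add_mul, Finset.sum_mul]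
        congr 1
        · ring
        · refine Finset.sum_congr rfl fun i hi => ?_
          have hi' := Finset.mem_range.mp hi
          rw [← ih (m - i) (by omega) (by omega)]
          ring
  have h := main n₀ hn₀
  rw [hf] at h
  exact h

end

end Pool.Agent.HS37.SP
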