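import Pool.Agent.HS37.SP.Stm

/-!
# Piece ORD of project SP: arithmetic of the order `ℤ + ℤ (a α)`
-/

set_option autoImplicit false

open UpperHalfPlane

namespace Pool.Agent.HS37.SP

private theorem ord_int {n d : ℤ} (hd : d ≠ 0) {w : ℂ} (hw : IsIntegral ℤ w)
    (h : (d : ℂ) * w = n) : d ∣ n := by
  have hd' : (d : ℂ) ≠ 0 := by exact_mod_cast hd
  have h1 : w = algebraMap ℚ ℂ ((n : ℚ) / d) := by
    rw [eq_ratCast]
    push_cast
    rw [eq_div_iff hd', mul_comm, h]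
  rw [h1, isIntegral_algebraMap_iff (algebraMap ℚ ℂ).injective] at hw
  obtain ⟨k, hk⟩ := IsIntegrallyClosed.isIntegral_iff.1 hw
  refine ⟨k, ?_⟩
  have hd'' : (d : ℚ) ≠ 0 := by exact_mod_cast hd
  rw [eq_intCast, eq_div_iff hd''] at hk
  have h2 : ((k * d : ℤ) : ℚ) = (n : ℤ) := by
    push_cast
    exact hk
  have h3 : k * d = n := by exact_mod_cast h2
  rw [← h3, mul_comm]

private theorem ord_omega {a b c : ℤ} {α : ℍ} (h : (a : ℂ) * (α : ℂ) ^ 2 + b * α + c = 0) :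
    ((a : ℂ) * α) ^ 2 + b * ((a : ℂ) * α) + a * c = 0 := by
  linear_combination (a : ℂ) * h

private theorem ord_conj {a b c : ℤ} {α : ℍ} (h : (a : ℂ) * (α : ℂ) ^ 2 + b * α + c = 0)
    (ha : 0 < a) : (starRingEnd ℂ) ((a : ℂ) * α) = -b - (a : ℂ) * α := by
  have h1 := ord_omega h
  set w : ℂ := (a : ℂ) * α with hw
  have h2 := congrArg (starRingEnd ℂ) h1
  simp only [map_zero, map_add, map_mul, map_pow, map_intCast] at h2
  set w' : ℂ := (starRingEnd ℂ) w with hw'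
  have h3 : (w - w') * (w + w' + b) = 0 := by linear_combination h1 - h2
  rcases mul_eq_zero.1 h3 with h4 | h4
  · exfalso
    have h5 : (starRingEnd ℂ) w = w := by
      rw [← hw']
      linear_combination -h4
    rw [Complex.conj_eq_iff_im] at h5
    have h6 : w.im = (a : ℝ) * α.im := by
      rw [hw]
      simp
    rw [h6] at h5
    have h7 : 0 < (a : ℝ) * α.im := mul_pos (by exact_mod_cast ha) α.im_pos
    exact h7.ne' h5
  · linear_combination h4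

/-- the order -/
private def ordR (a b c : ℤ) (α : ℍ) (h : (a : ℂ) * (α : ℂ) ^ 2 + b * α + c = 0) : Subring ℂ where
  carrier := {z | InOrder a α z}
  zero_mem' := ⟨0, 0, by simp⟩
  one_mem' := ⟨1, 0, by simp⟩
  add_mem' := by
    rintro _ _ ⟨x, y, rfl⟩ ⟨x', y', rfl⟩
    exact ⟨x + x', y + y', by push_cast; ring⟩
  neg_mem' := by
    rintro _ ⟨x, y, rfl⟩
    exact ⟨-x, -y, by push_cast; ring⟩
  mul_mem' := by
    rintro _ _ ⟨x, y, rfl⟩ ⟨x', y', rfl⟩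
    refine ⟨x * x' - y * y' * (a * c), x * y' + x' * y - b * y * y', ?_⟩
    push_cast
    linear_combination ((y : ℂ) * y') * ord_omega h

private theorem ord_mem {a b c : ℤ} {α : ℍ} {h : (a : ℂ) * (α : ℂ) ^ 2 + b * α + c = 0} {z : ℂ} :
    z ∈ ordR a b c α h ↔ InOrder a α z := Iff.rfl

theorem t_ORD : S_ORD := by
  intro a b c α p π B E s K e h ha hp hsq hpD hπ hπp hB hE hw
  obtain ⟨w, hw, hwe⟩ := hw
  have hp2 : Prime (p : ℤ) := Nat.prime_iff_prime_int.1 hp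
  have hp0 : (p : ℤ) ≠ 0 := hp2.ne_zero
  set ω : ℂ := (a : ℂ) * α with hω
  set D : ℤ := b ^ 2 - 4 * a * c with hD
  have hω2 := ord_omega h
  have hωc := ord_conj h ha
  rw [← hω] at hω2 hωc
  have hωD : (ω - (starRingEnd ℂ) ω) ^ 2 = D := by
    rw [hωc, hD]
    push_cast
    linear_combination 4 * hω2
  have hωint : IsIntegral ℤ ω := by
    refine ⟨Polynomial.X ^ 2 + Polynomial.C b * Polynomial.X + Polynomial.C (a * c), ?_, ?_⟩
    · monicity!
    · rw [← Polynomial.aeval_def]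
      simp only [map_add, map_mul, map_pow, Polynomial.aeval_X, Polynomial.aeval_C]
      simp only [eq_intCast]
      exact hω2
  set O := ordR a b c α h with hO
  have hπO : π ∈ O := hπ
  have hBO : B ∈ O := hB
  obtain ⟨x, y, hxy⟩ := hπ
  rw [← hω] at hxy
  have hπc : (starRingEnd ℂ) π = (x - b * y : ℤ) + (-y : ℤ) * ω := by
    rw [hxy, map_add, map_mul, map_intCast, map_intCast, hωc]
    push_cast
    ring
  have hπcO : (starRingEnd ℂ) π ∈ O := ⟨x - b * y, -y, hπc⟩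
  have hEO : (E : ℂ) ∈ O := ⟨E, 0, by simp⟩
  -- step 1
  have hzO : π ^ e * (((E : ℂ) * π ^ s) ^ K * B) ∈ O :=
    mul_mem (pow_mem hπO _) (mul_mem (pow_mem (mul_mem hEO (pow_mem hπO _)) _) hBO)
  have hze : π ^ e * (((E : ℂ) * π ^ s) ^ K * B) = ((p ^ e : ℤ) : ℂ) * w := by
    rw [hwe, ← mul_assoc, ← mul_pow, hπp]
    push_cast
    rfl
  obtain ⟨z₁, z₂, hz⟩ := hzO
  rw [← hω, hze] at hz
  have hpe0 : ((p : ℤ) ^ e) ≠ 0 := pow_ne_zero _ hp0
  have hwc : IsIntegral ℤ ((starRingEnd ℂ) w) := hw.map (starRingEnd ℂ).toIntAlgHom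
  have hz' : ((p ^ e : ℤ) : ℂ) * (starRingEnd ℂ) w = z₁ + z₂ * (starRingEnd ℂ) ω := by
    have h1 := congrArg (starRingEnd ℂ) hz
    rw [map_mul, map_add, map_mul, map_intCast, map_intCast, map_intCast] at h1
    exact h1
  have h2 : (((p : ℤ) ^ e) ^ 2) ∣ z₂ ^ 2 * D := by
    refine ord_int (w := (w - (starRingEnd ℂ) w) ^ 2) (pow_ne_zero _ hpe0) ((hw.sub hwc).pow 2) ?_
    have h3 : ((p ^ e : ℤ) : ℂ) * (w - (starRingEnd ℂ) w) = z₂ * (ω - (starRingEnd ℂ) ω) := by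
      linear_combination hz - hz'
    calc ((((p : ℤ) ^ e) ^ 2 : ℤ) : ℂ) * (w - (starRingEnd ℂ) w) ^ 2 =
        (((p ^ e : ℤ) : ℂ) * (w - (starRingEnd ℂ) w)) ^ 2 := by push_cast; ring
      _ = z₂ ^ 2 * (ω - (starRingEnd ℂ) ω) ^ 2 := by rw [h3]; ring
      _ = _ := by rw [hωD]; push_cast; ring
  have hcop : IsCoprime (((p : ℤ) ^ e) ^ 2) D := by
    refine IsCoprime.pow_left (IsCoprime.pow_left ?_)
    exact (Irreducible.coprime_iff_not_dvd hp2.irreducible).2 hpD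
  have h3 : ((p : ℤ) ^ e) ^ 2 ∣ z₂ ^ 2 := hcop.dvd_of_dvd_mul_right h2
  have h4 : (p : ℤ) ^ e ∣ z₂ := (Int.pow_dvd_pow_iff two_ne_zero).1 h3
  obtain ⟨k₂, hk₂⟩ := h4
  have h5 : (p : ℤ) ^ e ∣ z₁ := by
    refine ord_int (w := w - k₂ * ω) hpe0 (hw.sub ((isIntegral_algebraMap (x := k₂)).mul hωint)) ?_
    rw [hk₂] at hz
    push_cast at hz ⊢
    linear_combination hz
  obtain ⟨k₁, hk₁⟩ := h5
  have hwO : w ∈ O := by
    refine ⟨k₁, k₂, ?_⟩
    rw [← hω]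
    have h6 : (((p : ℤ) ^ e : ℤ) : ℂ) ≠ 0 := by exact_mod_cast hpe0
    apply mul_left_cancel₀ h6
    rw [hz, hk₁, hk₂]
    push_cast
    ring
  -- step 2
  have ht : ¬ (p : ℤ) ∣ 2 * x - b * y := by
    intro ht
    have e1 : (2 * x - b * y) ^ 2 - 4 * p = y ^ 2 * D := by
      have e2 : (((2 * x - b * y) ^ 2 - 4 * p : ℤ) : ℂ) = ((y ^ 2 * D : ℤ) : ℂ) := by
        have e3 : (π - (starRingEnd ℂ) π) = y * (ω - (starRingEnd ℂ) ω) := by
          rw [hπc, hωc, hxy]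
          push_cast
          ring
        have e4 : (π + (starRingEnd ℂ) π) = ((2 * x - b * y : ℤ) : ℂ) := by
          rw [hπc, hxy]
          push_cast
          ring
        calc (((2 * x - b * y) ^ 2 - 4 * p : ℤ) : ℂ) =
            (((2 * x - b * y : ℤ) : ℂ)) ^ 2 - 4 * (p : ℂ) := by push_cast; ring
          _ = (π + (starRingEnd ℂ) π) ^ 2 - 4 * (π * (starRingEnd ℂ) π) := by rw [e4, hπp]
          _ = (π - (starRingEnd ℂ) π) ^ 2 := by ring
          _ = y ^ 2 * (ω - (starRingEnd ℂ) ω) ^ 2 := by rw [e3]; ring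
          _ = _ := by rw [hωD]; push_cast; ring
      exact_mod_cast e2
    obtain ⟨t', ht'⟩ := ht
    rw [ht'] at e1
    have e2 : (p : ℤ) ∣ y ^ 2 * D := ⟨p * t' ^ 2 - 4, by rw [← e1]; ring⟩
    have e3 : (p : ℤ) ∣ y := hp2.dvd_of_dvd_pow ((hp2.dvd_or_dvd e2).resolve_right hpD)
    obtain ⟨y', hy'⟩ := e3
    rw [hy'] at e1
    have e4 : (p : ℤ) * t' ^ 2 - 4 = p * y' ^ 2 * D := by
      apply mul_left_cancel₀ hp0
      linear_combination e1
    have e5 : (p : ℤ) ∣ 4 := ⟨t' ^ 2 - y' ^ 2 * D, by linear_combination -e4⟩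
    have e6 : p ∣ 4 := by exact_mod_cast e5
    have e7 : p = 2 := by
      have : p ∣ 2 ^ 2 := by simpa using e6
      exact (Nat.prime_dvd_prime_iff_eq hp Nat.prime_two).1 (hp.dvd_of_dvd_pow this)
    obtain ⟨z, hz⟩ := hsq
    rw [if_pos e7] at hz
    rw [e7] at e4 hpD
    have e8 : t' ^ 2 - 2 = y' ^ 2 * D := by
      have : (2 : ℤ) * (t' ^ 2 - 2) = 2 * (y' ^ 2 * D) := by
        push_cast at e4
        linear_combination e4
      linarith
    obtain ⟨v, hv⟩ := hz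
    have hDz : D = z ^ 2 + 8 * v := by linear_combination hv
    have hodd : z % 2 = 1 := by
      rcases Int.emod_two_eq_zero_or_one z with h0 | h0
      · exfalso
        apply hpD
        obtain ⟨z', rfl⟩ := Int.dvd_of_emod_eq_zero h0
        exact ⟨2 * z' ^ 2 + 4 * v, by rw [hDz]; push_cast; ring⟩
      · exact h0
    obtain ⟨z', hz'⟩ : ∃ z', z = 2 * z' + 1 := ⟨z / 2, by omega⟩
    -- modulo four
    have e9 : t' ^ 2 - 2 = y' ^ 2 * ((2 * z' + 1) ^ 2 + 8 * v) := by rw [e8, hDz, hz']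
    have e10 : (t' ^ 2 - y' ^ 2) % 4 = 2 := by
      have : t' ^ 2 - y' ^ 2 = 2 + 4 * (y' ^ 2 * (z' ^ 2 + z' + 2 * v)) := by
        linear_combination e9
      omega
    rcases Int.emod_two_eq_zero_or_one t' with f1 | f1 <;>
      rcases Int.emod_two_eq_zero_or_one y' with f2 | f2
    · obtain ⟨t'', rfl⟩ := Int.dvd_of_emod_eq_zero f1
      obtain ⟨y'', rfl⟩ := Int.dvd_of_emod_eq_zero f2
      have : (2 * t'') ^ 2 - (2 * y'') ^ 2 = 4 * (t'' ^ 2 - y'' ^ 2) := by ring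
      omega
    · obtain ⟨t'', rfl⟩ := Int.dvd_of_emod_eq_zero f1
      obtain ⟨y'', rfl⟩ : ∃ y'', y' = 2 * y'' + 1 := ⟨y' / 2, by omega⟩
      have : (2 * t'') ^ 2 - (2 * y'' + 1) ^ 2 = 4 * (t'' ^ 2 - y'' ^ 2 - y'') - 1 := by ring
      omega
    · obtain ⟨t'', rfl⟩ : ∃ t'', t' = 2 * t'' + 1 := ⟨t' / 2, by omega⟩
      obtain ⟨y'', rfl⟩ := Int.dvd_of_emod_eq_zero f2
      have : (2 * t'' + 1) ^ 2 - (2 * y'') ^ 2 = 4 * (t'' ^ 2 + t'' - y'' ^ 2) + 1 := by ring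
      omega
    · obtain ⟨t'', rfl⟩ : ∃ t'', t' = 2 * t'' + 1 := ⟨t' / 2, by omega⟩
      obtain ⟨y'', rfl⟩ : ∃ y'', y' = 2 * y'' + 1 := ⟨y' / 2, by omega⟩
      have : (2 * t'' + 1) ^ 2 - (2 * y'' + 1) ^ 2 = 4 * (t'' ^ 2 + t'' - y'' ^ 2 - y'') := by ring
      omega
  let P : O := ⟨π, hπO⟩
  let Q : O := ⟨(starRingEnd ℂ) π, hπcO⟩
  let E' : O := ⟨(E : ℂ), hEO⟩
  have hPQ : P * Q = ((p : ℤ) : O) := Subtype.ext (by
    show π * (starRingEnd ℂ) π = _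
    rw [hπp]
    simp)
  have hPQ' : P + Q = ((2 * x - b * y : ℤ) : O) := Subtype.ext (by
    rw [Subring.coe_intCast]
    show π + (starRingEnd ℂ) π = _
    rw [hπc, hxy]
    push_cast
    ring)
  have hE' : E' = ((E : ℤ) : O) := Subtype.ext (by
    show (E : ℂ) = _
    simp)
  have hc1 : IsCoprime P Q := by
    obtain ⟨u, v, huv⟩ := (Irreducible.coprime_iff_not_dvd hp2.irreducible).2 ht
    refine ⟨(u : O) * Q + v, v, ?_⟩
    have h6 : ((u * p + v * (2 * x - b * y) : ℤ) : O) = ((1 : ℤ) : O) := by rw [huv]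
    rw [Int.cast_add, Int.cast_mul, Int.cast_mul, ← hPQ, ← hPQ', Int.cast_one] at h6
    rw [← h6]
    ring
  have hc2 : IsCoprime E' Q := by
    obtain ⟨u, v, huv⟩ := hE
    refine ⟨(u : O), (v : O) * P, ?_⟩
    have h6 : ((u * E + v * p : ℤ) : O) = ((1 : ℤ) : O) := by rw [huv]
    rw [Int.cast_add, Int.cast_mul, Int.cast_mul, ← hPQ, ← hE', Int.cast_one] at h6
    rw [← h6]
    ring
  have hc3 : IsCoprime (Q ^ e) ((E' * P ^ s) ^ K) :=
    (IsCoprime.pow (IsCoprime.mul_left hc2 hc1.pow_left)).symm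
  have hdvd : Q ^ e ∣ (E' * P ^ s) ^ K * (⟨B, hBO⟩ : O) := by
    refine ⟨⟨w, hwO⟩, Subtype.ext ?_⟩
    exact hwe
  obtain ⟨w', hw'⟩ := hc3.dvd_of_dvd_mul_left hdvd
  exact ⟨w', w'.2, congrArg Subtype.val hw'⟩

end Pool.Agent.HS37.SP
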