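import Pool.Agent.HS37.SP.Tm
import Pool.Agent.HS37.SP.Lem
import Pool.Agent.HS37.SP.Back
import Pool.Agent.HS37.SP.Ord
import Pool.Agent.HS37.SP.Dual
import Pool.Agent.HS37.SP.Prod

/-!
# Project SP: the main theorem
-/

set_option autoImplicit false

open Matrix MatrixGroups UpperHalfPlane ModularForm ModularFormClass EisensteinSeries

namespace Pool.Agent.HS37.SP

lemma isWeak_f {k r s : ℕ} (hA : Adm k r s) : IsWeak (2 - k) (frm r s (-1)) := by
  obtain ⟨⟨w4, -, -⟩, ⟨w6, -, -⟩, -, -, ci, wi, -⟩ := t_EIS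
  have hk := adm_eq hA
  have h := (((w4.pow r).mul (w6.pow s)).mul wi).cast (κ' := 2 - k) (by omega)
  have e : frm r s (-1) = fun τ => E₄ τ ^ r * E₆ τ ^ s * (discriminant τ)⁻¹ := by
    funext τ
    rw [frm, _root_.zpow_neg, zpow_one]
  rw [e]
  exact h

lemma f_ne {r s : ℕ} {α : ℍ} {J : ℤ} (hJ : jinv α = J) (hJ0 : J ≠ 0) (hJ1 : J ≠ 1728) :
    frm r s (-1) α ≠ 0 := by
  have hΔ := discriminant_ne_zero α
  have h4 : E₄ α ≠ 0 := by
    intro h
    unfold jinv at hJ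
    rw [h] at hJ
    simp at hJ
    exact hJ0 (by exact_mod_cast hJ.symm)
  have h6 : E₆ α ≠ 0 := by
    intro h
    have h1 := ModularForm.discriminant_eq_E₄_cube_sub_E₆_sq α
    rw [h] at h1
    unfold jinv at hJ
    rw [div_eq_iff hΔ] at hJ
    have h2 : ((J : ℂ) - 1728) * discriminant α = 0 := by
      linear_combination (-1 : ℂ) * hJ + (-1728) * h1
    rcases mul_eq_zero.1 h2 with h3 | h3
    · exact hJ1 (by
        have : (J : ℂ) = 1728 := by linear_combination h3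
        exact_mod_cast this)
    · exact hΔ h3
  unfold frm
  exact mul_ne_zero (mul_ne_zero (pow_ne_zero _ h4) (pow_ne_zero _ h6)) (zpow_ne_zero _ hΔ)

lemma t_zero {k r s : ℕ} (hA : Adm k r s) {N : ℕ} (hN : 0 < N) {α : ℍ} {J : ℤ}
    (hJ : jinv α = J) (hf : frm r s (-1) α ≠ 0) :
    ∑ t ∈ reps N, uu k r s α t = PowerSeries.coeff N (quot k J) := by
  have h := t_DUAL t_HQ t_WEAK t_QMUL t_NEG t_EIS k r s hA α N hN
  rw [hJ] at h
  unfold uu
  rw [← Finset.sum_div, div_eq_iff hf, h]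
  rfl

theorem main {k r s : ℕ} (hA : Adm k r s) {a b c : ℤ} (ha : 0 < a) {α : ℍ}
    (hα : (a : ℂ) * (α : ℂ) ^ 2 + b * α + c = 0) {J : ℤ} (hJ : jinv α = J) (hJ0 : J ≠ 0)
    (hJ1 : J ≠ 1728) {p : ℕ} (hp : p.Prime)
    (hsq : ∃ z : ℤ, (if p = 2 then 8 else (p : ℤ)) ∣ b ^ 2 - 4 * a * c - z ^ 2)
    (hpD : ¬ (p : ℤ) ∣ b ^ 2 - 4 * a * c) {π : ℂ} (hπ : InOrder a α π)
    (hππ : π * (starRingEnd ℂ) π = p) {n l : ℕ} (hn : 0 < n) (hl : 0 < l) :
    ∃ w : ℂ, InOrder a α w ∧ PowerSeries.coeff (n * p ^ l) (quot k J) -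
      π ^ (k - 2) * PowerSeries.coeff (n * p ^ (l - 1)) (quot k J) =
        (starRingEnd ℂ) π ^ ((k - 1) * l) * w := by
  obtain ⟨σ, hσ⟩ : ∃ σ, σ = (starRingEnd ℂ) π := ⟨_, rfl⟩
  have hσo : InOrder a α σ := hσ ▸ hπ.conj hα
  rw [← hσ] at hππ ⊢
  obtain ⟨l', rfl⟩ : ∃ l', l = l' + 1 := ⟨l - 1, by omega⟩
  rw [Nat.add_sub_cancel]
  obtain ⟨N', hN'd⟩ : ∃ N', N' = n * p ^ l' := ⟨_, rfl⟩
  have hp0 := hp.pos
  have hpC : (p : ℂ) ≠ 0 := by exact_mod_cast hp0.ne'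
  have hN' : 0 < N' := by rw [hN'd]; positivity
  have hN : 0 < N' * p := by positivity
  have hNe : n * p ^ (l' + 1) = N' * p := by rw [hN'd, pow_succ, mul_assoc]
  rw [hNe, ← hN'd]
  have hπ0 : π ≠ 0 := fun h => by rw [h, zero_mul] at hππ; exact hpC hππ.symm
  have hσ0 : σ ≠ 0 := fun h => by rw [h, mul_zero] at hππ; exact hpC hππ.symm
  have hf := f_ne (r := r) (s := s) hJ hJ0 hJ1
  have hΔ := discriminant_ne_zero α
  have hk := adm_eq hA
  have hk4 := adm_le hA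
  -- the matrix of `π`
  obtain ⟨x, y, hxy⟩ := hπ
  obtain ⟨Mx, hMx⟩ : ∃ Mx : Matrix (Fin 2) (Fin 2) ℤ, Mx = !![x - y * b, -(y * c); y * a, x] :=
    ⟨_, rfl⟩
  have hdet : Mx.det = (p : ℤ) := by
    have h1 : σ = x + y * (-b - a * α) := by
      rw [hσ, hxy]
      simp only [map_add, map_mul, map_intCast]
      linear_combination (y : ℂ) * conj_sum hα
    have h2 : (((x - y * b) * x - -(y * c) * (y * a) : ℤ) : ℂ) = ((p : ℤ) : ℂ) := by
      push_cast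
      rw [← hππ, hxy, h1]
      linear_combination ((a : ℂ) * y ^ 2) * hα
    rw [hMx, Matrix.det_fin_two_of]
    exact_mod_cast h2
  obtain ⟨ι, i1, i2, i3⟩ := t_MAP N' p hN' hp0 Mx hdet
  have hval : ∀ (κ : ℤ) (g : ℍ → ℂ), IsWeak κ g → ∀ t ∈ reps N',
      val κ g (mat (ι t)) α = π ^ (-κ) * val κ g (mat t) α := by
    intro κ g hg t ht
    obtain ⟨v1, -, v3⟩ := t_VAL κ g hg
    obtain ⟨γ, hγ⟩ := i3 t ht
    have hd1 : 0 < (mat (ι t)).det := by
      rw [det_mat_of_mem hN (i1 t ht)]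
      exact_mod_cast hN
    have hd2 : 0 < (mat t).det := by
      rw [det_mat_of_mem hN' ht]
      exact_mod_cast hN'
    rw [← v1 (mat (ι t)) γ α hd1, ← hγ]
    refine v3 (mat t) Mx α π hd2 (by rw [hdet]; exact_mod_cast hp0) hπ0 ?_ ?_
    · rw [hMx, hxy]
      simp
      linear_combination (-(y : ℂ)) * hα
    · rw [hMx, hxy]
      simp
      ring
  have hu : ∀ t ∈ reps N', uu k r s α (ι t) = π ^ (k - 2) * uu k r s α t := by
    intro t ht
    unfold uu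
    rw [hval _ _ (isWeak_f hA) t ht, show -(2 - (k : ℤ)) = ((k - 2 : ℕ) : ℤ) by omega,
      zpow_natCast]
    ring
  have hx : ∀ t ∈ reps N', xx (N' * p) α (ι t) = σ ^ 12 * xx N' α t := by
    intro t ht
    unfold xx
    rw [hval 12 discriminant t_EIS.2.2.1.1 t ht]
    push_cast
    rw [← hππ, show (-12 : ℤ) = -((12 : ℕ) : ℤ) by norm_num, _root_.zpow_neg, zpow_natCast]
    field_simp
  -- the complement
  have hinj : Set.InjOn ι (reps N' : Set (ℕ × ℕ × ℕ)) := fun t ht t' ht' he =>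
    i2 t (by exact_mod_cast ht) t' (by exact_mod_cast ht') he
  have himg : (reps N').image ι ⊆ reps (N' * p) := by
    intro t ht
    obtain ⟨t', h1, rfl⟩ := Finset.mem_image.1 ht
    exact i1 t' h1
  obtain ⟨S, hS⟩ : ∃ S, S = reps (N' * p) \ (reps N').image ι := ⟨_, rfl⟩
  have hsum : ∀ F : ℕ × ℕ × ℕ → ℂ, ∑ t ∈ S, F t =
      ∑ t ∈ reps (N' * p), F t - ∑ t ∈ reps N', F (ι t) := by
    intro F
    rw [hS, ← Finset.sum_sdiff himg, Finset.sum_image hinj]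
    ring
  have hprod : ∀ F : ℕ × ℕ × ℕ → ℂ, (∏ t ∈ S, F t) * ∏ t ∈ reps N', F (ι t) =
      ∏ t ∈ reps (N' * p), F t := by
    intro F
    rw [hS, ← Finset.prod_sdiff himg, Finset.prod_image hinj]
  -- the zeroth moment
  obtain ⟨B, hB⟩ : ∃ B, B = PowerSeries.coeff (N' * p) (quot k J) -
      π ^ (k - 2) * PowerSeries.coeff N' (quot k J) := ⟨_, rfl⟩
  have hB0 : ∑ t ∈ S, uu k r s α t = B := by
    rw [hsum, t_zero hA hN hJ hf, Finset.sum_congr rfl hu, ← Finset.mul_sum,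
      t_zero hA hN' hJ hf, hB]
  have hπo : InOrder a α π := ⟨x, y, hxy⟩
  have hBo : InOrder a α B := by
    obtain ⟨z1, hz1⟩ := quot_int hA J (N' * p)
    obtain ⟨z2, hz2⟩ := quot_int hA J N'
    rw [hB, hz1, hz2, sub_eq_add_neg]
    exact (inOrder_int z1).add ((hπo.pow hα _).mul hα (inOrder_int z2)).neg
  -- the higher moments
  have hR : ∀ M : ℕ, (k - 1) * (l' + 1) + 2 ≤ M → ∃ w : ℂ, IsIntegral ℤ w ∧
      ∑ t ∈ S, uu k r s α t * xx (N' * p) α t ^ M = σ ^ ((k - 1) * (l' + 1)) * w := by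
    intro M hM
    obtain ⟨z1, hz1⟩ := tm_int hA hN hJ hf (show 2 ≤ M by omega)
    obtain ⟨z2, hz2⟩ := tm_int hA hN' hJ hf (show 2 ≤ M by omega)
    have h1 : ∑ t ∈ reps N', uu k r s α (ι t) * xx (N' * p) α (ι t) ^ M =
        π ^ (k - 2) * σ ^ (12 * M) * ((N' : ℂ) ^ (k - 1) * z2) := by
      rw [← hz2, Finset.mul_sum]
      refine Finset.sum_congr rfl fun t ht => ?_
      rw [hu t ht, hx t ht, mul_pow, ← pow_mul]
      ring
    obtain ⟨e, he⟩ : ∃ e, e = (k - 1) * (l' + 1) := ⟨_, rfl⟩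
    obtain ⟨m, hm⟩ : ∃ m, 12 * M = e + m := ⟨12 * M - e, by omega⟩
    have h2 : ((N' * p : ℕ) : ℂ) ^ (k - 1) = (n : ℂ) ^ (k - 1) * π ^ e * σ ^ e := by
      rw [← hNe]
      push_cast
      rw [mul_pow, ← pow_mul, ← hππ, mul_comm (l' + 1) (k - 1), ← he, mul_pow]
      ring
    refine ⟨(n : ℂ) ^ (k - 1) * π ^ e * z1 - π ^ (k - 2) * σ ^ m * ((N' : ℂ) ^ (k - 1) * z2),
      ?_, ?_⟩
    · refine InOrder.isIntegral (a := a) (α := α) hα ?_
      rw [sub_eq_add_neg]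
      have hn' : ∀ m : ℕ, InOrder a α (m : ℂ) := fun m => by
        have := inOrder_int (a := a) (α := α) (m : ℤ)
        simpa using this
      refine InOrder.add ?_ (InOrder.neg ?_)
      · exact (((hn' n).pow hα _).mul hα (hπo.pow hα _)).mul hα (inOrder_int z1)
      · exact ((hπo.pow hα _).mul hα (hσo.pow hα _)).mul hα
          (((hn' N').pow hα _).mul hα (inOrder_int z2))
    · rw [hsum (fun t => uu k r s α t * xx (N' * p) α t ^ M), hz1, h1, h2, hm, ← he, pow_add]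
      ring
  have hxi : ∀ t ∈ S, IsIntegral ℤ (xx (N' * p) α t) := by
    intro t ht
    rw [hS, Finset.mem_sdiff] at ht
    exact xx_int hN hJ t ht.1
  obtain ⟨w, hw, hwe⟩ := t_BACK _ S (xx (N' * p) α) (uu k r s α) (σ ^ ((k - 1) * (l' + 1)))
    ((k - 1) * (l' + 1) + 2) hxi hR
  rw [hB0] at hwe
  -- the product
  obtain ⟨E, hE, hprodE⟩ : ∃ E : ℤ, IsCoprime E (p : ℤ) ∧
      ∏ t ∈ S, xx (N' * p) α t = (E : ℂ) * π ^ (12 * (reps N').card) := by
    obtain ⟨ε, hε, h1⟩ := t_PROD (N' * p) hN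
    obtain ⟨ε', hε', h2⟩ := t_PROD N' hN'
    obtain ⟨E, hE, h3⟩ := QQ_mul hN' hp
    have h4 : ∏ t ∈ reps (N' * p), xx (N' * p) α t = ε * QQ (N' * p) := h1 α
    have h5 : ∏ t ∈ reps N', xx N' α t = ε' * QQ N' := h2 α
    have h6 := hprod (xx (N' * p) α)
    rw [h4, Finset.prod_congr rfl hx, Finset.prod_mul_distrib, Finset.prod_const, h5, h3,
      ← pow_mul, ← hππ, mul_pow] at h6
    have h7 : QQ N' ≠ 0 := QQ_ne
    have h8 : σ ^ (12 * (reps N').card) ≠ 0 := pow_ne_zero _ hσ0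
    have hε2 : ε' * ε' = 1 := by rcases hε' with h | h <;> rw [h] <;> norm_num
    have h9 : (∏ t ∈ S, xx (N' * p) α t) = ε' * ε * E * π ^ (12 * (reps N').card) := by
      have h10 : (∏ t ∈ S, xx (N' * p) α t) * (σ ^ (12 * (reps N').card) * QQ N') =
          (ε' * ε * E * π ^ (12 * (reps N').card)) * (σ ^ (12 * (reps N').card) * QQ N') := by
        linear_combination ε' * h6 - ((∏ t ∈ S, xx (N' * p) α t) *
          (σ ^ (12 * (reps N').card) * QQ N')) * hε2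
      exact mul_right_cancel₀ (mul_ne_zero h8 h7) h10
    rcases hε with h | h <;> rcases hε' with h' | h'
    · exact ⟨E, hE, by rw [h9, h, h']; ring⟩
    · exact ⟨-E, hE.neg_left, by rw [h9, h, h']; push_cast; ring⟩
    · exact ⟨-E, hE.neg_left, by rw [h9, h, h']; push_cast; ring⟩
    · exact ⟨E, hE, by rw [h9, h, h']; ring⟩
  rw [hprodE] at hwe
  have hfin := t_ORD a b c α p π B E (12 * (reps N').card) ((k - 1) * (l' + 1) + 2)
    ((k - 1) * (l' + 1)) hα ha hp hsq hpD hπo (by rw [← hσ]; exact hππ) hBo hE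
    ⟨w, hw, by rw [← hσ]; exact hwe⟩
  rw [← hσ, hB] at hfin
  exact hfin

end Pool.Agent.HS37.SP
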