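import Pool.Agent.HS37.SP.Stm

/-!
# Piece PSUM of project SP: complex numbers with integral power sums are algebraic integers
-/

set_option autoImplicit false

namespace Pool.Agent.HS37.SP

open Polynomial in
/-- a polynomial function on a finite set which is orthogonal to the powers is zero -/
private theorem psum_inj {α : Type} [Fintype α] (y : α → ℂ) (P : Polynomial ℤ)
    (h : ∀ b : ℕ, b < Fintype.card α → ∑ i, aeval (y i) P * y i ^ b = 0) (i₀ : α) :
    aeval (y i₀) P = 0 := by
  classical
  set V : Finset ℂ := Finset.univ.image y with hV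
  have hv : y i₀ ∈ V := Finset.mem_image_of_mem _ (Finset.mem_univ _)
  set Q : Polynomial ℂ := Lagrange.basis V id (y i₀) with hQ
  have hinj : Set.InjOn (id : ℂ → ℂ) (V : Set ℂ) := fun _ _ _ _ h => h
  have hdeg : Q.natDegree < Fintype.card α := by
    have h1 : Q.degree = ((V.card - 1 : ℕ) : WithBot ℕ) := Lagrange.degree_basis hinj hv
    have h2 : Q.natDegree = V.card - 1 := natDegree_eq_of_degree_eq_some h1
    have h3 : V.card ≤ Fintype.card α := by
      rw [hV]
      exact Finset.card_image_le
    have h4 : 0 < V.card := Finset.card_pos.2 ⟨_, hv⟩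
    omega
  have h1 : ∑ i, aeval (y i) P * Q.eval (y i) = 0 := by
    have h2 : ∀ i, aeval (y i) P * Q.eval (y i) =
        ∑ b ∈ Finset.range (Fintype.card α), Q.coeff b * (aeval (y i) P * y i ^ b) := by
      intro i
      rw [eval_eq_sum_range' hdeg, Finset.mul_sum]
      exact Finset.sum_congr rfl fun b _ => by ring
    rw [Finset.sum_congr rfl fun i _ => h2 i, Finset.sum_comm]
    refine Finset.sum_eq_zero fun b hb => ?_
    rw [← Finset.mul_sum, h b (Finset.mem_range.1 hb), mul_zero]
  have h2 : ∀ i, aeval (y i) P * Q.eval (y i) = if y i = y i₀ then aeval (y i₀) P else 0 := by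
    intro i
    by_cases hi : y i = y i₀
    · rw [if_pos hi, hi, hQ]
      have := Lagrange.eval_basis_self hinj hv
      rw [id] at this
      rw [this, mul_one]
    · rw [if_neg hi, hQ]
      have := Lagrange.eval_basis_of_ne (v := (id : ℂ → ℂ)) (s := V) (Ne.symm hi)
        (Finset.mem_image_of_mem y (Finset.mem_univ i))
      rw [id] at this
      rw [this, mul_zero]
  rw [Finset.sum_congr rfl fun i _ => h2 i, ← Finset.sum_filter, Finset.sum_const, nsmul_eq_mul,
    mul_eq_zero] at h1
  rcases h1 with h1 | h1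
  · exfalso
    have h3 : (Finset.univ.filter fun i => y i = y i₀).card = 0 := by exact_mod_cast h1
    rw [Finset.card_eq_zero] at h3
    have h4 : i₀ ∈ Finset.univ.filter fun i => y i = y i₀ :=
      Finset.mem_filter.2 ⟨Finset.mem_univ _, rfl⟩
    rw [h3] at h4
    exact absurd h4 (Finset.notMem_empty _)
  · exact h1

private theorem psum_aeval_pi {α : Type} (y : α → ℂ) (P : Polynomial ℤ) (i : α) :
    (Polynomial.aeval y P) i = Polynomial.aeval (y i) P := by
  exact (Polynomial.aeval_algHom_apply (Pi.evalAlgHom ℤ (fun _ : α => ℂ) i) y P).symm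

private theorem psum_fin {α : Type} [Fintype α] (y : α → ℂ)
    (hy : ∀ M : ℕ, ∃ z : ℤ, ∑ i, y i ^ M = z) (i : α) : IsIntegral ℤ (y i) := by
  let S : Subalgebra ℤ (α → ℂ) := Algebra.adjoin ℤ {y}
  have hS : ∀ h : S, ∃ P : Polynomial ℤ, Polynomial.aeval y P = (h : α → ℂ) := by
    intro h
    have h1 : (h : α → ℂ) ∈ Algebra.adjoin ℤ {y} := h.2
    rw [Algebra.adjoin_singleton_eq_range_aeval] at h1
    exact h1
  let g : S →ₗ[ℤ] (Fin (Fintype.card α) → ℂ) :=
    { toFun := fun h b => ∑ i, (h : α → ℂ) i * y i ^ (b : ℕ)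
      map_add' := fun h h' => by
        funext b
        show ∑ i, ((h : α → ℂ) i + (h' : α → ℂ) i) * y i ^ (b : ℕ) = _
        rw [Pi.add_apply, ← Finset.sum_add_distrib]
        exact Finset.sum_congr rfl fun i _ => by ring
      map_smul' := fun c h => by
        funext b
        rw [RingHom.id_apply, Pi.smul_apply, Finset.smul_sum]
        refine Finset.sum_congr rfl fun i _ => ?_
        show (c • (h : α → ℂ) i) * y i ^ (b : ℕ) = _
        rw [smul_mul_assoc] }
  let L : (Fin (Fintype.card α) → ℤ) →ₗ[ℤ] (Fin (Fintype.card α) → ℂ) :=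
    { toFun := fun v b => (v b : ℂ)
      map_add' := fun v w => by
        funext b
        exact Int.cast_add _ _
      map_smul' := fun c v => by
        funext b
        show (((c • v) b : ℤ) : ℂ) = c • (v b : ℂ)
        rw [Pi.smul_apply, smul_eq_mul, Int.cast_mul, zsmul_eq_mul] }
  have hrange : ∀ h : S, g h ∈ LinearMap.range L := by
    intro h
    obtain ⟨P, hP⟩ := hS h
    choose z hz using hy
    refine ⟨fun b => P.sum fun k c => c * z (k + b), ?_⟩
    funext b
    show ((P.sum fun k c => c * z (k + b) : ℤ) : ℂ) = ∑ i, (h : α → ℂ) i * y i ^ (b : ℕ)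
    rw [← hP, Polynomial.sum, Int.cast_sum]
    have h1 : ∀ i, (Polynomial.aeval y P) i * y i ^ (b : ℕ) =
        ∑ k ∈ P.support, (P.coeff k : ℂ) * y i ^ (k + (b : ℕ)) := by
      intro i
      rw [psum_aeval_pi, Polynomial.aeval_eq_sum_range, Finset.sum_mul]
      have h2 : ∑ k ∈ P.support, (P.coeff k : ℂ) * y i ^ (k + (b : ℕ)) =
          ∑ k ∈ Finset.range (P.natDegree + 1), (P.coeff k : ℂ) * y i ^ (k + (b : ℕ)) := by
        refine Finset.sum_subset Polynomial.supp_subset_range_natDegree_succ fun k _ hk => ?_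
        rw [Polynomial.notMem_support_iff.1 hk, Int.cast_zero, zero_mul]
      rw [h2]
      refine Finset.sum_congr rfl fun k _ => ?_
      rw [zsmul_eq_mul, pow_add, mul_assoc]
    rw [Finset.sum_congr rfl fun i _ => h1 i, Finset.sum_comm]
    refine Finset.sum_congr rfl fun k _ => ?_
    rw [← Finset.mul_sum, hz, Int.cast_mul]
  have hginj : Function.Injective g := by
    rw [← LinearMap.ker_eq_bot, LinearMap.ker_eq_bot']
    intro h hh
    obtain ⟨P, hP⟩ := hS h
    apply Subtype.ext
    funext i
    rw [← hP, psum_aeval_pi]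
    refine psum_inj y P (fun b hb => ?_) i
    have h1 : ∑ i, (h : α → ℂ) i * y i ^ b = 0 := congrFun hh ⟨b, hb⟩
    rw [← h1]
    refine Finset.sum_congr rfl fun i _ => ?_
    rw [← hP, psum_aeval_pi]
  have : IsNoetherian ℤ (LinearMap.range L) := isNoetherian_of_surjective (M := (Fin (Fintype.card α) → ℤ))
    L.rangeRestrict (LinearMap.range_rangeRestrict L)
  have : Module.Finite ℤ S := Module.Finite.of_injective (g.codRestrict _ hrange) (by
    intro a b hab
    exact hginj (congrArg Subtype.val hab))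
  have h1 : IsIntegral ℤ (⟨y, Algebra.subset_adjoin (Set.mem_singleton y)⟩ : S) :=
    IsIntegral.of_finite ℤ _
  have h2 : IsIntegral ℤ y := h1.map S.val
  exact h2.map ((Pi.evalRingHom (fun _ : α => ℂ) i).toIntAlgHom)

theorem t_PSUM : S_PSUM := by
  intro ι _ T x hx i hi
  refine psum_fin (fun i : T => x i) (fun M => ?_) ⟨i, hi⟩
  rcases Nat.eq_zero_or_pos M with h | h
  · subst h
    exact ⟨Fintype.card T, by simp⟩
  · obtain ⟨z, hz⟩ := hx M h
    exact ⟨z, by rw [← hz]; exact Finset.sum_coe_sort T (fun i => x i ^ M)⟩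

end Pool.Agent.HS37.SP
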