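import Mathlib

/-!
# Project SP: split-prime supercongruences for `E_k / (j - j(α_D))` (MP_ce8f6c_nt)

**Theorem.** `k ∈ {4, 6, 8, 10, 14}`, `α ∈ ℍ` a CM point of discriminant `D` with `j(α) = J ∈ ℤ`,
`J ≠ 0, 1728`; `A(n)` the coefficients of `E_k / (j - J)`. If `p` is a prime with `(D / p) = 1`,
`π ∈ O_D`, `π π̄ = p`, then `A(n p^l) - π^(k-2) A(n p^(l-1)) ∈ π̄^((k-1) l) O_D`.

**Proof.** Write `14 - k = 4 r + 6 s`, `k = 4 (2 - r) + 6 (1 - s)`, `f = E₄^r E₆^s / Δ` (weight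
`2 - k`), `Λ = ℤ α + ℤ`. For a function `g` of weight `κ` put `g(ℤ u + ℤ v) = v^(-κ) g(u / v)`. The
sublattices `Λ'` of index `N` are given by the matrices `mat t`, `t = (a, b, d) ∈ reps N`
(`a d = N`, `0 ≤ b < d`). Put `u(Λ') = f(Λ') / f(Λ)` and `x(Λ') = N^12 Δ(Λ') / Δ(Λ)`,
`T_M(N) = ∑_{Λ'} u(Λ') x(Λ')^M`.
* `T_0(N) = A(N)` (DUAL);
* `T_M(N) ∈ N^(k-1) ℤ` for `M ≥ 2` (HECKE and PRIN for the form `f Δ^M` with integral `q`-expansion);
* `∑_{Λ'} x(Λ')^M ∈ ℤ` for `M ≥ 1`, so the `x(Λ')` are algebraic integers (PSUM);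
* `∏_{Λ'} x(Λ') = ± ∏_{a | N} a^(12 N / a)` (PROD);
* for `Λ' = π Λ''` we have `u(Λ') = π^(k-2) u(Λ'')`, `x(Λ') = π̄^12 x(Λ'')`. So with
  `R_M = ∑_{Λ' ⊄ π Λ} u(Λ') x(Λ')^M = T_M(N) - π^(k-2) π̄^(12 M) T_M(N / p)` we have
  `R_0 = A(N) - π^(k-2) A(N / p)`, `R_M ≡ 0 mod π̄^((k-1) l)` for large `M`, and the product of the
  `x(Λ')`, `Λ' ⊄ π Λ`, is `± E π^s` with an integer `E` prime to `p`. The recurrence for the `R_M`,
  run backwards, gives `(E π^s)^K R_0 ≡ 0 mod π̄^((k-1) l)`, and `E π^s` is prime to `π̄`.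
-/

set_option autoImplicit false

open UpperHalfPlane ModularForm ModularFormClass MatrixGroups EisensteinSeries Complex

namespace Pool.Agent.HS37.SP

noncomputable section

/-- `j = E₄³ / Δ` -/
def jinv (τ : ℍ) : ℂ := E₄ τ ^ 3 / discriminant τ

/-- `f Δ^m = E₄^r E₆^s Δ^m / Δ`, for integral `m` : the form `E₄^r E₆^s Δ^m`. -/
def frm (r s : ℕ) (m : ℤ) (τ : ℍ) : ℂ := E₄ τ ^ r * E₆ τ ^ s * discriminant τ ^ m

/-- `q = exp (2 π i τ)` -/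
def qq (τ : ℂ) : ℂ := cexp (2 * Real.pi * Complex.I * τ)

/-- The representatives `(a, b, d)`, `a d = N`, `0 ≤ b < d`, of the sublattices of index `N`. -/
def reps (N : ℕ) : Finset (ℕ × ℕ × ℕ) :=
  (Finset.range (N + 1) ×ˢ Finset.range (N + 1) ×ˢ Finset.range (N + 1)).filter
    (fun t => t.1 * t.2.2 = N ∧ t.2.1 < t.2.2)

/-- The matrix of the representative. -/
def mat (t : ℕ × ℕ × ℕ) : Matrix (Fin 2) (Fin 2) ℤ := !![(t.1 : ℤ), (t.2.1 : ℤ); 0, (t.2.2 : ℤ)]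

/-- The value of the homogeneous function of lattices attached to `g` (weight `κ`) at the lattice
which is spanned by `A (τ, 1)`. -/
def val (κ : ℤ) (g : ℍ → ℂ) (A : Matrix (Fin 2) (Fin 2) ℤ) (τ : ℍ) : ℂ :=
  ((A 1 0 : ℂ) * τ + (A 1 1 : ℂ)) ^ (-κ) *
    g (ofComplex (((A 0 0 : ℂ) * τ + (A 0 1 : ℂ)) / ((A 1 0 : ℂ) * τ + (A 1 1 : ℂ))))

/-- The Hecke sum. -/
def hsum (κ : ℤ) (N : ℕ) (g : ℍ → ℂ) (τ : ℍ) : ℂ := ∑ t ∈ reps N, val κ g (mat t) τ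

/-- `g` is holomorphic on the upper half plane and transforms like a modular form of weight `κ` under
`SL(2, ℤ)` (no condition at the cusp). -/
structure IsWeak (κ : ℤ) (g : ℍ → ℂ) : Prop where
  slash : ∀ (γ : SL(2, ℤ)) (τ : ℍ), g (γ • τ) = ((γ 1 0 : ℂ) * τ + (γ 1 1 : ℂ)) ^ κ * g τ
  holo : DifferentiableOn ℂ (g ∘ ofComplex) {z | 0 < z.im}

/-- `q^e g(τ) = ∑ c_i q^i` for all `τ`. -/
def QExp (g : ℍ → ℂ) (e : ℕ) (c : PowerSeries ℂ) : Prop :=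
  ∀ τ : ℍ, HasSum (fun i : ℕ => PowerSeries.coeff i c * qq τ ^ i) (qq τ ^ e * g τ)

/-- The power series has integral coefficients. -/
def IsInt (c : PowerSeries ℂ) : Prop := ∀ n, ∃ z : ℤ, PowerSeries.coeff n c = z

/-- The normalized Eisenstein series as a power series. -/
def eis (k : ℕ) : PowerSeries ℂ :=
  PowerSeries.mk fun n => if n = 0 then 1 else
    -(2 * k / bernoulli k : ℂ) * (ArithmeticFunction.sigma (k - 1) n : ℂ)

/-- `Δ = (E₄³ - E₆²) / 1728` as a power series. -/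
def del : PowerSeries ℂ := PowerSeries.C (1 / 1728 : ℂ) * (eis 4 ^ 3 - eis 6 ^ 2)

/-- `E_k / (j - J) = E_k Δ / (E₄³ - J Δ)` as a power series. -/
def quot (k : ℕ) (J : ℂ) : PowerSeries ℂ :=
  eis k * del * (eis 4 ^ 3 - PowerSeries.C J * del)⁻¹

/-- The admissible `(k, r, s)`: `14 - k = 4 r + 6 s`. -/
def Adm (k r s : ℕ) : Prop :=
  (k = 4 ∧ r = 1 ∧ s = 1) ∨ (k = 6 ∧ r = 2 ∧ s = 0) ∨ (k = 8 ∧ r = 0 ∧ s = 1) ∨
    (k = 10 ∧ r = 1 ∧ s = 0) ∨ (k = 14 ∧ r = 0 ∧ s = 0)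

/-! ### Integral matrices -/

/-- **RED** (Hermite normal form, existence and uniqueness). An integral matrix `B` of determinant
`N > 0` is `γ * mat t` with `γ ∈ SL(2, ℤ)` for exactly one `t ∈ reps N`.
Proof: existence by the Euclidean algorithm on the first column (or `FixedDetMatrices.reduce` of
Mathlib with `reduce_mem_reps`, `reduce_rec`; for `m > 0` the representatives have
`0 < A 0 0`, `0 < A 1 1`, `0 ≤ A 0 1 < A 1 1`). Uniqueness: if `γ * mat t = mat t'`, then `γ 1 0 * a = 0`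
gives `γ 1 0 = 0`, so `γ 0 0 = γ 1 1 = ±1`, positivity gives `1`, and `b' = b + γ 0 1 * d`,
`0 ≤ b, b' < d = d'` gives `b = b'`. -/
def S_RED : Prop :=
  ∀ (N : ℕ), 0 < N → ∀ B : Matrix (Fin 2) (Fin 2) ℤ, B.det = N →
    ∃! t : ℕ × ℕ × ℕ, t ∈ reps N ∧ ∃ γ : SL(2, ℤ), B = (γ : Matrix (Fin 2) (Fin 2) ℤ) * mat t

/-- **MAP** (from RED). For `M` of determinant `m > 0` there is an injective map `ι` of `reps N` into
`reps (N * m)` with `mat t * M = γ * mat (ι t)`. (`ι t` is the representative of `mat t * M`;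
injective: `mat t * M = γ₁ * mat s`, `mat t' * M = γ₂ * mat s` give `mat t = γ₁ γ₂⁻¹ mat t'`, as
`M` is invertible over `ℚ`, and so `t = t'` by the uniqueness.) -/
def S_MAP : Prop :=
  ∀ (N m : ℕ), 0 < N → 0 < m → ∀ M : Matrix (Fin 2) (Fin 2) ℤ, M.det = m →
    ∃ ι : ℕ × ℕ × ℕ → ℕ × ℕ × ℕ, (∀ t ∈ reps N, ι t ∈ reps (N * m)) ∧
      (∀ t ∈ reps N, ∀ t' ∈ reps N, ι t = ι t' → t = t') ∧
      ∀ t ∈ reps N, ∃ γ : SL(2, ℤ), mat t * M = (γ : Matrix (Fin 2) (Fin 2) ℤ) * mat (ι t)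

/-- **VAL**. The three rules for the lattice functions: invariance under `γ` on the left; on the
right `γ ∈ SL(2, ℤ)` changes `τ`; and `M (α, 1) = π (α, 1)` gives homogeneity.
Proof: `A (τ, 1) = (u, v)`, `Im (u / v) = det A Im τ / |v|² > 0`, so `ofComplex` is the identity
there, `v ≠ 0`; then `γ (u, v) = (x u + y v, z u + w v)` and the slash rule for `g` at the point
`u / v`. -/
def S_VAL : Prop :=
  ∀ (κ : ℤ) (g : ℍ → ℂ), IsWeak κ g →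
    (∀ (A : Matrix (Fin 2) (Fin 2) ℤ) (γ : SL(2, ℤ)) (τ : ℍ), 0 < A.det →
      val κ g ((γ : Matrix (Fin 2) (Fin 2) ℤ) * A) τ = val κ g A τ) ∧
    (∀ (A : Matrix (Fin 2) (Fin 2) ℤ) (γ : SL(2, ℤ)) (τ : ℍ), 0 < A.det →
      val κ g A (γ • τ) = ((γ 1 0 : ℂ) * τ + (γ 1 1 : ℂ)) ^ κ *
        val κ g (A * (γ : Matrix (Fin 2) (Fin 2) ℤ)) τ) ∧
    (∀ (A M : Matrix (Fin 2) (Fin 2) ℤ) (τ : ℍ) (π : ℂ), 0 < A.det → 0 < M.det → π ≠ 0 →
      (M 0 0 : ℂ) * τ + (M 0 1 : ℂ) = π * τ → (M 1 0 : ℂ) * τ + (M 1 1 : ℂ) = π →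
      val κ g (A * M) τ = π ^ (-κ) * val κ g A τ)

/-- **WEAK** (from MAP with `m = 1`, and VAL). The Hecke sum of a weak form is a weak form of the same
weight. (Holomorphic: each `τ ↦ (A 1 0 τ + A 1 1)^(-κ) g(...)` for `A = mat t` is
`d^(-κ) g((a τ + b) / d)`.) -/
def S_WEAK : Prop :=
  ∀ (κ : ℤ) (g : ℍ → ℂ) (N : ℕ), 0 < N → IsWeak κ g → IsWeak κ (hsum κ N g)

/-! ### q-expansions -/

/-- **HQ**. The expansion of the Hecke sum. If `q^e g = ∑ c_i q^i`, then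
`q^(N e) S_N g = ∑_n (∑_{a d = N, a | n - N e, e + d (n - N e) / a ≥ 0} d^(1-κ) c_(e + d (n - N e) / a)) q^n`.
Proof: `S_N g(τ) = ∑_{a d = N} d^(-κ) ∑_{b < d} g((a τ + b) / d)`,
`g((a τ + b) / d) = ∑_i c_i exp(2 π i (i - e) (a τ + b) / d)`; the sum over `b` of
`exp(2 π i (i - e) b / d)` is `d` if `d | i - e` and `0` otherwise; put `i = e + d j`,
`n = N e + a j`. -/
def S_HQ : Prop :=
  ∀ (κ : ℤ) (g : ℍ → ℂ) (e N : ℕ) (c : PowerSeries ℂ), 0 < N → QExp g e c →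
    QExp (hsum κ N g) (N * e) (PowerSeries.mk fun n : ℕ =>
      ∑ p ∈ N.divisorsAntidiagonal,
        if (p.1 : ℤ) ∣ (n : ℤ) - N * e ∧ 0 ≤ (e : ℤ) + p.2 * (((n : ℤ) - N * e) / p.1) then
          (p.2 : ℂ) ^ (1 - κ) *
            PowerSeries.coeff ((e : ℤ) + p.2 * (((n : ℤ) - N * e) / p.1)).toNat c
        else 0)

/-- **QMUL**. Expansions of products, sums, and uniqueness (absolutely convergent power series in the
unit disc; uniqueness e.g. by `ModularFormClass.qExpansion_coeff_unique`-type lemmas or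
`HasFPowerSeriesAt.eq_formalMultilinearSeries`). -/
def S_QMUL : Prop :=
  (∀ (g h : ℍ → ℂ) (e e' : ℕ) (c c' : PowerSeries ℂ), QExp g e c → QExp h e' c' →
    QExp (fun τ => g τ * h τ) (e + e') (c * c')) ∧
  (∀ (g h : ℍ → ℂ) (e : ℕ) (c c' : PowerSeries ℂ), QExp g e c → QExp h e c' →
    QExp (fun τ => g τ + h τ) e (c + c')) ∧
  (∀ (g : ℍ → ℂ) (e : ℕ) (c c' : PowerSeries ℂ), QExp g e c → QExp g e c' → c = c') ∧
  (∀ (g : ℍ → ℂ) (e : ℕ) (c : PowerSeries ℂ) (z : ℂ), QExp g e c →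
    QExp (fun τ => z * g τ) e (PowerSeries.C z * c)) ∧
  (∀ (g : ℍ → ℂ) (e i : ℕ) (c : PowerSeries ℂ), QExp g e c → QExp g (e + i) (PowerSeries.X ^ i * c)) ∧
  (∀ (g : ℍ → ℂ) (e i : ℕ) (c : PowerSeries ℂ), QExp g (e + i) (PowerSeries.X ^ i * c) → QExp g e c)

/-- **NEG**. A weak form of negative weight with an expansion without negative powers of `q` is zero
(it is bounded at the cusp: `isBoundedAtImInfty_of_hasSum_qExpansion`; then
`ModularFormClass.levelOne_neg_weight_eq_zero`); and of weight `0` constant. -/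
def S_NEG : Prop :=
  (∀ (κ : ℤ) (g : ℍ → ℂ) (c : PowerSeries ℂ), κ < 0 → IsWeak κ g → QExp g 0 c → ∀ τ, g τ = 0) ∧
  (∀ (g : ℍ → ℂ) (M : ℝ), IsWeak 0 g → (∀ τ : ℍ, M ≤ τ.im → ‖g τ‖ ≤ M) → ∃ z : ℂ, ∀ τ, g τ = z)

/-- **EIS**. `E₄`, `E₆`, `Δ` (Mathlib) are weak forms with the expansions `eis 4`, `eis 6`, `del`, all
integral, `del = q + ...`, `eis 4`, `eis 6` `= 1 + ...`; `E_8 = E_4²`, `E_10 = E_4 E_6`,
`E_14 = E_4² E_6` as power series (spaces of level one forms of weights 8, 10, 14 are one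
dimensional, e.g. Sturm bound); `1 / Δ` is a weak form with an integral expansion `q⁻¹ (1 + ...)`.
(`E_qExpansion_coeff`, `discriminant_eq_E₄_cube_sub_E₆_sq`, `discriminant_qExpansion_coeff_one`; the
integrality of `(E₄³ - E₆²) / 1728`: `E₄ = 1 + 240 A`, `E₆ = 1 - 504 B`,
`E₄³ - E₆² = 720 A + 1008 B + 3 · 240² A² - 504² B² + 240³ A³`, and `12 | 5 A + 7 B` coefficientwise
since `12 | 5 d³ + 7 d⁵`.) The inverse of `Δ`: product of `del / q` with its inverse power series is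
`1`, and the inverse of an absolutely convergent series on the disc is convergent since `Δ` has no zero
in `ℍ`: `q / Δ(q)` is holomorphic on the disc; so it has an expansion there. -/
def S_EIS : Prop :=
  (IsWeak 4 (fun τ => E₄ τ) ∧ QExp (fun τ => E₄ τ) 0 (eis 4) ∧ IsInt (eis 4)) ∧
  (IsWeak 6 (fun τ => E₆ τ) ∧ QExp (fun τ => E₆ τ) 0 (eis 6) ∧ IsInt (eis 6)) ∧
  (IsWeak 12 discriminant ∧ QExp discriminant 0 del ∧ IsInt del ∧ PowerSeries.coeff 0 del = 0 ∧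
    PowerSeries.coeff 1 del = 1) ∧
  (eis 8 = eis 4 ^ 2 ∧ eis 10 = eis 4 * eis 6 ∧ eis 14 = eis 4 ^ 2 * eis 6) ∧
  (∃ c : PowerSeries ℂ, IsWeak (-12) (fun τ => (discriminant τ)⁻¹) ∧
    QExp (fun τ => (discriminant τ)⁻¹) 1 c ∧ IsInt c ∧ PowerSeries.X = del * c)

/-- **PRIN** (the `q`-expansion principle). A weak form `g` of weight `12 m + 4 r + 6 s` (`4 r + 6 s`
one of `0, 4, 6, 8, 10`) with an integral expansion without negative powers of `q` is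
`E₄^r E₆^s Δ^m P(j)` with an integral polynomial `P`. Induction on `m`: subtract
`c_0 E₄^(r + 3 m) E₆^s` and divide by `Δ`; for `m = 0` the form is `c_0 E₄^r E₆^s` (dimension one). -/
def S_PRIN : Prop :=
  ∀ (k r s m : ℕ) (g : ℍ → ℂ) (c : PowerSeries ℂ), Adm k r s → IsWeak (12 * m + 4 * r + 6 * s) g →
    QExp g 0 c → IsInt c → ∃ P : Polynomial ℤ, ∀ τ : ℍ,
      g τ = frm r s m τ * Polynomial.aeval (jinv τ) P

/-- **DUAL**. `A(n) f(τ) = ∑_{Λ'} f(Λ')` for `J = j(τ)`, `f = E₄^r E₆^s / Δ`, weight `2 - k`.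
Proof: let `S_m = hsum (2 - k) m f` for `m ≥ 1`, `S_0 = 0`, `j = q⁻¹ + ∑_{i ≥ 0} c_i q^i`, `e_m` the
coefficients of `E_k`. By HQ `q^m S_m = 1 + σ_(k-1)(m) φ q^m + O(q^(m+1))`, where `f = q⁻¹ + φ + O(q)`,
and `φ = -e_1` (`E₁₀/Δ : -264 + 24 = -240`, `E₈/Δ: 504`, `E₆/Δ: -480`, `E₄/Δ : 264`, `1/Δ : 24`), so
`φ σ_(k-1)(m) = -e_m`. Hence `H_m = S_(m+1) + ∑_{i=0}^{m-1} c_i S_(m-i) - j S_m - e_m f` (weight `2 - k < 0`)
has no negative powers of `q` and is `0` by NEG (`m ≥ 1`; for `m = 0`: `S_1 = f`). This is the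
recursion for the coefficients of `E_k / (j(q) - J)`: `(q j(q) - J q) ∑ A(n) q^n = q E_k`. -/
def S_DUAL : Prop :=
  ∀ (k r s : ℕ), Adm k r s → ∀ (τ : ℍ) (n : ℕ), 0 < n →
    PowerSeries.coeff n (quot k (jinv τ)) * frm r s (-1) τ = hsum (2 - k) n (frm r s (-1)) τ

/-- **PROD**. `∏_{Λ'} a^12 Δ((a τ + b) / d) / Δ(τ) = ± ∏_{a | N} a^(12 N / a)`.
Proof: the product `∏_t val 12 Δ (mat t) τ / Δ(τ)` is of weight `0` (MAP with `m = 1`, VAL), holomorphic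
and it tends to `∏_t d^(-12) exp(2 π i b / d)` as `Im τ → ∞`, since `Δ(z) exp(-2 π i z) → 1` as
`Im z → ∞` and `∑_t a / d = ∑_{a d = N} a = ∑_{a d = N} d = #reps N`; so it is constant (NEG);
`∏_{b < d} exp(2 π i b / d) = (-1)^(d-1)`. -/
def S_PROD : Prop :=
  ∀ (N : ℕ), 0 < N → ∃ ε : ℂ, (ε = 1 ∨ ε = -1) ∧ ∀ τ : ℍ,
    ∏ t ∈ reps N, ((N : ℂ) ^ 12 * val 12 discriminant (mat t) τ / discriminant τ) =
      ε * ∏ a ∈ N.divisors, ((a : ℂ) ^ (12 * (N / a)))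

/-! ### Algebra -/

/-- **PSUM**. If all power sums of complex numbers are integers, they are algebraic integers.
Proof: `A` = the subring `ℤ[x]` of `ι → ℂ` generated by `x = (x_i)`. The additive map
`A → (ℕ_{< r} → ℤ)`, `h ↦ (∑_i h_i x_i^b)_b`, `r = #ι`, is well defined (for `h = x^a` these are power
sums; the zeroth is `r`) and injective: if all `∑_i h_i x_i^b = 0`, `b < r`, then, by Vandermonde for the
distinct values `v` of `x`, `∑_{i : x_i = v} h_i = 0`; `h` is a polynomial in `x`, so `h_i` depends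
only on `x_i`, and `h = 0`. So `A` is a finitely generated `ℤ`-module and `x` is integral. -/
def S_PSUM : Prop :=
  ∀ (ι : Type) [DecidableEq ι] (T : Finset ι) (x : ι → ℂ),
    (∀ M : ℕ, 1 ≤ M → ∃ z : ℤ, ∑ i ∈ T, x i ^ M = z) → ∀ i ∈ T, IsIntegral ℤ (x i)

/-- **BACK**. Running the recurrence backwards: `x_i` algebraic integers, `R_M = ∑ u_i x_i^M` divisible by
`ϖ` for `M ≥ M₀`. Then `(∏ x_i)^M₀ R_0` is divisible by `ϖ`.
Proof: `∏ (X - x_i) = ∑ c_j X^j` has algebraic integers as coefficients, `∑_j c_j R_(M+j) = 0`, so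
`(∏ x_i) R_M` is divisible by `ϖ` if all `R_(M+j)`, `j ≥ 1`, are; induction. -/
def S_BACK : Prop :=
  ∀ (ι : Type) [DecidableEq ι] (T : Finset ι) (x u : ι → ℂ) (ϖ : ℂ) (M₀ : ℕ),
    (∀ i ∈ T, IsIntegral ℤ (x i)) →
    (∀ M : ℕ, M₀ ≤ M → ∃ w : ℂ, IsIntegral ℤ w ∧ ∑ i ∈ T, u i * x i ^ M = ϖ * w) →
    ∃ w : ℂ, IsIntegral ℤ w ∧ (∏ i ∈ T, x i) ^ M₀ * ∑ i ∈ T, u i = ϖ * w

/-- Elements of the order `O_D = ℤ + ℤ (a α)`: `x + y (a α)` where `a α² + b α + c = 0`. -/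
def InOrder (a : ℤ) (α : ℍ) (z : ℂ) : Prop := ∃ x y : ℤ, z = x + y * (a * α)

/-- **ORD** (arithmetic of `O_D`). Let `a α² + b α + c = 0`, `D = b² - 4 a c < 0`, `p` prime with
`p ∤ D`, `π = x + y a α ∈ O_D` with `π π̄ = p`, and `B ∈ O_D`, `E` an integer prime to `p` with
`(E π^s)^K B = π̄^c w`, `w` an algebraic integer. If `D` is a square modulo `p` (modulo `8` if `p = 2`),
then `B ∈ π̄^c O_D`.
Proof: `ω = a α` satisfies `ω² + b ω + a c = 0`, `O_D = ℤ[ω]`, conjugation `ω̄ = -b - ω`. (1)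
`z = π^c (E π^s)^K B ∈ O_D` and `z / p^c` is an algebraic integer; write `z = z₁ + z₂ ω`; the trace and
the norm of `z / p^c` and `((z - z̄)/p^c)² = z₂² D / p^(2c)` are rational integers; `p ∤ D` gives
`p^c | z₂`, and then `p^c | z₁` (norm). So `z ∈ p^c O_D`, `E^K π^(s K) B ∈ π̄^c O_D`. (2) `π` and `π̄`
are coprime in `O_D`: `p ∤ t = π + π̄` (if `p | t`, then `t² - 4 p = y² D` gives `p | y`, so `p² | 4 p`,
`p = 2`, and then `2 = t'² - D y'²` is impossible for `D ≡ 1 mod 8`, `D < 0`); `π² = t π - p ≡ t π mod p`,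
so `π^i ≡ t^(i-1) π mod π̄ O_D`... and `π ≡ t mod π̄`, so `E^K π^(sK) ≡ E^K t^(sK) mod π̄` is an integer
prime to `p` modulo `π̄ O_D`: with `m m' = 1 + p n` one gets inverses modulo `π̄`, and modulo `π̄^c`
by iteration. -/
def S_ORD : Prop :=
  ∀ (a b c : ℤ) (α : ℍ) (p : ℕ) (π B : ℂ) (E : ℤ) (s K e : ℕ),
    (a : ℂ) * (α : ℂ) ^ 2 + b * α + c = 0 → 0 < a → p.Prime →
    (∃ z : ℤ, (if p = 2 then 8 else (p : ℤ)) ∣ b ^ 2 - 4 * a * c - z ^ 2) →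
    ¬ (p : ℤ) ∣ b ^ 2 - 4 * a * c →
    InOrder a α π → π * (starRingEnd ℂ) π = p → InOrder a α B → IsCoprime E (p : ℤ) →
    (∃ w : ℂ, IsIntegral ℤ w ∧ ((E : ℂ) * π ^ s) ^ K * B = (starRingEnd ℂ) π ^ e * w) →
    ∃ w : ℂ, InOrder a α w ∧ B = (starRingEnd ℂ) π ^ e * w

end

end Pool.Agent.HS37.SP
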