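import Pool.Agent.HS37.SP.Mom
import Pool.Agent.HS37.SP.Psum

/-!
# Project SP: the power moments `T_M(N)`
-/

set_option autoImplicit false

open Matrix MatrixGroups UpperHalfPlane ModularForm ModularFormClass EisensteinSeries

namespace Pool.Agent.HS37.SP

noncomputable section

/-- `f(Λ') / f(Λ)` -/
def uu (k r s : ℕ) (α : ℍ) (t : ℕ × ℕ × ℕ) : ℂ :=
  val (2 - k) (frm r s (-1)) (mat t) α / frm r s (-1) α

/-- `N^12 Δ(Λ') / Δ(Λ)` -/
def xx (N : ℕ) (α : ℍ) (t : ℕ × ℕ × ℕ) : ℂ :=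
  (N : ℂ) ^ 12 * val 12 discriminant (mat t) α / discriminant α

lemma adm_eq {k r s : ℕ} (hA : Adm k r s) : k + 4 * r + 6 * s = 14 := by
  rcases hA with ⟨rfl, rfl, rfl⟩ | ⟨rfl, rfl, rfl⟩ | ⟨rfl, rfl, rfl⟩ | ⟨rfl, rfl, rfl⟩ |
    ⟨rfl, rfl, rfl⟩ <;> norm_num

lemma adm_le {k r s : ℕ} (hA : Adm k r s) : 4 ≤ k := by
  rcases hA with ⟨rfl, rfl, rfl⟩ | ⟨rfl, rfl, rfl⟩ | ⟨rfl, rfl, rfl⟩ | ⟨rfl, rfl, rfl⟩ |
    ⟨rfl, rfl, rfl⟩ <;> norm_num

lemma frm_shift (r s m : ℕ) (τ : ℍ) :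
    frm r s (m : ℤ) τ = frm r s (-1) τ * discriminant τ ^ (m + 1) := by
  have h := discriminant_ne_zero τ
  unfold frm
  rw [zpow_natCast, _root_.zpow_neg, zpow_one, pow_succ]
  field_simp

lemma tm_int {k r s : ℕ} (hA : Adm k r s) {N : ℕ} (hN : 0 < N) {α : ℍ} {J : ℤ}
    (hJ : jinv α = J) (hf : frm r s (-1) α ≠ 0) {M : ℕ} (hM : 2 ≤ M) :
    ∃ z : ℤ, ∑ t ∈ reps N, uu k r s α t * xx N α t ^ M = (N : ℂ) ^ (k - 1) * z := by
  obtain ⟨m, rfl⟩ : ∃ m, M = m + 1 := ⟨M - 1, by omega⟩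
  have hk := adm_eq hA
  have hk4 := adm_le hA
  obtain ⟨z, hz⟩ := hsum_int (m := m) hA (by omega) hN hJ
  have hΔ := discriminant_ne_zero α
  have h1 : ∀ t ∈ reps N, val (12 * m + 4 * r + 6 * s) (frm r s m) (mat t) α =
      val (2 - k) (frm r s (-1)) (mat t) α * val 12 discriminant (mat t) α ^ (m + 1) := by
    intro t ht
    have hdet : 0 < (mat t).det := by
      rw [det_mat_of_mem hN ht]
      exact_mod_cast hN
    rw [← val_pow, ← val_mul _ _ hdet, show (2 - (k : ℤ)) + ((m + 1 : ℕ) : ℤ) * 12 =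
      12 * (m : ℤ) + 4 * r + 6 * s by push_cast; omega]
    congr 1
    funext z
    exact frm_shift r s m z
  have h2 : hsum (12 * m + 4 * r + 6 * s) N (frm r s m) α =
      ∑ t ∈ reps N, val (2 - k) (frm r s (-1)) (mat t) α *
        val 12 discriminant (mat t) α ^ (m + 1) := Finset.sum_congr rfl h1
  refine ⟨z, ?_⟩
  have h3 : ∑ t ∈ reps N, uu k r s α t * xx N α t ^ (m + 1) =
      (N : ℂ) ^ (12 * (m + 1)) / (frm r s (-1) α * discriminant α ^ (m + 1)) *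
        ∑ t ∈ reps N, val (2 - k) (frm r s (-1)) (mat t) α *
          val 12 discriminant (mat t) α ^ (m + 1) := by
    rw [Finset.mul_sum]
    refine Finset.sum_congr rfl fun t _ => ?_
    unfold uu xx
    rw [div_pow, mul_pow, ← pow_mul]
    field_simp
  rw [h3, ← h2]
  rw [frm_shift] at hz
  have h4 : (N : ℂ) ^ (12 * (m + 1)) =
      (N : ℂ) ^ (12 * m + 4 * r + 6 * s - 1) * (N : ℂ) ^ (k - 1) := by
    rw [← pow_add]
    congr 1
    omega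
  have h5 : frm r s (-1) α * discriminant α ^ (m + 1) ≠ 0 := mul_ne_zero hf (pow_ne_zero _ hΔ)
  rw [h4, div_mul_eq_mul_div, div_eq_iff h5]
  linear_combination ((N : ℂ) ^ (k - 1)) * hz

lemma xm_int {N : ℕ} (hN : 0 < N) {α : ℍ} {J : ℤ} (hJ : jinv α = J) {M : ℕ} (hM : 1 ≤ M) :
    ∃ z : ℤ, ∑ t ∈ reps N, xx N α t ^ M = z := by
  obtain ⟨z, hz⟩ := hsum_int (k := 14) (r := 0) (s := 0) (m := M) (by simp [Adm]) (by omega) hN hJ
  have hΔ := discriminant_ne_zero α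
  have h1 : ∀ t ∈ reps N, val (12 * M + 4 * (0 : ℕ) + 6 * (0 : ℕ)) (frm 0 0 M) (mat t) α =
      val 12 discriminant (mat t) α ^ M := by
    intro t ht
    rw [← val_pow, show (12 * (M : ℤ) + 4 * (0 : ℕ) + 6 * (0 : ℕ)) = (M : ℤ) * 12 by
      push_cast; ring]
    congr 1
    funext z
    simp [frm]
  have h2 : hsum (12 * M + 4 * (0 : ℕ) + 6 * (0 : ℕ)) N (frm 0 0 M) α =
      ∑ t ∈ reps N, val 12 discriminant (mat t) α ^ M := Finset.sum_congr rfl h1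
  refine ⟨N * z, ?_⟩
  have h3 : ∑ t ∈ reps N, xx N α t ^ M = (N : ℂ) ^ (12 * M) / discriminant α ^ M *
        ∑ t ∈ reps N, val 12 discriminant (mat t) α ^ M := by
    rw [Finset.mul_sum]
    refine Finset.sum_congr rfl fun t _ => ?_
    unfold xx
    rw [div_pow, mul_pow, ← pow_mul]
    field_simp
  rw [h3, ← h2]
  have h6 : frm 0 0 (M : ℤ) α = discriminant α ^ M := by simp [frm]
  rw [h6] at hz
  have h4 : (N : ℂ) ^ (12 * M) = (N : ℂ) ^ (12 * M + 4 * 0 + 6 * 0 - 1) * N := by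
    rw [← pow_succ]
    congr 1
    omega
  have h5 : discriminant α ^ M ≠ 0 := pow_ne_zero _ hΔ
  rw [h4, div_mul_eq_mul_div, div_eq_iff h5, Int.cast_mul, Int.cast_natCast]
  linear_combination (N : ℂ) * hz

lemma xx_int {N : ℕ} (hN : 0 < N) {α : ℍ} {J : ℤ} (hJ : jinv α = J) :
    ∀ t ∈ reps N, IsIntegral ℤ (xx N α t) :=
  t_PSUM _ (reps N) (xx N α) fun _ hM => xm_int hN hJ hM

end

end Pool.Agent.HS37.SP
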